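import Pool.Agent.H86.Stab.MLTG

/-!
The free product contains a Morse element and is not virtually cyclic.
-/

namespace Pool.Agent.H86.Stab

open Set

namespace FP

variable {G : Type} [Group G] {S : GenSet G} (P : FP G S)

/-- the element `(a, 1)` of the factor -/
def ka : KK := (FreeGroup.of true, 1)

/-- the element `(1, a)` of the factor -/
def kb : KK := (1, FreeGroup.of true)

theorem kl_ka : kl ka = 1 := by simp [kl, ka]

theorem ka_ne : ka ≠ 1 := by
  intro h
  have := kl_ka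
  rw [h, kl_eq_zero.mpr rfl] at this
  omega

/-- the Morse element -/
def mg : G := P.ι false ka * P.ι true ka

theorem mg_pow (n : ℕ) : wl S (P.mg ^ n) = 2 * n ∧
    P.idx (P.mg ^ n) = if n = 0 then none else some false := by
  induction n with
  | zero => simp [wl, wordLen_one, P.idx_one]
  | succ n ih =>
    obtain ⟨h1, h2⟩ := ih
    have h3 : P.idx (P.mg ^ n) ≠ some true := by
      rw [h2]; split_ifs <;> simp
    have e : P.mg ^ (n + 1) = P.ι false ka * (P.ι true ka * P.mg ^ n) := by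
      rw [pow_succ']; unfold mg; group
    have h4 := P.len_mul true ka (P.mg ^ n) h3
    have h5 := P.idx_mul true ka (P.mg ^ n) ka_ne h3
    have h6 := P.len_mul false ka (P.ι true ka * P.mg ^ n) (by rw [h5]; simp)
    have h7 := P.idx_mul false ka (P.ι true ka * P.mg ^ n) ka_ne (by rw [h5]; simp)
    constructor
    · rw [e]
      rw [h4] at h6
      have h8 : wl S (P.ι false ka * (P.ι true ka * P.mg ^ n)) =
        kl ka + (kl ka + wl S (P.mg ^ n)) := h6
      rw [h8, h1, kl_ka]; ring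
    · rw [e, h7, if_neg (by omega)]

theorem mg_inv_pow (n : ℕ) : P.idx (P.mg⁻¹ ^ n) = if n = 0 then none else some true := by
  induction n with
  | zero => simp [P.idx_one]
  | succ n ih =>
    have h3 : P.idx (P.mg⁻¹ ^ n) ≠ some false := by
      rw [ih]; split_ifs <;> simp
    have e : P.mg⁻¹ ^ (n + 1) = P.ι true ka⁻¹ * (P.ι false ka⁻¹ * P.mg⁻¹ ^ n) := by
      rw [pow_succ']; unfold mg; rw [map_inv, map_inv]; group
    have h5 := P.idx_mul_inv_ne ka_ne h3
    have h7 := P.idx_mul_inv_ne (i := true) ka_ne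
      (show P.idx (P.ι false ka⁻¹ * P.mg⁻¹ ^ n) ≠ some true by rw [h5]; simp)
    rw [e, h7, if_neg (by omega)]

theorem mg_zpow_wl (k : ℤ) : (wl S (P.mg ^ k) : ℝ) = 2 * |(k : ℝ)| := by
  rcases Int.eq_nat_or_neg k with ⟨n, rfl | rfl⟩
  · rw [zpow_natCast, (P.mg_pow n).1]
    push_cast
    rw [abs_of_nonneg (Nat.cast_nonneg _)]
  · rw [zpow_neg, zpow_natCast]
    have : wl S (P.mg ^ n)⁻¹ = wl S (P.mg ^ n) := wordLen_inv S _
    rw [this, (P.mg_pow n).1]
    push_cast
    rw [abs_neg, abs_of_nonneg (Nat.cast_nonneg _)]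

theorem mg_wd (m n : ℤ) : wd S (P.mg ^ m) (P.mg ^ n) = 2 * |(n : ℝ) - m| := by
  unfold wd
  rw [← zpow_neg, ← zpow_add]
  have := P.mg_zpow_wl (-m + n)
  rw [show (wordLen (S.gens : Set G) (P.mg ^ (-m + n)) : ℝ) = _ from this]
  push_cast
  rw [show -(m : ℝ) + n = n - m by ring]

theorem mg_idx_pos {k : ℤ} (hk : 0 < k) : P.idx (P.mg ^ k) = some false := by
  obtain ⟨n, rfl⟩ := Int.eq_ofNat_of_zero_le hk.le
  rw [zpow_natCast, (P.mg_pow n).2, if_neg (by omega)]

theorem mg_idx_neg {k : ℤ} (hk : k < 0) : P.idx (P.mg ^ k) = some true := by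
  obtain ⟨n, hn⟩ := Int.eq_ofNat_of_zero_le (show 0 ≤ -k by omega)
  have : P.mg ^ k = P.mg⁻¹ ^ n := by
    rw [inv_pow, ← zpow_natCast, ← zpow_neg, ← hn, neg_neg]
  rw [this, P.mg_inv_pow, if_neg (by omega)]

theorem mg_sep {m n l : ℤ} (h : (m < l ∧ l < n) ∨ (n < l ∧ l < m)) :
    P.Sep (P.mg ^ m) (P.mg ^ l) (P.mg ^ n) := by
  unfold Sep
  rw [← zpow_neg, ← zpow_add, ← zpow_add]
  rcases h with h | h
  · rw [P.mg_idx_neg (by omega), P.mg_idx_pos (by omega)]; simp
  · rw [P.mg_idx_pos (by omega), P.mg_idx_neg (by omega)]; simp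

theorem mg_near {lam eps a b : ℝ} (hlam : 1 ≤ lam) (heps : 0 ≤ eps) (hab : a ≤ b)
    {β : ℝ → CayleyGraph S} (hβ : IsQuasiGeodesic lam eps (Icc a b) β) {m n : ℤ}
    (ha : β a = vertex S (P.mg ^ m)) (hb : β b = vertex S (P.mg ^ n)) :
    ∀ u ∈ Icc a b, ∃ k : ℤ, dist (β u) (vertex S (P.mg ^ k)) ≤
      lam * (lam * (2 + 3 * (eps + 2) + 2)) + 2 * (eps + 2) + 1 + 1 := by
  intro u hu
  have hup : ∀ s ∈ Icc a b, ∀ t ∈ Icc a b,
      wd S (rd (β s)) (rd (β t)) ≤ lam * |s - t| + (eps + 2) := by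
    intro s' hs' t' ht'
    have := (hβ s' hs' t' ht').2
    have := wd_rd_le (β s') (β t')
    linarith
  have hlo : ∀ s ∈ Icc a b, ∀ t ∈ Icc a b,
      |s - t| / lam - (eps + 2) ≤ wd S (rd (β s)) (rd (β t)) := by
    intro s' hs' t' ht'
    have := (hβ s' hs' t' ht').1
    have := dist_le_wd_rd (β s') (β t')
    linarith
  have hlam0 : 0 < lam := by linarith
  rcases lt_trichotomy m n with hmn | hmn | hmn
  · obtain ⟨N, hN⟩ := Int.eq_ofNat_of_zero_le (show 0 ≤ n - m by omega)
    obtain ⟨k, -, hkd⟩ := P.near (α := fun u => rd (β u)) (N := N)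
      (w := fun k => P.mg ^ (m + k)) (R := 2) hab hlam
      (by linarith : (0 : ℝ) ≤ eps + 2) (by norm_num) hup hlo (by omega)
      (by simp [ha, rd_vertex]) (by
        simp only [hb, rd_vertex]
        congr 1
        omega)
      (by
        intro k hk0 hkN
        simp only [ha, hb, rd_vertex]
        exact P.mg_sep (Or.inl ⟨by omega, by omega⟩))
      (by
        intro k hk
        rw [P.mg_wd]
        push_cast
        rw [show (m : ℝ) + (k + 1) - (m + k) = 1 by ring]
        norm_num) u hu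
    refine ⟨m + k, ?_⟩
    have h1 := dist_vertex_le_rd (β u) (P.mg ^ (m + k : ℤ))
    linarith
  · refine ⟨m, ?_⟩
    rw [← ha]
    have h1 := (hβ u hu a (left_mem_Icc.mpr hab)).2
    have h2 := (hβ a (left_mem_Icc.mpr hab) b (right_mem_Icc.mpr hab)).1
    rw [ha, hb, hmn, dist_self] at h2
    have h3 : |a - b| ≤ lam * eps := by
      have : |a - b| / lam ≤ eps := by linarith
      rwa [div_le_iff₀ hlam0, mul_comm] at this
    have h4 : |u - a| ≤ |a - b| := by
      rw [abs_of_nonneg (by linarith [hu.1]), abs_sub_comm, abs_of_nonneg (by linarith)]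
      linarith [hu.2]
    have h5 : lam * |u - a| ≤ lam * (lam * eps) := mul_le_mul_of_nonneg_left (h4.trans h3) hlam0.le
    have h6 : lam * (lam * eps) ≤ lam * (lam * (2 + 3 * (eps + 2) + 2)) := by
      apply mul_le_mul_of_nonneg_left _ hlam0.le
      apply mul_le_mul_of_nonneg_left _ hlam0.le
      linarith
    linarith
  · obtain ⟨N, hN⟩ := Int.eq_ofNat_of_zero_le (show 0 ≤ m - n by omega)
    obtain ⟨k, -, hkd⟩ := P.near (α := fun u => rd (β u)) (N := N)
      (w := fun k => P.mg ^ (m - k)) (R := 2) hab hlam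
      (by linarith : (0 : ℝ) ≤ eps + 2) (by norm_num) hup hlo (by omega)
      (by simp [ha, rd_vertex]) (by
        simp only [hb, rd_vertex]
        congr 1
        omega)
      (by
        intro k hk0 hkN
        simp only [ha, hb, rd_vertex]
        exact P.mg_sep (Or.inr ⟨by omega, by omega⟩))
      (by
        intro k hk
        rw [P.mg_wd]
        push_cast
        rw [show (m : ℝ) - (k + 1) - (m - k) = -1 by ring]
        norm_num) u hu
    refine ⟨m - k, ?_⟩
    have h1 := dist_vertex_le_rd (β u) (P.mg ^ (m - k : ℤ))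
    linarith

theorem morse_element : IsMorseElement S P.mg := by
  constructor
  · intro n hn h
    have := (P.mg_pow n).1
    rw [h, wl, wordLen_one] at this
    omega
  · refine ⟨fun l e => Real.toNNReal (l * (l * (2 + 3 * (e + 2) + 2)) + 2 * (e + 2) + 1 + 1),
      2, 0, by norm_num, le_rfl, ?_, ?_⟩
    · rintro _ ⟨m, rfl⟩ _ ⟨n, rfl⟩
      simp only [Int.floor_intCast, dist_vertex]
      rw [P.mg_wd, abs_sub_comm (n : ℝ) (m : ℝ)]
      have := abs_nonneg ((m : ℝ) - n)
      constructor <;> linarith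
    · intro lam eps hlam heps a b β hab hβ ha hb u hu
      obtain ⟨_, ⟨m, rfl⟩, hm⟩ := ha
      obtain ⟨_, ⟨n, rfl⟩, hn⟩ := hb
      simp only [Int.floor_intCast] at hm hn
      obtain ⟨k, hk⟩ := P.mg_near hlam heps hab hβ hm.symm hn.symm u hu
      refine ⟨vertex S (P.mg ^ k), ⟨(k : ℝ), ⟨k, rfl⟩, by simp⟩, ?_⟩
      rw [Real.coe_toNNReal _ (by positivity)]
      exact hk

include P in
theorem not_virtually_cyclic : ¬ IsVirtuallyCyclic G := by
  rintro ⟨g, hg⟩
  obtain ⟨n, hn, -, hxn⟩ := Subgroup.exists_pow_mem_of_index_ne_zero hg (P.ι false ka)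
  obtain ⟨m, hm, -, hym⟩ := Subgroup.exists_pow_mem_of_index_ne_zero hg (P.ι false kb)
  obtain ⟨i, hi⟩ := Subgroup.mem_zpowers_iff.mp hxn
  obtain ⟨j, hj⟩ := Subgroup.mem_zpowers_iff.mp hym
  have e1 : P.ι false (ka ^ ((n : ℤ) * j)) = P.ι false (kb ^ ((m : ℤ) * i)) := by
    rw [map_zpow, map_zpow, zpow_mul, zpow_mul, zpow_natCast, zpow_natCast, ← hi, ← hj,
      ← zpow_mul, ← zpow_mul, mul_comm]
  have e2 := P.ι_injective false e1
  have e3 : (FreeGroup.of true : F2) ^ ((n : ℤ) * j) = 1 := by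
    have := congrArg Prod.fst e2
    simpa [ka, kb] using this
  have hne : (FreeGroup.of true : F2) ≠ 1 := FreeGroup.of_ne_one true
  have e4 : (n : ℤ) * j = 0 := by
    by_contra h
    have h2 : (FreeGroup.of true : F2) ^ ((n : ℤ) * j).natAbs = 1 := by
      rcases Int.natAbs_eq ((n : ℤ) * j) with h3 | h3
      · rw [h3] at e3
        rwa [zpow_natCast] at e3
      · rw [h3, zpow_neg, inv_eq_one, zpow_natCast] at e3
        exact e3
    exact hne (pow_eq_one_iff_left (Int.natAbs_ne_zero.mpr h) |>.mp h2)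
  have hj0 : j = 0 := by
    rcases mul_eq_zero.mp e4 with h | h
    · omega
    · exact h
  rw [hj0, zpow_zero] at hj
  have e5 : P.ι false (kb ^ m) = 1 := by rw [map_pow, ← hj]
  have e6 := P.ι_eq_one e5
  have e7 : (FreeGroup.of true : F2) ^ m = 1 := by
    have := congrArg Prod.snd e6
    simpa [kb] using this
  exact hne (pow_eq_one_iff_left (by omega) |>.mp e7)

end FP

end Pool.Agent.H86.Stab
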