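import Pool.Agent.H86.Stab.Local

/-!
The free product is Morse local-to-global.
-/

namespace Pool.Agent.H86.Stab

open Set

namespace FP

variable {G : Type} [Group G] {S : GenSet G} (P : FP G S)

/-- radius for the Morse property at large scale -/
noncomputable def Fc (M : ℝ → ℝ → NNReal) (lam eps lam2 eps2 : ℝ) : ℝ :=
  lam2 * (lam2 * ((lam * (2 * ell M lam eps) + (eps + 2) + Bc lam eps + Dc M lam eps)
    + 3 * (eps2 + 2) + 2)) + 2 * (eps2 + 2) + 1 + (Bc lam eps + Dc M lam eps) + 2

theorem chain_of_local {M : ℝ → ℝ → NNReal} {lam eps s t : ℝ} {I : Set ℝ}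
    {γ : ℝ → CayleyGraph S} (hlam : 1 ≤ lam) (heps : 0 ≤ eps)
    (hloc : IsLocalMorse (4 * ell M lam eps) M lam eps I γ) (hsub : Icc s t ⊆ I)
    (hst : ell M lam eps ≤ t - s) :
    ∃ (N : ℕ) (δ : ℝ) (v : ℕ → G), 0 < N ∧ ell M lam eps ≤ δ ∧ δ ≤ 2 * ell M lam eps ∧
      s + N * δ = t ∧ P.Chain (fun k => rd (γ (s + k * δ))) v N ∧
      ∀ k < N, wd S (rd (γ (s + k * δ))) (v k) ≤ Bc lam eps + Dc M lam eps := by
  have hℓ := one_le_ell (M := M) hlam heps
  set ℓ := ell M lam eps with hℓdef
  have hℓ0 : 0 < ℓ := by linarith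
  set N : ℕ := ⌊(t - s) / ℓ⌋₊ with hN
  have h1 : (1 : ℝ) ≤ (t - s) / ℓ := by rw [le_div_iff₀ hℓ0]; linarith
  have hN1 : 1 ≤ N := by
    rw [hN]
    exact (Nat.one_le_floor_iff _).mpr h1
  have hNr : (1 : ℝ) ≤ N := by exact_mod_cast hN1
  have hNle : (N : ℝ) * ℓ ≤ t - s := by
    have := Nat.floor_le (show (0 : ℝ) ≤ (t - s) / ℓ by linarith)
    rw [← hN] at this
    rwa [le_div_iff₀ hℓ0] at this
  have hNlt : t - s < (N + 1) * ℓ := by
    have := Nat.lt_floor_add_one ((t - s) / ℓ)
    rw [← hN] at this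
    rwa [div_lt_iff₀ hℓ0] at this
  have hN0 : (0 : ℝ) < N := by linarith
  set δ : ℝ := (t - s) / N with hδ
  have hδN : (N : ℝ) * δ = t - s := by rw [hδ]; field_simp
  have hδ1 : ℓ ≤ δ := by
    rw [hδ, le_div_iff₀ hN0]; linarith
  have hδ2 : δ ≤ 2 * ℓ := by
    rw [hδ, div_le_iff₀ hN0]; nlinarith
  have hend : s + N * δ = t := by rw [hδN]; ring
  obtain ⟨v, hv1, hv2⟩ := P.exists_chain (M := M) (γ := γ) (N := N) hlam heps hδ1 (by
    intro c d hc hcd hd hdc c' d' h1 h2 h3
    rw [hend] at hd
    refine hloc c' d' h2 (by linarith) ?_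
    intro u hu
    exact hsub ⟨by linarith [hu.1], by linarith [hu.2]⟩)
  exact ⟨N, δ, v, hN1, hδ1, hδ2, hend, hv1, hv2⟩

include P in
theorem local_lower {M : ℝ → ℝ → NNReal} {lam eps s t : ℝ} {I : Set ℝ}
    {γ : ℝ → CayleyGraph S} (hlam : 1 ≤ lam) (heps : 0 ≤ eps)
    (hloc : IsLocalMorse (4 * ell M lam eps) M lam eps I γ) (hsub : Icc s t ⊆ I) (hst : s ≤ t) :
    (t - s) / (lam + eps + 2 * ell M lam eps) - (eps + 2) ≤ dist (γ s) (γ t) ∧
    dist (γ s) (γ t) ≤ (lam + eps + 2 * ell M lam eps) * (t - s) + (eps + 2) := by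
  have hℓ := one_le_ell (M := M) hlam heps
  by_cases hlt : t - s < ell M lam eps
  · obtain ⟨h1, -⟩ := hloc s t hst (by linarith) hsub
    obtain ⟨h2, h3⟩ := h1 s (left_mem_Icc.mpr hst) t (right_mem_Icc.mpr hst)
    rw [abs_sub_comm, abs_of_nonneg (by linarith)] at h2 h3
    constructor
    · have : (t - s) / (lam + eps + 2 * ell M lam eps) ≤ (t - s) / lam := by
        apply div_le_div_of_nonneg_left (by linarith) (by linarith) (by linarith)
      linarith
    · have : lam * (t - s) ≤ (lam + eps + 2 * ell M lam eps) * (t - s) := by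
        apply mul_le_mul_of_nonneg_right _ (by linarith)
        linarith
      linarith
  · push Not at hlt
    obtain ⟨N, δ, v, hN, hδ1, hδ2, hend, hch, -⟩ := P.chain_of_local hlam heps hloc hsub hlt
    have hN0 : (0 : ℝ) < N := by exact_mod_cast hN
    have hδN : (N : ℝ) * δ = t - s := by linarith
    constructor
    · have h1 := hch.dist_ge
      simp only [Nat.cast_zero, zero_mul, add_zero, hend] at h1
      have h2 := wd_rd_le (γ s) (γ t)
      have h3 : (t - s) / (lam + eps + 2 * ell M lam eps) ≤ N := by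
        rw [div_le_iff₀ (by linarith), ← hδN]
        apply mul_le_mul_of_nonneg_left _ hN0.le
        linarith
      linarith
    · have hstep : ∀ k : ℕ, k ≤ N → dist (γ s) (γ (s + k * δ)) ≤ k * (lam * δ + eps) := by
        intro k
        induction k with
        | zero => intro _; simp
        | succ k ih =>
          intro hk
          have h1 := ih (by omega)
          have hkr : ((k + 1 : ℕ) : ℝ) ≤ N := by exact_mod_cast hk
          have hk0 : (0 : ℝ) ≤ k := Nat.cast_nonneg _
          have e : s + ((k + 1 : ℕ) : ℝ) * δ - (s + k * δ) = δ := by push_cast; ring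
          have hle : s + (k : ℝ) * δ ≤ s + ((k + 1 : ℕ) : ℝ) * δ := by linarith
          have hsub2 : Icc (s + (k : ℝ) * δ) (s + ((k + 1 : ℕ) : ℝ) * δ) ⊆ I := by
            refine Subset.trans (Icc_subset_Icc ?_ ?_) hsub
            · nlinarith
            · rw [← hend]; nlinarith
          obtain ⟨h2, -⟩ := hloc _ _ hle (by rw [e]; linarith) hsub2
          have h3 := (h2 _ (left_mem_Icc.mpr hle) _ (right_mem_Icc.mpr hle)).2
          rw [abs_sub_comm, e, abs_of_nonneg (by linarith)] at h3
          have h4 := dist_triangle (γ s) (γ (s + k * δ)) (γ (s + ((k + 1 : ℕ) : ℝ) * δ))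
          push_cast at *
          linarith
      have h1 := hstep N le_rfl
      rw [hend] at h1
      have h2 : (N : ℝ) * (lam * δ + eps) = lam * (t - s) + N * eps := by
        rw [← hδN]; ring
      have h3 : (N : ℝ) ≤ t - s := by
        rw [← hδN]
        nlinarith
      have h4 : (N : ℝ) * eps ≤ (t - s) * eps := mul_le_mul_of_nonneg_right h3 heps
      have h5 : 0 ≤ 2 * ell M lam eps * (t - s) := by
        have : 0 ≤ t - s := by linarith
        positivity
      nlinarith

include P in
theorem local_morse {M : ℝ → ℝ → NNReal} {lam eps s t : ℝ} {I : Set ℝ}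
    {γ : ℝ → CayleyGraph S} (hlam : 1 ≤ lam) (heps : 0 ≤ eps)
    (hloc : IsLocalMorse (4 * ell M lam eps) M lam eps I γ) (hsub : Icc s t ⊆ I) (hst : s ≤ t)
    {lam2 eps2 a b : ℝ} (hlam2 : 1 ≤ lam2) (heps2 : 0 ≤ eps2) {β : ℝ → CayleyGraph S}
    (hab : a ≤ b) (hβ : IsQuasiGeodesic lam2 eps2 (Icc a b) β) (ha : β a = γ s) (hb : β b = γ t) :
    ∀ u ∈ Icc a b, ∃ y ∈ γ '' I, dist (β u) y ≤
      max (M lam2 eps2 : ℝ) (Fc M lam eps lam2 eps2) := by
  have hℓ := one_le_ell (M := M) hlam heps
  have hB := Bc_nonneg (lam := lam) heps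
  have hD := Dc_nonneg (M := M) (lam := lam) heps
  intro u hu
  by_cases hlt : t - s < ell M lam eps
  · obtain ⟨-, h1⟩ := hloc s t hst (by linarith) hsub
    obtain ⟨y, hy, hyd⟩ := h1 lam2 eps2 hlam2 heps2 a b β hab hβ
      (by rw [ha]; exact mem_image_of_mem γ (left_mem_Icc.mpr hst))
      (by rw [hb]; exact mem_image_of_mem γ (right_mem_Icc.mpr hst)) u hu
    exact ⟨y, image_mono hsub hy, hyd.trans (le_max_left _ _)⟩
  · push Not at hlt
    obtain ⟨N, δ, v, hN, hδ1, hδ2, hend, hch, hvd⟩ := P.chain_of_local hlam heps hloc hsub hlt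
    have hδ0 : 0 < δ := by linarith
    set x : ℕ → G := fun k => rd (γ (s + k * δ)) with hx
    have hx0 : x 0 = rd (β a) := by simp [hx, ha]
    have hxN : x N = rd (β b) := by simp only [hx]; rw [hend, hb]
    -- gaps
    have hgap : ∀ k, k < N → wd S (x k) (x (k + 1)) ≤ lam * (2 * ell M lam eps) + (eps + 2) := by
      intro k hk
      have e : s + ((k + 1 : ℕ) : ℝ) * δ - (s + k * δ) = δ := by push_cast; ring
      have hle : s + (k : ℝ) * δ ≤ s + ((k + 1 : ℕ) : ℝ) * δ := by linarith
      have hkr : ((k + 1 : ℕ) : ℝ) ≤ N := by exact_mod_cast hk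
      have hk0 : (0 : ℝ) ≤ k := Nat.cast_nonneg _
      have hsub2 : Icc (s + (k : ℝ) * δ) (s + ((k + 1 : ℕ) : ℝ) * δ) ⊆ I := by
        refine Subset.trans (Icc_subset_Icc ?_ ?_) hsub
        · nlinarith
        · rw [← hend]; nlinarith
      obtain ⟨h2, -⟩ := hloc _ _ hle (by rw [e]; linarith) hsub2
      have h3 := (h2 _ (left_mem_Icc.mpr hle) _ (right_mem_Icc.mpr hle)).2
      rw [abs_sub_comm, e, abs_of_nonneg hδ0.le] at h3
      have h4 := wd_rd_le (γ (s + k * δ)) (γ (s + ((k + 1 : ℕ) : ℝ) * δ))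
      have h5 : lam * δ ≤ lam * (2 * ell M lam eps) :=
        mul_le_mul_of_nonneg_left hδ2 (by linarith)
      show wd S (rd (γ (s + k * δ))) (rd (γ (s + ((k + 1 : ℕ) : ℝ) * δ))) ≤ _
      linarith
    set w : ℕ → G := fun k => if k = 0 then x 0 else if k = N + 1 then x N else v (k - 1) with hw
    have hw0 : w 0 = x 0 := by simp [hw]
    have hwN : w (N + 1) = x N := by simp [hw]
    have hwk : ∀ k, k < N → w (k + 1) = v k := by
      intro k hk
      simp only [hw]
      rw [if_neg (by omega), if_neg (by omega)]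
      rfl
    have hR0 : 0 ≤ lam * (2 * ell M lam eps) + (eps + 2) + Bc lam eps + Dc M lam eps := by
      have : 0 ≤ lam * (2 * ell M lam eps) := by positivity
      linarith
    have hl0 : 0 ≤ lam * (2 * ell M lam eps) := by positivity
    have hgapw : ∀ k < N + 1, wd S (w k) (w (k + 1)) ≤
        lam * (2 * ell M lam eps) + (eps + 2) + Bc lam eps + Dc M lam eps := by
      intro k hk
      rcases Nat.eq_zero_or_pos k with rfl | hk0
      · rw [hw0, hwk 0 hN]
        have := hvd 0 hN
        linarith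
      · obtain ⟨j, rfl⟩ : ∃ j, k = j + 1 := ⟨k - 1, by omega⟩
        rw [hwk j (by omega)]
        have s1 : wd S (v j) (x (j + 1)) ≤ lam * (2 * ell M lam eps) + (eps + 2) := by
          have h1 := (hch.sep j (by omega)).add
          have h2 := hgap j (by omega)
          have h3 := wd_nonneg S (x j) (v j)
          linarith
        rcases Nat.lt_or_ge (j + 1) N with hj | hj
        · rw [hwk (j + 1) hj]
          have h1 := wd_triangle S (v j) (x (j + 1)) (v (j + 1))
          have h2 := hvd (j + 1) hj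
          linarith
        · have : j + 1 = N := by omega
          rw [this, hwN, ← this]
          linarith
    have hup : ∀ s ∈ Icc a b, ∀ t ∈ Icc a b,
        wd S (rd (β s)) (rd (β t)) ≤ lam2 * |s - t| + (eps2 + 2) := by
      intro s' hs' t' ht'
      have := (hβ s' hs' t' ht').2
      have := wd_rd_le (β s') (β t')
      linarith
    have hlo : ∀ s ∈ Icc a b, ∀ t ∈ Icc a b,
        |s - t| / lam2 - (eps2 + 2) ≤ wd S (rd (β s)) (rd (β t)) := by
      intro s' hs' t' ht'
      have := (hβ s' hs' t' ht').1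
      have := dist_le_wd_rd (β s') (β t')
      linarith
    obtain ⟨k, hk, hkd⟩ := P.near (α := fun u => rd (β u)) (N := N + 1) (w := w) hab hlam2
      (by linarith : (0 : ℝ) ≤ eps2 + 2) hR0 hup hlo (by omega)
      (by rw [hw0, hx0]) (by rw [hwN, hxN])
      (by
        intro k hk0 hkN
        obtain ⟨j, rfl⟩ : ∃ j, k = j + 1 := ⟨k - 1, by omega⟩
        rw [hwk j (by omega)]
        have := hch.sep_ends (k := j) (by omega)
        rw [← hx0, ← hxN]
        exact this) hgapw u hu
    -- the vertex w k is near the path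
    obtain ⟨τ, hτ, hτd⟩ : ∃ τ ∈ Icc s t, wd S (w k) (rd (γ τ)) ≤ Bc lam eps + Dc M lam eps := by
      rcases Nat.eq_zero_or_pos k with rfl | hk0
      · refine ⟨s, left_mem_Icc.mpr hst, ?_⟩
        rw [hw0]
        have : x 0 = rd (γ s) := by simp [hx]
        rw [this, wd_self]
        linarith
      · rcases hk.lt_or_eq with hk1 | hk1
        · obtain ⟨j, rfl⟩ : ∃ j, k = j + 1 := ⟨k - 1, by omega⟩
          rw [hwk j (by omega)]
          have hjr : (j : ℝ) ≤ N := by exact_mod_cast (by omega : j ≤ N)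
          have hj0 : (0 : ℝ) ≤ j := Nat.cast_nonneg _
          refine ⟨s + j * δ, ⟨by nlinarith, by rw [← hend]; nlinarith⟩, ?_⟩
          rw [wd_comm]
          exact hvd j (by omega)
        · refine ⟨t, right_mem_Icc.mpr hst, ?_⟩
          rw [hk1, hwN]
          have : x N = rd (γ t) := by simp only [hx]; rw [hend]
          rw [this, wd_self]
          linarith
    refine ⟨γ τ, mem_image_of_mem γ (hsub hτ), le_trans ?_ (le_max_right _ _)⟩
    have h1 := dist_le_wd_rd (β u) (γ τ)
    have h2 := wd_triangle S (rd (β u)) (w k) (rd (γ τ))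
    have h3 : wd S (rd (β u)) (w k) ≤ _ := hkd
    unfold Fc
    linarith

include P in
/-- The free product of two copies of `F₂ × F₂` is Morse local-to-global. -/
theorem morse_local_to_global : IsMorseLocalToGlobal S := by
  intro M lam eps hlam heps
  have hℓ := one_le_ell (M := M) hlam heps
  refine ⟨4 * ell M lam eps, fun l e => Real.toNNReal (max (M l e : ℝ) (Fc M lam eps l e)),
    lam + eps + 2 * ell M lam eps, eps + 2, by linarith, by linarith, ?_⟩
  intro I γ hI hloc
  have hsub : ∀ s ∈ I, ∀ t ∈ I, Icc s t ⊆ I := fun s hs t ht => hI.out hs ht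
  constructor
  · intro s hs t ht
    rcases le_total s t with hst | hst
    · have := P.local_lower hlam heps hloc (hsub s hs t ht) hst
      rw [abs_sub_comm, abs_of_nonneg (by linarith)]
      exact this
    · have := P.local_lower hlam heps hloc (hsub t ht s hs) hst
      rw [abs_of_nonneg (by linarith), dist_comm]
      exact this
  · intro lam2 eps2 hlam2 heps2 a b β hab hβ ha hb u hu
    obtain ⟨s, hs, hsa⟩ := ha
    obtain ⟨t, ht, htb⟩ := hb
    have goal : ∃ y ∈ γ '' I, dist (β u) y ≤ max (M lam2 eps2 : ℝ) (Fc M lam eps lam2 eps2) := by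
      rcases le_total s t with hst | hst
      · exact P.local_morse hlam heps hloc (hsub s hs t ht) hst hlam2 heps2 hab hβ
          hsa.symm htb.symm u hu
      · have hβ' : IsQuasiGeodesic lam2 eps2 (Icc a b) (fun z => β (a + b - z)) := by
          intro p hp q hq
          have h1 := hβ (a + b - p) ⟨by linarith [hp.2], by linarith [hp.1]⟩ (a + b - q)
            ⟨by linarith [hq.2], by linarith [hq.1]⟩
          have e : |a + b - p - (a + b - q)| = |p - q| := by
            rw [show a + b - p - (a + b - q) = -(p - q) by ring, abs_neg]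
          rw [e] at h1
          exact h1
        obtain ⟨y, hy, hyd⟩ := P.local_morse hlam heps hloc (hsub t ht s hs) hst hlam2 heps2 hab
          hβ' (by rw [show a + b - a = b by ring]; exact htb.symm)
          (by rw [show a + b - b = a by ring]; exact hsa.symm) (a + b - u)
          ⟨by linarith [hu.2], by linarith [hu.1]⟩
        rw [show a + b - (a + b - u) = u by ring] at hyd
        exact ⟨y, hy, hyd⟩
    obtain ⟨y, hy, hyd⟩ := goal
    refine ⟨y, hy, ?_⟩
    rw [Real.coe_toNNReal _ ((M lam2 eps2).coe_nonneg.trans (le_max_left _ _))]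
    exact hyd

end FP

end Pool.Agent.H86.Stab
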