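import Pool.Agent.H86.Stab.Growth

/-!
The right-angled Artin group of the disjoint union of two squares as a free product.
-/

namespace Pool.Agent.H86.Stab

open Set Monoid

section Raag

variable {V : Type}

/-- The relators `u v u⁻¹ v⁻¹`, one for every pair of adjacent vertices `u`, `v`. -/
def raagRels (Γ : SimpleGraph V) : Set (FreeGroup V) :=
  {r | ∃ u v, Γ.Adj u v ∧
    r = FreeGroup.of u * FreeGroup.of v * (FreeGroup.of u)⁻¹ * (FreeGroup.of v)⁻¹}

/-- The right-angled Artin group with defining graph `Γ`. -/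
abbrev RAAG (Γ : SimpleGraph V) : Type := PresentedGroup (raagRels Γ)

/-- The vertex `v` as an element of the right-angled Artin group. -/
abbrev vtx (Γ : SimpleGraph V) (v : V) : RAAG Γ := PresentedGroup.of v

theorem vtx_comm {Γ : SimpleGraph V} {u v : V} (h : Γ.Adj u v) :
    Commute (vtx Γ u) (vtx Γ v) := by
  have h1 : PresentedGroup.mk (raagRels Γ)
      (FreeGroup.of u * FreeGroup.of v * (FreeGroup.of u)⁻¹ * (FreeGroup.of v)⁻¹) = 1 :=
    PresentedGroup.one_of_mem ⟨u, v, h, rfl⟩
  rw [map_mul, map_mul, map_mul, map_inv, map_inv, mul_inv_eq_one, mul_inv_eq_iff_eq_mul] at h1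
  exact h1

open Classical in
/-- The standard generating set of a right-angled Artin group: its vertices. -/
noncomputable def stdGens [Fintype V] (Γ : SimpleGraph V) : GenSet (RAAG Γ) where
  gens := Finset.univ.image (vtx Γ)
  closure_gens := by
    rw [Finset.coe_image, Finset.coe_univ, Set.image_univ]
    exact PresentedGroup.closure_range_of _

theorem mem_stdGens [Fintype V] (Γ : SimpleGraph V) (g : RAAG Γ) :
    g ∈ (stdGens Γ).gens ↔ ∃ v, vtx Γ v = g := by
  classical
  simp [stdGens]

/-- A graph is a join if its vertices can be divided in two non-empty classes such that any two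
vertices of different classes are adjacent. -/
def IsJoin (Γ : SimpleGraph V) : Prop :=
  ∃ A : Set V, A.Nonempty ∧ Aᶜ.Nonempty ∧ ∀ u ∈ A, ∀ v ∈ Aᶜ, Γ.Adj u v

end Raag

/-- The vertices of two disjoint squares: component, diagonal, vertex. -/
abbrev VV : Type := Bool × Bool × Bool

/-- The disjoint union of two squares (cycles of length four): two vertices are adjacent if they lie
in the same component but not in the same diagonal. -/
def twoSquares : SimpleGraph VV where
  Adj u v := u.1 = v.1 ∧ u.2.1 ≠ v.2.1
  symm := ⟨fun _ _ h => ⟨h.1.symm, h.2.symm⟩⟩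
  loopless := ⟨fun _ h => h.2 rfl⟩

theorem not_isJoin_twoSquares : ¬ IsJoin twoSquares := by
  rintro ⟨A, ⟨a, ha⟩, ⟨b, hb⟩, h⟩
  by_cases hc : ((!a.1, true, true) : VV) ∈ A
  · have h1 := (h a ha b hb).1
    have h2 := (h _ hc b hb).1
    rw [← h1] at h2
    simp at h2
  · have h2 := (h a ha _ hc).1
    simp at h2

/-- the group -/
abbrev GG : Type := RAAG twoSquares

/-- the free product -/
abbrev WW : Type := CoprodI (fun _ : Bool => KK)

/-- vertices as elements of the factor -/
def emb (v : VV) : KK := bif v.2.1 then (1, FreeGroup.of v.2.2) else (FreeGroup.of v.2.2, 1)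

theorem kl_emb (v : VV) : kl (emb v) = 1 := by
  obtain ⟨i, j, x⟩ := v
  cases j <;> simp [emb, kl]

theorem emb_comm {u v : VV} (h : twoSquares.Adj u v) : Commute (emb u) (emb v) := by
  obtain ⟨i, j, x⟩ := u
  obtain ⟨i', j', x'⟩ := v
  have h2 : j ≠ j' := h.2
  cases j <;> cases j'
  · exact absurd rfl h2
  · simp [emb, Commute, SemiconjBy]
  · simp [emb, Commute, SemiconjBy]
  · exact absurd rfl h2

/-- the isomorphism in one direction -/
def toW : GG →* WW :=
  PresentedGroup.toGroup (f := fun v : VV => (CoprodI.of (i := v.1) (emb v) : WW)) (by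
    rintro r ⟨u, v, h, rfl⟩
    rw [map_mul, map_mul, map_mul, map_inv, map_inv, mul_inv_eq_one, mul_inv_eq_iff_eq_mul,
      FreeGroup.lift_apply_of, FreeGroup.lift_apply_of]
    obtain ⟨i, p⟩ := u
    obtain ⟨i', p'⟩ := v
    have h1 : i = i' := h.1
    subst h1
    show (CoprodI.of (i := i) (emb (i, p)) : WW) * CoprodI.of (i := i) (emb (i, p')) =
      CoprodI.of (i := i) (emb (i, p')) * CoprodI.of (i := i) (emb (i, p))
    rw [← map_mul, ← map_mul]
    exact congrArg _ (emb_comm h))

theorem toW_vtx (v : VV) : toW (vtx twoSquares v) = CoprodI.of (i := v.1) (emb v) :=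
  PresentedGroup.toGroup.of _

/-- free subgroups of the group -/
def iF (i j : Bool) : F2 →* GG := FreeGroup.lift fun x => vtx twoSquares (i, j, x)

theorem iF_of (i j x : Bool) : iF i j (FreeGroup.of x) = vtx twoSquares (i, j, x) :=
  FreeGroup.lift_apply_of

theorem commute_of_gens {A : Type} [Group A] (φ : F2 →* A) (a : A)
    (h : ∀ x, Commute (φ (FreeGroup.of x)) a) (f : F2) : Commute (φ f) a := by
  induction f using FreeGroup.induction_on with
  | C1 => rw [map_one]; exact Commute.one_left a
  | of x => exact h x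
  | inv_of x _ => rw [map_inv]; exact (h x).inv_left
  | mul x y hx hy => rw [map_mul]; exact hx.mul_left hy

theorem iF_comm (i : Bool) (f m : F2) : Commute (iF i false f) (iF i true m) := by
  apply commute_of_gens
  intro x
  apply Commute.symm
  apply commute_of_gens
  intro y
  rw [iF_of, iF_of]
  exact vtx_comm ⟨rfl, by simp⟩

/-- the factors of the group -/
def iK (i : Bool) : KK →* GG := (iF i false).noncommCoprod (iF i true) (iF_comm i)

theorem iK_apply (i : Bool) (k : KK) : iK i k = iF i false k.1 * iF i true k.2 := rfl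

theorem iK_emb (v : VV) : iK v.1 (emb v) = vtx twoSquares v := by
  obtain ⟨i, j, x⟩ := v
  cases j
  · rw [iK_apply]
    simp only [emb, cond_false, map_one, mul_one]
    exact iF_of _ _ _
  · rw [iK_apply]
    simp only [emb, cond_true, map_one, one_mul]
    exact iF_of _ _ _

/-- the isomorphism in the other direction -/
def ofW : WW →* GG := CoprodI.lift fun i => iK i

theorem ofW_of (i : Bool) (k : KK) : ofW (CoprodI.of (i := i) k) = iK i k :=
  CoprodI.lift_of _ _

theorem ofW_toW (g : GG) : ofW (toW g) = g := by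
  have : ofW.comp toW = MonoidHom.id GG := by
    apply PresentedGroup.ext
    intro v
    show ofW (toW (vtx twoSquares v)) = vtx twoSquares v
    rw [toW_vtx, ofW_of, iK_emb]
  exact DFunLike.congr_fun this g

theorem toW_iF (i j : Bool) (f : F2) :
    toW (iF i j f) = CoprodI.of (i := i) (bif j then (1, f) else (f, 1) : KK) := by
  cases j
  · have : toW.comp (iF i false) = (CoprodI.of (M := fun _ : Bool => KK) (i := i)).comp
        (MonoidHom.inl F2 F2) := by
      apply FreeGroup.ext_hom
      intro x
      show toW (iF i false (FreeGroup.of x)) = _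
      rw [iF_of, toW_vtx]
      rfl
    exact DFunLike.congr_fun this f
  · have : toW.comp (iF i true) = (CoprodI.of (M := fun _ : Bool => KK) (i := i)).comp
        (MonoidHom.inr F2 F2) := by
      apply FreeGroup.ext_hom
      intro x
      show toW (iF i true (FreeGroup.of x)) = _
      rw [iF_of, toW_vtx]
      rfl
    exact DFunLike.congr_fun this f

theorem toW_iK (i : Bool) (k : KK) : toW (iK i k) = CoprodI.of (i := i) k := by
  rw [iK_apply, map_mul, toW_iF, toW_iF, ← map_mul]
  simp

theorem toW_ofW (w : WW) : toW (ofW w) = w := by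
  have : toW.comp ofW = MonoidHom.id WW := by
    apply CoprodI.ext_hom
    intro i
    apply MonoidHom.ext
    intro k
    show toW (ofW (CoprodI.of (M := fun _ : Bool => KK) (i := i) k)) =
      CoprodI.of (M := fun _ : Bool => KK) (i := i) k
    rw [ofW_of, toW_iK]
  exact DFunLike.congr_fun this w

section Words

open CoprodI.Word

/-- reduced words -/
abbrev Wd : Type := CoprodI.Word (fun _ : Bool => KK)

/-- total length of a reduced word -/
def tl (w : Wd) : ℕ := (w.toList.map fun s => kl s.2).sum

theorem tl_empty : tl CoprodI.Word.empty = 0 := rfl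

theorem tl_cons (i : Bool) (k : KK) (w : Wd) (h1 : w.fstIdx ≠ some i) (h2 : k ≠ 1) :
    tl (CoprodI.Word.cons (i := i) k w h1 h2) = kl k + tl w := by
  unfold tl
  rw [CoprodI.Word.cons_toList, List.map_cons, List.sum_cons]

theorem kl_one : kl 1 = 0 := kl_eq_zero.mpr rfl

theorem kl_mul_le (a b : KK) : kl (a * b) ≤ kl a + kl b := by
  unfold kl
  have h1 := FreeGroup.norm_mul_le a.1 b.1
  have h2 := FreeGroup.norm_mul_le a.2 b.2
  rw [Prod.fst_mul, Prod.snd_mul]
  omega

theorem tl_rcons {i : Bool} (p : CoprodI.Word.Pair (fun _ : Bool => KK) i) :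
    tl (rcons p) = kl p.head + tl p.tail := by
  unfold rcons
  split_ifs with h
  · rw [h]
    exact (Nat.zero_add _).symm
  · rw [tl_cons]

theorem tl_smul_le (i : Bool) (k : KK) (w : Wd) :
    tl ((CoprodI.of (i := i) k : WW) • w) ≤ kl k + tl w := by
  rw [of_smul_def, tl_rcons]
  have h1 : tl w = kl (equivPair i w).head + tl (equivPair i w).tail := by
    conv_lhs => rw [← (equivPair i).symm_apply_apply w]
    rw [equivPair_symm, tl_rcons]
  have h2 := kl_mul_le k (equivPair i w).head
  rw [h1]
  show kl (k * (equivPair i w).head) + tl (equivPair i w).tail ≤ _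
  omega

/-- the reduced word of an element -/
def nf (g : GG) : Wd := toW g • (CoprodI.Word.empty : Wd)

theorem nf_mul (g h : GG) : nf (g * h) = toW g • nf h := by
  unfold nf
  rw [map_mul, mul_smul]

theorem nf_iK_mul (i : Bool) (k : KK) (g : GG) :
    nf (iK i k * g) = (CoprodI.of (i := i) k : WW) • nf g := by
  rw [nf_mul, toW_iK]

theorem prod_nf (g : GG) : (nf g).prod = toW g := CoprodI.Word.equiv.symm_apply_apply (toW g)

theorem ofW_prod_nf (g : GG) : ofW (nf g).prod = g := by rw [prod_nf, ofW_toW]

theorem nf_ofW_prod (w : Wd) : nf (ofW w.prod) = w := by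
  unfold nf
  rw [toW_ofW]
  exact CoprodI.Word.equiv.apply_symm_apply w

theorem nf_one : nf 1 = CoprodI.Word.empty := by
  unfold nf
  rw [map_one, one_smul]

theorem nf_cons (i : Bool) (k : KK) (g : GG) (h1 : (nf g).fstIdx ≠ some i) (h2 : k ≠ 1) :
    nf (iK i k * g) = CoprodI.Word.cons (i := i) k (nf g) h1 h2 := by
  rw [nf_iK_mul, cons_eq_smul]

/-- the generators of `GG` and their inverses -/
theorem tl_nf_mul_le {s : GG} (hs : s ∈ (stdGens twoSquares).gens ∨ s⁻¹ ∈ (stdGens twoSquares).gens)
    (g : GG) : tl (nf (s * g)) ≤ 1 + tl (nf g) := by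
  rw [mem_stdGens, mem_stdGens] at hs
  rcases hs with ⟨v, hv⟩ | ⟨v, hv⟩
  · rw [← hv, ← iK_emb, nf_iK_mul, ← kl_emb v]
    exact tl_smul_le _ _ _
  · have h1 : s = iK v.1 (emb v)⁻¹ := by
      rw [map_inv, iK_emb, hv, inv_inv]
    rw [h1, nf_iK_mul, ← kl_emb v, ← kl_inv]
    exact tl_smul_le _ _ _

theorem tl_nf_le (g : GG) : tl (nf g) ≤ wordLen ((stdGens twoSquares).gens : Set GG) g := by
  obtain ⟨l, hl, hl', hp⟩ := wordLen_spec (stdGens twoSquares) g
  rw [← hl]
  clear hl
  induction l generalizing g with
  | nil =>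
    rw [List.prod_nil] at hp
    rw [← hp, nf_one, tl_empty]
    exact Nat.zero_le _
  | cons s l ih =>
    rw [List.prod_cons] at hp
    rw [← hp, List.length_cons]
    have h1 := ih l.prod (fun x hx => hl' x (List.mem_cons_of_mem _ hx)) rfl
    have h2 := tl_nf_mul_le (hl' s List.mem_cons_self) l.prod
    omega

theorem wordLen_iF_le (i j : Bool) (f : F2) :
    wordLen ((stdGens twoSquares).gens : Set GG) (iF i j f) ≤ FreeGroup.norm f := by
  have h1 : iF i j f = (f.toWord.map fun p =>
      bif p.2 then vtx twoSquares (i, j, p.1) else (vtx twoSquares (i, j, p.1))⁻¹).prod := by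
    conv_lhs => rw [← FreeGroup.mk_toWord (x := f)]
    exact FreeGroup.lift_mk
  have h2 : FreeGroup.norm f = (f.toWord.map fun p =>
      bif p.2 then vtx twoSquares (i, j, p.1) else (vtx twoSquares (i, j, p.1))⁻¹).length := by
    rw [List.length_map]
    rfl
  rw [h2]
  refine wordLen_le _ ?_ h1.symm
  intro x hx
  rw [List.mem_map] at hx
  obtain ⟨⟨y, b⟩, -, rfl⟩ := hx
  cases b
  · right
    rw [Finset.mem_coe, mem_stdGens]
    exact ⟨(i, j, y), by simp⟩
  · left
    rw [Finset.mem_coe, mem_stdGens]
    exact ⟨(i, j, y), by simp⟩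

theorem wordLen_iK_le (i : Bool) (k : KK) :
    wordLen ((stdGens twoSquares).gens : Set GG) (iK i k) ≤ kl k := by
  rw [iK_apply]
  refine (wordLen_mul_le _ _ _).trans ?_
  have h1 := wordLen_iF_le i false k.1
  have h2 := wordLen_iF_le i true k.2
  exact Nat.add_le_add h1 h2

theorem wordLen_ofW_le (w : Wd) :
    wordLen ((stdGens twoSquares).gens : Set GG) (ofW w.prod) ≤ tl w := by
  induction w using CoprodI.Word.consRecOn with
  | empty =>
    rw [CoprodI.Word.prod_empty, map_one, wordLen_one]
    exact Nat.zero_le _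
  | cons i k w h1 h2 ih =>
    rw [prod_cons, map_mul, tl_cons]
    refine (wordLen_mul_le _ _ _).trans (Nat.add_le_add ?_ ih)
    rw [ofW_of]
    exact wordLen_iK_le i k

theorem wordLen_eq_tl (g : GG) : wordLen ((stdGens twoSquares).gens : Set GG) g = tl (nf g) := by
  apply le_antisymm _ (tl_nf_le g)
  have := wordLen_ofW_le (nf g)
  rwa [ofW_prod_nf] at this

theorem fstIdx_eq_none {w : Wd} (h : w.fstIdx = none) : w = CoprodI.Word.empty := by
  unfold fstIdx at h
  rw [Option.map_eq_none_iff, List.head?_eq_none_iff] at h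
  exact CoprodI.Word.ext h

/-- The right-angled Artin group of two disjoint squares as a free product. -/
def fpGG : FP GG (stdGens twoSquares) where
  ι := iK
  idx g := (nf g).fstIdx
  idx_none g := by
    constructor
    · intro h
      have h1 := fstIdx_eq_none h
      rw [← ofW_prod_nf g, h1, CoprodI.Word.prod_empty, map_one]
    · rintro rfl
      rw [nf_one]
      rfl
  idx_mul i k g hk hg := by
    rw [nf_cons i k g hg hk, fstIdx_cons]
  len_mul i k g hg := by
    rw [wordLen_eq_tl, wordLen_eq_tl]
    by_cases hk : k = 1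
    · rw [hk, map_one, one_mul, kl_one, zero_add]
    · rw [nf_cons i k g hg hk, tl_cons]
  decomp i g hg := by
    set p := equivPair i (nf g) with hp
    have h1 : rcons p = nf g := (equivPair i).symm_apply_apply (nf g)
    have h2 : nf (ofW p.tail.prod) = p.tail := nf_ofW_prod _
    refine ⟨p.head, ofW p.tail.prod, ?_, ?_, ?_⟩
    · intro h
      have h3 : rcons p = p.tail := by
        unfold rcons
        rw [dif_pos h]
      rw [h3] at h1
      exact p.fstIdx_ne (by rw [h1]; exact hg)
    · rw [h2]
      exact p.fstIdx_ne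
    · have h3 : (nf g).prod = (CoprodI.of (i := i) p.head : WW) * p.tail.prod := by
        rw [← h1, prod_rcons]
      rw [← ofW_of, ← map_mul, ← h3, ofW_prod_nf]

end Words

end Pool.Agent.H86.Stab
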