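import Pool.Agent.H86.Stab.Coarse

/-!
A stable subgroup meets the conjugates of the factors trivially.
-/

namespace Pool.Agent.H86.Stab

open Set

namespace FP

variable {G : Type} [Group G] {S : GenSet G} (P : FP G S)

theorem stable_aux {H : Subgroup G} (hH : IsStable S H) (i : Bool) (g : G)
    (hg : P.idx g⁻¹ ≠ some i) (κ : KK) (hκ : κ ≠ 1) : g * P.ι i κ * g⁻¹ ∉ H := by
  intro hmem
  obtain ⟨-, M, hM⟩ := hH
  obtain ⟨m, hm⟩ := kl_pow_unbounded hκ (⌈(M 10 9 : ℝ)⌉₊ + 20)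
  set K := κ ^ m with hK
  have hK1 : K ≠ 1 := by
    intro h
    rw [h, kl_eq_zero.mpr rfl] at hm
    omega
  set x : G := g * P.ι i K * g⁻¹ with hx
  have hxH : x ∈ H := by
    have : x = (g * P.ι i κ * g⁻¹) ^ m := by
      rw [hx, hK, map_pow, conj_pow]
    rw [this]
    exact H.pow_mem hmem m
  -- a geodesic from 1 to x
  obtain ⟨γ, hγ, h0, h1⟩ := exists_geodesic S 1 x
  set D := wd S 1 x with hD
  have hD0 : 0 ≤ D := wd_nonneg _ _ _
  have hMor := hM 0 D γ hD0 hγ ⟨1, H.one_mem, h0⟩ ⟨x, hxH, h1⟩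
  set α : ℝ → G := fun t => rd (γ t) with hα
  have hα0 : α 0 = 1 := by simp only [hα]; rw [h0, rd_vertex]
  have hα1 : α D = x := by simp only [hα]; rw [h1, rd_vertex]
  have hup : ∀ s ∈ Icc (0 : ℝ) D, ∀ t ∈ Icc (0 : ℝ) D,
      wd S (α s) (α t) ≤ 1 * |s - t| + 2 := by
    intro s hs t ht
    have := wd_rd_le (γ s) (γ t)
    rw [hγ s hs t ht] at this
    rw [one_mul]
    exact this
  -- the two cut vertices
  have hqx : (g * P.ι i K)⁻¹ * x = g⁻¹ := by rw [hx]; group
  have sp : P.Sep (α 0) g (α D) := by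
    unfold Sep
    have e1 : g⁻¹ * α 0 = g⁻¹ := by rw [hα0, mul_one]
    have e2 : g⁻¹ * α D = P.ι i K * g⁻¹ := by rw [hα1, hx]; group
    rw [e1, e2, P.idx_mul i K _ hK1 hg]
    exact hg
  have sq : P.Sep (α 0) (g * P.ι i K) (α D) := by
    unfold Sep
    have e1 : (g * P.ι i K)⁻¹ * α 0 = P.ι i K⁻¹ * g⁻¹ := by rw [hα0, map_inv]; group
    have e2 : (g * P.ι i K)⁻¹ * α D = g⁻¹ := by rw [hα1, hqx]
    rw [e1, e2, P.idx_mul_inv_ne hK1 hg]
    exact hg.symm
  obtain ⟨u, hu, hu'⟩ := P.cross hD0 le_rfl hup sp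
  obtain ⟨w, hw, hw'⟩ := P.cross hD0 le_rfl hup sq
  have d1 : dist (γ u) (vertex S g) ≤ 4 := by
    have := dist_vertex_le_rd (γ u) g
    have h2 : wd S (rd (γ u)) g ≤ 2 + 1 := hu'
    linarith
  have d2 : dist (γ w) (vertex S (g * P.ι i K)) ≤ 4 := by
    have := dist_vertex_le_rd (γ w) (g * P.ι i K)
    have h2 : wd S (rd (γ w)) (g * P.ι i K) ≤ 2 + 1 := hw'
    linarith
  obtain ⟨κ', hκ', y, hy, hyd⟩ := P.detour 2 (by norm_num) (c := 4) (by norm_num) hMor g i K hK1
    (mem_image_of_mem γ hu) (mem_image_of_mem γ hw) d1 d2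
  obtain ⟨t, ht, rfl⟩ := hy
  set z : G := g * P.ι i κ' with hz
  set n : ℕ := kl K with hn
  have hMn : (M 10 9 : ℝ) + 20 < n := by
    have h2 := Nat.le_ceil (M 10 9 : ℝ)
    have h3 : ((⌈(M 10 9 : ℝ)⌉₊ + 20 : ℕ) : ℝ) < n := by exact_mod_cast hm
    push_cast at h3
    linarith
  have hκ'1 : κ' ≠ 1 := by
    intro h
    rw [h, kl_eq_zero.mpr rfl] at hκ'
    omega
  have hgz : wd S g z = 2 * n := by
    unfold wd
    rw [hz, inv_mul_cancel_left]
    have := P.len_ι i κ'
    rw [show wordLen (S.gens : Set G) (P.ι i κ') = kl κ' from this, hκ']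
    push_cast; ring
  have hgq : wd S g (g * P.ι i K) = n := by
    unfold wd
    rw [inv_mul_cancel_left]
    have := P.len_ι i K
    rw [show wordLen (S.gens : Set G) (P.ι i K) = kl K from this]
  have hclose : wd S (α t) z ≤ (M 10 9 : ℝ) + 1 := by
    have h2 := wd_rd_vertex_le (γ t) z
    have h3 : dist (vertex S z) (γ t) ≤ M 10 9 := by
      have e1 : (4 * ((2 : ℕ) : ℝ) + 2) = 10 := by norm_num
      have e2 : (2 * (4 : ℝ) + 1) = 9 := by norm_num
      rw [e1, e2] at hyd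
      exact hyd
    rw [dist_comm] at h3
    show wd S (rd (γ t)) z ≤ _
    linarith
  have hig : P.idx (g⁻¹ * z) = some i := by
    rw [hz, inv_mul_cancel_left, P.idx_ι i hκ'1]
  have hiq : P.idx ((g * P.ι i K)⁻¹ * z) = some i := by
    have e : (g * P.ι i K)⁻¹ * z = P.ι i (K⁻¹ * κ') := by
      rw [hz, map_mul, map_inv]; group
    rw [e, P.idx_ι]
    intro h
    have h2 : κ' = K := by
      rw [inv_mul_eq_one] at h
      exact h.symm
    rw [h2] at hκ'
    omega
  have hqz : (n : ℝ) ≤ wd S (g * P.ι i K) z := by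
    have := wd_triangle S g (g * P.ι i K) z
    linarith
  by_cases c1 : P.idx (g⁻¹ * α t) = some i
  · by_cases c2 : P.idx ((g * P.ι i K)⁻¹ * α t) = some i
    · have s1 : P.Sep (α 0) g (α t) := by
        unfold Sep
        rw [c1, hα0, mul_one]
        exact hg
      have s2 : P.Sep (α t) (g * P.ι i K) (α D) := by
        unfold Sep
        rw [c2, hα1, hqx]
        exact hg.symm
      have a1 := s1.add
      have a2 := s2.add
      have b1 := hup 0 ⟨le_rfl, hD0⟩ t ht
      have b2 := hup t ht D ⟨hD0, le_rfl⟩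
      rw [zero_sub, abs_neg, abs_of_nonneg ht.1] at b1
      rw [abs_sub_comm, abs_of_nonneg (by linarith [ht.2])] at b2
      have a3 := wd_triangle S 1 g x
      have a4 := wd_triangle S g (g * P.ι i K) x
      rw [hα0] at a1 b1
      rw [hα1] at a2 b2
      have a5 := wd_triangle S g (α t) z
      have a6 := wd_nonneg S (α t) (g * P.ι i K)
      linarith
    · have s1 : P.Sep (α t) (g * P.ι i K) z := by
        unfold Sep
        rw [hiq]
        exact c2
      have a1 := s1.add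
      have a2 := wd_nonneg S (α t) (g * P.ι i K)
      linarith
  · have s1 : P.Sep (α t) g z := by
      unfold Sep
      rw [hig]
      exact c1
    have a1 := s1.add
    have a2 := wd_nonneg S (α t) g
    have a3 : (0 : ℝ) ≤ n := Nat.cast_nonneg _
    linarith

/-- A stable subgroup contains no non-trivial element of a conjugate of a factor. -/
theorem stable_trivial {H : Subgroup G} (hH : IsStable S H) (i : Bool) (g : G) (κ : KK)
    (hmem : g * P.ι i κ * g⁻¹ ∈ H) : κ = 1 := by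
  by_contra hκ
  by_cases hg : P.idx g⁻¹ = some i
  · obtain ⟨k, g', hk, hg', e⟩ := P.decomp i g⁻¹ hg
    have e2 : g = g'⁻¹ * P.ι i k⁻¹ := by
      rw [← inv_inv g, e, map_inv]; group
    have e3 : g * P.ι i κ * g⁻¹ = g'⁻¹ * P.ι i (k⁻¹ * κ * k) * g'⁻¹⁻¹ := by
      rw [e2]
      simp only [map_mul, map_inv]
      group
    rw [e3] at hmem
    refine P.stable_aux hH i g'⁻¹ (by rw [inv_inv]; exact hg') (k⁻¹ * κ * k) ?_ hmem
    intro h
    apply hκ
    have : κ = k * (k⁻¹ * κ * k) * k⁻¹ := by group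
    rw [this, h]
    group
  · exact P.stable_aux hH i g hg κ hκ hmem

end FP

end Pool.Agent.H86.Stab
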