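import Pool.Agent.H86.Stab.FP

/-!
Coarse geometry: quasi-geodesics pass near cut vertices; detours in the factors.
-/

namespace Pool.Agent.H86.Stab

open Set

section Discrete

theorem exists_change {T : Type*} (f : ℕ → T) (n : ℕ) (h : f 0 ≠ f n) :
    ∃ k < n, f k ≠ f (k + 1) := by
  by_contra hc
  push Not at hc
  have : ∀ m ≤ n, f 0 = f m := by
    intro m
    induction m with
    | zero => intro _; rfl
    | succ m ih => intro hm; rw [ih (by omega)]; exact hc m (by omega)
  exact h (this n le_rfl)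

end Discrete

section Free

/-- the element given by the first `j` letters of the reduced word of `f` -/
def pre (f : F2) (j : ℕ) : F2 := FreeGroup.mk (f.toWord.take j)

theorem norm_mk_of_infix {L : List (Bool × Bool)} {f : F2} (h : L <:+: f.toWord) :
    FreeGroup.norm (FreeGroup.mk L) = L.length := by
  have : FreeGroup.IsReduced L := by
    obtain ⟨s, t, e⟩ := h
    have h1 : FreeGroup.IsReduced (s ++ L ++ t) := by
      rw [e]
      exact FreeGroup.isReduced_toWord
    exact (List.isChain_append.mp (List.isChain_append.mp h1).1).2.1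
  rw [FreeGroup.norm, FreeGroup.toWord_mk, this.reduce_eq]

theorem pre_zero (f : F2) : pre f 0 = 1 := by
  simp [pre, FreeGroup.one_eq_mk]

theorem pre_of_le {f : F2} {j : ℕ} (h : FreeGroup.norm f ≤ j) : pre f j = f := by
  unfold pre
  rw [List.take_of_length_le h, FreeGroup.mk_toWord]

theorem pre_inv_mul {f : F2} {j k : ℕ} (h : j ≤ k) :
    (pre f j)⁻¹ * pre f k = FreeGroup.mk ((f.toWord.take k).drop j) := by
  have : pre f k = pre f j * FreeGroup.mk ((f.toWord.take k).drop j) := by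
    unfold pre
    rw [FreeGroup.mul_mk]
    congr 1
    conv_lhs => rw [← List.take_append_drop j (f.toWord.take k)]
    rw [List.take_take, min_eq_left h]
  rw [this]
  group

theorem norm_pre_inv_mul (f : F2) {j k : ℕ} (h : j ≤ k) :
    FreeGroup.norm ((pre f j)⁻¹ * pre f k) =
      min k (FreeGroup.norm f) - min j (FreeGroup.norm f) := by
  rw [pre_inv_mul h, norm_mk_of_infix (f := f)]
  · rw [List.length_drop, List.length_take]
    show min k (FreeGroup.norm f) - j = _
    rcases le_total j (FreeGroup.norm f) with h1 | h1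
    · rw [min_eq_left h1]
    · rw [min_eq_right (h1.trans h), min_eq_right h1]; omega
  · exact (List.drop_suffix _ _).isInfix.trans (List.take_prefix _ _).isInfix

theorem finite_norm_le (n : ℕ) : {f : F2 | FreeGroup.norm f ≤ n}.Finite := by
  have h : {f : F2 | FreeGroup.norm f ≤ n} = FreeGroup.toWord ⁻¹' {l | l.length ≤ n} := rfl
  rw [h]
  exact (List.finite_length_le (Bool × Bool) n).preimage FreeGroup.toWord_injective.injOn

theorem finite_kl_le (n : ℕ) : {k : KK | kl k ≤ n}.Finite := by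
  refine ((finite_norm_le n).prod (finite_norm_le n)).subset ?_
  intro k hk
  have hk' : FreeGroup.norm k.1 + FreeGroup.norm k.2 ≤ n := hk
  exact ⟨show FreeGroup.norm k.1 ≤ n by omega, show FreeGroup.norm k.2 ≤ n by omega⟩

theorem kl_pow_unbounded {k : KK} (hk : k ≠ 1) (n : ℕ) : ∃ m : ℕ, n < kl (k ^ m) := by
  by_contra hc
  push Not at hc
  have hinj : Function.Injective (fun m : ℕ => k ^ m) := by
    intro a b hab
    simp only at hab
    rcases eq_or_ne k.1 1 with h1 | h1
    · have h2 : k.2 ≠ 1 := fun h2 => hk (Prod.ext h1 h2)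
      have : k.2 ^ a = k.2 ^ b := by
        have := congrArg Prod.snd hab
        simpa using this
      exact IsMulTorsionFree.pow_right_injective h2 this
    · have : k.1 ^ a = k.1 ^ b := by
        have := congrArg Prod.fst hab
        simpa using this
      exact IsMulTorsionFree.pow_right_injective h1 this
  have hfin : (range (fun m : ℕ => k ^ m)).Finite := (finite_kl_le n).subset (by
    rintro _ ⟨m, rfl⟩
    exact hc m)
  exact infinite_range_of_injective hinj hfin

/-- first coordinate of the detour path -/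
def dX (x : F2) (h : ℕ) (t : ℕ) : F2 := pre x (t - h)

/-- second coordinate of the detour path -/
def dY (x m : F2) (h : ℕ) (t : ℕ) : F2 :=
  pre (FreeGroup.of true ^ h) t *
    pre ((FreeGroup.of true ^ h)⁻¹ * m) (t - h - FreeGroup.norm x)

/-- detour path in the factor from `1` to `(x, m)` -/
def dK (x m : F2) (h : ℕ) (t : ℕ) : KK := (dX x h t, dY x m h t)

/-- its length -/
def dN (x m : F2) (h : ℕ) : ℕ :=
  h + FreeGroup.norm x + FreeGroup.norm ((FreeGroup.of true ^ h)⁻¹ * m)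

theorem dK_zero (x m : F2) (h : ℕ) : dK x m h 0 = 1 := by
  unfold dK dX dY
  rw [Nat.zero_sub, Nat.zero_sub, pre_zero, pre_zero, pre_zero]
  simp

theorem dK_end (x m : F2) (h : ℕ) : dK x m h (dN x m h) = (x, m) := by
  unfold dK dX dY dN
  rw [pre_of_le (by omega), pre_of_le (f := FreeGroup.of true ^ h) (by
    rw [FreeGroup.norm_of_pow]; omega), pre_of_le (by omega)]
  simp

theorem dK_mid (x m : F2) (h : ℕ) : dK x m h h = (1, FreeGroup.of true ^ h) := by
  unfold dK dX dY
  rw [Nat.sub_self, Nat.zero_sub, pre_zero, pre_zero, pre_of_le (by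
    rw [FreeGroup.norm_of_pow])]
  simp

theorem dK_dist (x m : F2) (h : ℕ) {s t : ℕ} (hst : s ≤ t) (ht : t ≤ dN x m h) :
    kl ((dK x m h s)⁻¹ * dK x m h t) ≤ t - s ∧
    (t - s = kl ((dK x m h s)⁻¹ * dK x m h t) ∨
      FreeGroup.norm x ≤ kl ((dK x m h s)⁻¹ * dK x m h t)) := by
  set z := (FreeGroup.of true ^ h)⁻¹ * m with hz
  set yh : F2 := FreeGroup.of true ^ h with hyh
  have hyn : FreeGroup.norm yh = h := FreeGroup.norm_of_pow _ _
  have hN : dN x m h = h + FreeGroup.norm x + FreeGroup.norm z := rfl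
  have hX : FreeGroup.norm ((dX x h s)⁻¹ * dX x h t) =
      min (t - h) (FreeGroup.norm x) - min (s - h) (FreeGroup.norm x) :=
    norm_pre_inv_mul x (by omega)
  have hk : kl ((dK x m h s)⁻¹ * dK x m h t) =
      FreeGroup.norm ((dX x h s)⁻¹ * dX x h t) + FreeGroup.norm ((dY x m h s)⁻¹ * dY x m h t) := by
    simp [kl, dK]
  by_cases h1 : t ≤ h + FreeGroup.norm x
  · have e1 : dY x m h t = pre yh t := by
      unfold dY
      rw [show t - h - FreeGroup.norm x = 0 by omega, pre_zero, mul_one]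
    have e2 : dY x m h s = pre yh s := by
      unfold dY
      rw [show s - h - FreeGroup.norm x = 0 by omega, pre_zero, mul_one]
    rw [hk, hX, e1, e2, norm_pre_inv_mul yh hst, hyn]
    omega
  · by_cases h2 : h ≤ s
    · have e1 : dY x m h t = yh * pre z (t - h - FreeGroup.norm x) := by
        unfold dY
        rw [pre_of_le (f := FreeGroup.of true ^ h) (by rw [← hyh, hyn]; omega)]
      have e2 : dY x m h s = yh * pre z (s - h - FreeGroup.norm x) := by
        unfold dY
        rw [pre_of_le (f := FreeGroup.of true ^ h) (by rw [← hyh, hyn]; omega)]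
      have e3 : (dY x m h s)⁻¹ * dY x m h t =
          (pre z (s - h - FreeGroup.norm x))⁻¹ * pre z (t - h - FreeGroup.norm x) := by
        rw [e1, e2]; group
      rw [hk, hX, e3, norm_pre_inv_mul z (by omega)]
      omega
    · have e1 : dY x m h t = yh * pre z (t - h - FreeGroup.norm x) := by
        unfold dY
        rw [pre_of_le (f := FreeGroup.of true ^ h) (by rw [← hyh, hyn]; omega)]
      have e2 : dY x m h s = pre yh s := by
        unfold dY
        rw [show s - h - FreeGroup.norm x = 0 by omega, pre_zero, mul_one]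
      have e3 : (dY x m h s)⁻¹ * dY x m h t =
          ((pre yh s)⁻¹ * pre yh h) * ((pre z 0)⁻¹ * pre z (t - h - FreeGroup.norm x)) := by
        rw [e1, e2, pre_zero, pre_of_le (f := yh) (j := h) (by rw [hyn])]; group
      have e4 := FreeGroup.norm_mul_le ((pre yh s)⁻¹ * pre yh h)
        ((pre z 0)⁻¹ * pre z (t - h - FreeGroup.norm x))
      rw [← e3, norm_pre_inv_mul yh (by omega), norm_pre_inv_mul z (by omega), hyn] at e4
      rw [hk, hX]
      omega

end Free

namespace FP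

variable {G : Type} [Group G] {S : GenSet G} (P : FP G S)

/-- A coarsely Lipschitz path passes near every vertex that separates its endpoints. -/
theorem cross {α : ℝ → G} {lam e a b : ℝ} (hab : a ≤ b) (_hlam : 1 ≤ lam)
    (hα : ∀ s ∈ Icc a b, ∀ t ∈ Icc a b, wd S (α s) (α t) ≤ lam * |s - t| + e) {v : G}
    (hs : P.Sep (α a) v (α b)) : ∃ u ∈ Icc a b, wd S (α u) v ≤ e + 1 := by
  set n : ℕ := ⌈lam * (b - a)⌉₊ + 1 with hn
  have hn0 : (0 : ℝ) < n := by rw [hn]; push_cast; positivity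
  have hn1 : lam * (b - a) ≤ n := by
    rw [hn]; push_cast
    have := Nat.le_ceil (lam * (b - a))
    linarith
  have hne : P.idx (v⁻¹ * α (a + (0 : ℕ) * ((b - a) / n))) ≠
      P.idx (v⁻¹ * α (a + (n : ℕ) * ((b - a) / n))) := by
    have e1 : a + ((0 : ℕ) : ℝ) * ((b - a) / n) = a := by simp
    have e2 : a + ((n : ℕ) : ℝ) * ((b - a) / n) = b := by field_simp; ring
    rw [e1, e2]
    exact hs
  obtain ⟨k, hk, hk2⟩ := exists_change (fun k : ℕ => P.idx (v⁻¹ * α (a + k * ((b - a) / n)))) n hne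
  have hin : ∀ j : ℕ, j ≤ n → a + (j : ℝ) * ((b - a) / n) ∈ Icc a b := by
    intro j hj
    have h1 : 0 ≤ (b - a) / n := div_nonneg (by linarith) hn0.le
    have h2 : (j : ℝ) ≤ n := by exact_mod_cast hj
    constructor
    · have := mul_nonneg (Nat.cast_nonneg (α := ℝ) j) h1
      linarith
    · have h3 := mul_le_mul_of_nonneg_right h2 h1
      have h4 : (n : ℝ) * ((b - a) / n) = b - a := by field_simp
      linarith
  refine ⟨a + (k : ℝ) * ((b - a) / n), hin k hk.le, ?_⟩
  have hS : P.Sep (α (a + (k : ℝ) * ((b - a) / n))) v (α (a + ((k + 1 : ℕ) : ℝ) * ((b - a) / n))) :=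
    hk2
  have h1 := hS.add
  have h2 := hα _ (hin k hk.le) _ (hin (k + 1) hk)
  have h3 := wd_nonneg S v (α (a + ((k + 1 : ℕ) : ℝ) * ((b - a) / n)))
  have h4 : |a + (k : ℝ) * ((b - a) / n) - (a + ((k + 1 : ℕ) : ℝ) * ((b - a) / n))|
      = (b - a) / n := by
    rw [show a + (k : ℝ) * ((b - a) / n) - (a + ((k + 1 : ℕ) : ℝ) * ((b - a) / n))
      = -((b - a) / n) by push_cast; ring, abs_neg, abs_of_nonneg (div_nonneg (by linarith) hn0.le)]
  rw [h4] at h2
  have h5 : lam * ((b - a) / n) ≤ 1 := by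
    rw [← mul_div_assoc, div_le_one hn0]
    exact hn1
  linarith

/-- A quasi-geodesic stays near a sequence of cut vertices with bounded gaps. -/
theorem near {α : ℝ → G} {lam e a b R : ℝ} (hab : a ≤ b) (hlam : 1 ≤ lam) (he : 0 ≤ e)
    (hR : 0 ≤ R)
    (hα : ∀ s ∈ Icc a b, ∀ t ∈ Icc a b, wd S (α s) (α t) ≤ lam * |s - t| + e)
    (hα' : ∀ s ∈ Icc a b, ∀ t ∈ Icc a b, |s - t| / lam - e ≤ wd S (α s) (α t))
    {w : ℕ → G} {N : ℕ} (hN : 0 < N) (h0 : w 0 = α a) (h1 : w N = α b)
    (hsep : ∀ k, 0 < k → k < N → P.Sep (α a) (w k) (α b))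
    (hR : ∀ k < N, wd S (w k) (w (k + 1)) ≤ R) :
    ∀ u ∈ Icc a b, ∃ k ≤ N, wd S (α u) (w k) ≤ lam * (lam * (R + 3 * e + 2)) + 2 * e + 1 := by
  have hu : ∀ k ≤ N, ∃ u ∈ Icc a b, wd S (α u) (w k) ≤ e + 1 ∧ (k = 0 → u = a) ∧
      (k = N → u = b) := by
    intro k hk
    rcases Nat.eq_zero_or_pos k with hk0 | hk0
    · refine ⟨a, left_mem_Icc.mpr hab, ?_, fun _ => rfl, fun h => by omega⟩
      rw [hk0, h0, wd_self]; linarith
    · rcases hk.lt_or_eq with hk1 | hk1
      · obtain ⟨u, hu, hu'⟩ := P.cross hab hlam hα (hsep k hk0 hk1)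
        exact ⟨u, hu, hu', fun h => by omega, fun h => by omega⟩
      · refine ⟨b, right_mem_Icc.mpr hab, ?_, fun h => by omega, fun _ => rfl⟩
        rw [hk1, h1, wd_self]; linarith
  choose! τ hτ1 hτ2 hτ3 hτ4 using hu
  intro u hu
  have hlam0 : 0 < lam := by linarith
  -- consecutive times are close
  have hc : ∀ k < N, |τ k - τ (k + 1)| ≤ lam * (R + 3 * e + 2) := by
    intro k hk
    have h2 := hα' _ (hτ1 k hk.le) _ (hτ1 (k + 1) hk)
    have h3 := wd_triangle S (α (τ k)) (w k) (α (τ (k + 1)))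
    have h4 := wd_triangle S (w k) (w (k + 1)) (α (τ (k + 1)))
    have h5 := hτ2 k hk.le
    have h6 := hτ2 (k + 1) hk
    rw [wd_comm] at h6
    have h7 := hR k hk
    have h8 : |τ k - τ (k + 1)| / lam ≤ R + 3 * e + 2 := by linarith
    rwa [div_le_iff₀ hlam0, mul_comm] at h8
  obtain ⟨k, hk, hk2⟩ : ∃ k ≤ N, |u - τ k| ≤ lam * (R + 3 * e + 2) := by
    by_cases hua : u ≤ τ 0
    · refine ⟨0, Nat.zero_le _, ?_⟩
      rw [hτ3 0 (Nat.zero_le _) rfl] at hua ⊢
      rw [show u = a from le_antisymm hua hu.1, sub_self, abs_zero]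
      positivity
    · have hub : u ≤ τ N := by rw [hτ4 N le_rfl rfl]; exact hu.2
      obtain ⟨k, hk, hk2⟩ := exists_change (fun k => u ≤ τ k) N (by
        intro hh
        exact hua (by rw [show (u ≤ τ 0) = (u ≤ τ N) from hh]; exact hub))
      refine ⟨k, hk.le, ?_⟩
      have h3 := hc k hk
      by_cases h4 : u ≤ τ k
      · have h5 : ¬ u ≤ τ (k + 1) := fun h5 => hk2 (propext ⟨fun _ => h5, fun _ => h4⟩)
        push Not at h5
        rw [abs_le] at h3 ⊢
        constructor <;> linarith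
      · have h5 : u ≤ τ (k + 1) := by
          by_contra h5
          exact hk2 (propext ⟨fun h => absurd h h4, fun h => absurd h h5⟩)
        push Not at h4
        rw [abs_le] at h3 ⊢
        constructor <;> linarith
  refine ⟨k, hk, ?_⟩
  have h2 := hα _ hu _ (hτ1 k hk)
  have h3 := wd_triangle S (α u) (α (τ k)) (w k)
  have h4 := hτ2 k hk
  have h5 := mul_le_mul_of_nonneg_left hk2 hlam0.le
  linarith

/-- **Detours.** A Morse subset containing points near `g` and `g * φ κ` comes close to some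
`g * φ κ'` with `κ'` long. -/
theorem detour_aux (C : ℕ) (hC : 1 ≤ C) {c : ℝ} (hc : 0 ≤ c) {M : ℝ → ℝ → NNReal}
    {Y : Set (CayleyGraph S)} (hY : IsMorse M Y) (g : G) (φ : KK →* G)
    (hφ : ∀ k, wl S (φ k) = kl k) (x m : F2) (hx : x ≠ 1)
    (hxm : FreeGroup.norm m ≤ FreeGroup.norm x) {y1 y2 : CayleyGraph S} (hy1 : y1 ∈ Y)
    (hy2 : y2 ∈ Y) (h1 : dist y1 (vertex S g) ≤ c) (h2 : dist y2 (vertex S (g * φ (x, m))) ≤ c) :
    ∃ κ' : KK, kl κ' = C * kl (x, m) ∧
      ∃ y ∈ Y, dist (vertex S (g * φ κ')) y ≤ M (4 * C + 2) (2 * c + 1) := by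
  classical
  set n1 := FreeGroup.norm x with hn1
  have hn1p : 0 < n1 := Nat.pos_of_ne_zero fun h => hx (FreeGroup.norm_eq_zero.mp h)
  set h : ℕ := C * kl (x, m) with hh
  have hkl : kl (x, m) = n1 + FreeGroup.norm m := rfl
  set N : ℕ := dN x m h with hN
  have hz : FreeGroup.norm ((FreeGroup.of true ^ h)⁻¹ * m) ≤ h + FreeGroup.norm m := by
    refine (FreeGroup.norm_mul_le _ _).trans ?_
    rw [FreeGroup.norm_inv_eq, FreeGroup.norm_of_pow]
  have hNe : N = h + n1 + FreeGroup.norm ((FreeGroup.of true ^ h)⁻¹ * m) := rfl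
  have hN1 : N ≤ (4 * C + 2) * n1 := by
    have : h ≤ C * (2 * n1) := Nat.mul_le_mul_left _ (by omega)
    nlinarith
  have hh0 : 0 < h := Nat.mul_pos (by omega) (by omega)
  have hhN : h < N := by omega
  -- the path in G
  set p : ℕ → G := fun t => g * φ (dK x m h t) with hp
  have hpd : ∀ s t, wd S (p s) (p t) = (kl ((dK x m h s)⁻¹ * dK x m h t) : ℝ) := by
    intro s t
    have : (p s)⁻¹ * p t = φ ((dK x m h s)⁻¹ * dK x m h t) := by
      simp only [hp, map_mul, map_inv]; group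
    unfold wd
    rw [this]
    exact_mod_cast hφ _
  have hup : ∀ s t, s ≤ t → t ≤ N → wd S (p s) (p t) ≤ (t : ℝ) - s ∧
      (t : ℝ) - s ≤ (4 * C + 2) * wd S (p s) (p t) := by
    intro s t hst ht
    obtain ⟨a1, a2⟩ := dK_dist x m h hst ht
    rw [hpd]
    have e : ((t - s : ℕ) : ℝ) = (t : ℝ) - s := Nat.cast_sub hst
    constructor
    · rw [← e]; exact_mod_cast a1
    · rw [← e]
      have hkn := Nat.zero_le (kl ((dK x m h s)⁻¹ * dK x m h t))
      have : t - s ≤ (4 * C + 2) * kl ((dK x m h s)⁻¹ * dK x m h t) := by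
        rcases a2 with a2 | a2
        · rw [← a2]; nlinarith
        · have : t - s ≤ N := by omega
          have h3 : (4 * C + 2) * n1 ≤ (4 * C + 2) * kl ((dK x m h s)⁻¹ * dK x m h t) :=
            Nat.mul_le_mul_left (4 * C + 2) a2
          omega
      exact_mod_cast this
  have hup' : ∀ s t, s ≤ N → t ≤ N → wd S (p s) (p t) ≤ |(s : ℝ) - t| ∧
      |(s : ℝ) - t| ≤ (4 * C + 2) * wd S (p s) (p t) := by
    intro s t hs ht
    rcases le_total s t with hst | hst
    · have := hup s t hst ht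
      have e : |(s : ℝ) - t| = (t : ℝ) - s := by
        rw [abs_sub_comm, abs_of_nonneg]
        have : (s : ℝ) ≤ t := by exact_mod_cast hst
        linarith
      rw [e]; exact this
    · have := hup t s hst hs
      have e : |(s : ℝ) - t| = (s : ℝ) - t := by
        rw [abs_of_nonneg]
        have : (t : ℝ) ≤ s := by exact_mod_cast hst
        linarith
      rw [e, wd_comm]; exact this
  -- the detour as a map
  set β : ℝ → CayleyGraph S := fun t =>
    if t ≤ 0 then y1 else if (N : ℝ) ≤ t then y2 else vertex S (p ⌊t⌋₊) with hβ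
  have hnear : ∀ t ∈ Icc (0 : ℝ) N, dist (β t) (vertex S (p ⌊t⌋₊)) ≤ c := by
    intro t ht
    simp only [hβ]
    split_ifs with h3 h4
    · have : t = 0 := le_antisymm h3 ht.1
      rw [this, Nat.floor_zero]
      simpa [hp, dK_zero] using h1
    · have : t = N := le_antisymm ht.2 h4
      rw [this, Nat.floor_natCast]
      simpa [hp, hN, dK_end] using h2
    · rw [dist_self]; exact hc
  have hfl : ∀ t ∈ Icc (0 : ℝ) N, ⌊t⌋₊ ≤ N ∧ (⌊t⌋₊ : ℝ) ≤ t ∧ t < ⌊t⌋₊ + 1 := by
    intro t ht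
    refine ⟨?_, Nat.floor_le ht.1, Nat.lt_floor_add_one t⟩
    have := Nat.floor_mono ht.2
    rwa [Nat.floor_natCast] at this
  have hCr : (1 : ℝ) ≤ 4 * C + 2 := by
    have : (0 : ℝ) ≤ C := Nat.cast_nonneg _
    linarith
  have hqg : IsQuasiGeodesic (4 * C + 2) (2 * c + 1) (Icc (0 : ℝ) N) β := by
    intro s hs t ht
    obtain ⟨a1, a2, a3⟩ := hfl s hs
    obtain ⟨b1, b2, b3⟩ := hfl t ht
    obtain ⟨d1, d2⟩ := hup' _ _ a1 b1
    have n1 := hnear s hs
    have n2 := hnear t ht
    have e1 := dist_triangle4 (β s) (vertex S (p ⌊s⌋₊)) (vertex S (p ⌊t⌋₊)) (β t)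
    have e2 := dist_triangle4 (vertex S (p ⌊s⌋₊)) (β s) (β t) (vertex S (p ⌊t⌋₊))
    rw [dist_comm (vertex S (p ⌊t⌋₊)) (β t), dist_vertex] at e1
    rw [dist_comm (vertex S (p ⌊s⌋₊)) (β s), dist_vertex] at e2
    have f1 : |(⌊s⌋₊ : ℝ) - ⌊t⌋₊| ≤ |s - t| + 1 := by
      rw [abs_le]
      have := neg_abs_le (s - t)
      have := le_abs_self (s - t)
      constructor <;> linarith
    have f2 : |s - t| ≤ |(⌊s⌋₊ : ℝ) - ⌊t⌋₊| + 1 := by
      rw [abs_le]
      have := neg_abs_le ((⌊s⌋₊ : ℝ) - ⌊t⌋₊)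
      have := le_abs_self ((⌊s⌋₊ : ℝ) - ⌊t⌋₊)
      constructor <;> linarith
    have hab := abs_nonneg (s - t)
    constructor
    · have g1 : |s - t| / (4 * C + 2) ≤ wd S (p ⌊s⌋₊) (p ⌊t⌋₊) + 1 := by
        rw [div_le_iff₀ (by linarith)]
        nlinarith
      linarith
    · nlinarith
  have hb0 : β 0 ∈ Y := by simp only [hβ, le_refl, if_true]; exact hy1
  have hbN : β N ∈ Y := by
    have hN0 : ¬ (N : ℝ) ≤ 0 := by
      have : (0 : ℝ) < N := by exact_mod_cast (by omega : 0 < N)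
      linarith
    simp only [hβ, le_refl, if_true, if_neg hN0]
    exact hy2
  have hhr : (h : ℝ) ∈ Icc (0 : ℝ) N := ⟨Nat.cast_nonneg _, by exact_mod_cast hhN.le⟩
  obtain ⟨y, hy, hyd⟩ := hY (4 * C + 2) (2 * c + 1) hCr (by linarith) 0 N β
    (Nat.cast_nonneg _) hqg hb0 hbN h hhr
  refine ⟨dK x m h h, ?_, y, hy, ?_⟩
  · rw [dK_mid]
    unfold kl
    rw [FreeGroup.norm_one, FreeGroup.norm_of_pow, zero_add]
  · have e : β h = vertex S (p h) := by
      have h3 : ¬ (h : ℝ) ≤ 0 := by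
        have : (0 : ℝ) < h := by exact_mod_cast hh0
        linarith
      have h4 : ¬ (N : ℝ) ≤ h := by
        have : (h : ℝ) < N := by exact_mod_cast hhN
        linarith
      simp only [hβ, if_neg h3, if_neg h4, Nat.floor_natCast]
    rw [e] at hyd
    exact hyd

/-- swapping the two coordinates of the factor -/
def sw : KK →* KK := (MulEquiv.prodComm : KK ≃* KK).toMonoidHom

theorem sw_apply (k : KK) : sw k = (k.2, k.1) := rfl

theorem kl_sw (k : KK) : kl (sw k) = kl k := by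
  rw [sw_apply]; unfold kl; exact add_comm _ _

theorem detour (C : ℕ) (hC : 1 ≤ C) {c : ℝ} (hc : 0 ≤ c) {M : ℝ → ℝ → NNReal}
    {Y : Set (CayleyGraph S)} (hY : IsMorse M Y) (g : G) (i : Bool) (κ : KK) (hκ : κ ≠ 1)
    {y1 y2 : CayleyGraph S} (hy1 : y1 ∈ Y) (hy2 : y2 ∈ Y) (h1 : dist y1 (vertex S g) ≤ c)
    (h2 : dist y2 (vertex S (g * P.ι i κ)) ≤ c) :
    ∃ κ' : KK, kl κ' = C * kl κ ∧
      ∃ y ∈ Y, dist (vertex S (g * P.ι i κ')) y ≤ M (4 * C + 2) (2 * c + 1) := by
  obtain ⟨x, m⟩ := κ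
  rcases le_total (FreeGroup.norm m) (FreeGroup.norm x) with hxm | hxm
  · have hx : x ≠ 1 := by
      rintro rfl
      rw [FreeGroup.norm_one, Nat.le_zero, FreeGroup.norm_eq_zero] at hxm
      exact hκ (by rw [hxm]; rfl)
    exact detour_aux C hC hc hY g (P.ι i) (P.len_ι i) x m hx hxm hy1 hy2 h1 h2
  · have hm : m ≠ 1 := by
      rintro rfl
      rw [FreeGroup.norm_one, Nat.le_zero, FreeGroup.norm_eq_zero] at hxm
      exact hκ (by rw [hxm]; rfl)
    obtain ⟨κ', e1, y, hy, e2⟩ := detour_aux C hC hc hY g ((P.ι i).comp sw)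
      (fun k => by
        show wl S (P.ι i (sw k)) = kl k
        rw [P.len_ι, kl_sw]) m x hm hxm hy1 hy2 h1 h2
    refine ⟨sw κ', ?_, y, hy, e2⟩
    rw [kl_sw, e1]
    congr 1
    unfold kl
    exact add_comm _ _

end FP

end Pool.Agent.H86.Stab
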