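import Pool.Agent.H86.Stab.FP

/-!
Spheres in the free group of rank two and the weight `2 ^ (-|f|)`.
-/

namespace Pool.Agent.H86.Stab

open Set

/-- reduced words of length `j` -/
def redW : ℕ → Finset (List (Bool × Bool))
  | 0 => {[]}
  | (j + 1) => (redW j).biUnion fun L =>
      (Finset.univ.filter fun p : Bool × Bool => ∀ q ∈ L.head?, p.1 = q.1 → p.2 = q.2).image
        fun p => p :: L

theorem isReduced_cons_iff (p : Bool × Bool) (L : List (Bool × Bool)) :
    FreeGroup.IsReduced (p :: L) ↔ (∀ q ∈ L.head?, p.1 = q.1 → p.2 = q.2) ∧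
      FreeGroup.IsReduced L := by
  unfold FreeGroup.IsReduced
  rw [List.isChain_cons]

theorem mem_redW (j : ℕ) (L : List (Bool × Bool)) :
    L ∈ redW j ↔ L.length = j ∧ FreeGroup.IsReduced L := by
  induction j generalizing L with
  | zero =>
    simp only [redW, Finset.mem_singleton, List.length_eq_zero_iff]
    constructor
    · rintro rfl; exact ⟨rfl, FreeGroup.IsReduced.nil⟩
    · exact fun h => h.1
  | succ j ih =>
    simp only [redW, Finset.mem_biUnion, Finset.mem_image, Finset.mem_filter, Finset.mem_univ,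
      true_and]
    constructor
    · rintro ⟨L', hL', p, hp, rfl⟩
      obtain ⟨h1, h2⟩ := (ih L').mp hL'
      exact ⟨by simp [h1], (isReduced_cons_iff p L').mpr ⟨hp, h2⟩⟩
    · rintro ⟨h1, h2⟩
      cases L with
      | nil => simp at h1
      | cons p L' =>
        obtain ⟨h3, h4⟩ := (isReduced_cons_iff p L').mp h2
        refine ⟨L', (ih L').mpr ⟨by simpa using h1, h4⟩, p, h3, rfl⟩

theorem card_filter_ne (q : Bool × Bool) :
    (Finset.univ.filter fun p : Bool × Bool => ∀ q' ∈ some q, p.1 = q'.1 → p.2 = q'.2).card = 3 := by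
  obtain ⟨a, b⟩ := q
  cases a <;> cases b <;> decide

theorem card_redW_succ (j : ℕ) : (redW (j + 1)).card =
    ∑ L ∈ redW j, (Finset.univ.filter fun p : Bool × Bool =>
      ∀ q ∈ L.head?, p.1 = q.1 → p.2 = q.2).card := by
  rw [redW, Finset.card_biUnion]
  · apply Finset.sum_congr rfl
    intro L _
    rw [Finset.card_image_of_injective]
    intro p q h
    simpa using h
  · intro L _ L' _ hne
    rw [Function.onFun, Finset.disjoint_left]
    intro w hw hw'
    simp only [Finset.mem_image] at hw hw'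
    obtain ⟨p, -, rfl⟩ := hw
    obtain ⟨p', -, h⟩ := hw'
    simp only [List.cons.injEq] at h
    exact hne h.2.symm

theorem card_redW (j : ℕ) : (redW (j + 1)).card = 4 * 3 ^ j := by
  induction j with
  | zero =>
    rw [card_redW_succ, redW, Finset.sum_singleton]
    simp
  | succ j ih =>
    rw [card_redW_succ]
    have : ∀ L ∈ redW (j + 1), (Finset.univ.filter fun p : Bool × Bool =>
        ∀ q ∈ L.head?, p.1 = q.1 → p.2 = q.2).card = 3 := by
      intro L hL
      obtain ⟨h1, -⟩ := (mem_redW _ L).mp hL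
      cases L with
      | nil => simp at h1
      | cons q L' => exact card_filter_ne q
    rw [Finset.sum_congr rfl this, Finset.sum_const, ih, smul_eq_mul, pow_succ]
    ring

/-- the sphere of radius `j` in the free group -/
def sph (j : ℕ) : Finset F2 := (redW j).image FreeGroup.mk

theorem mem_sph (j : ℕ) (f : F2) : f ∈ sph j ↔ FreeGroup.norm f = j := by
  unfold sph
  rw [Finset.mem_image]
  constructor
  · rintro ⟨L, hL, rfl⟩
    obtain ⟨h1, h2⟩ := (mem_redW _ L).mp hL
    rw [FreeGroup.norm, FreeGroup.toWord_mk, h2.reduce_eq, h1]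
  · intro h
    exact ⟨f.toWord, (mem_redW _ _).mpr ⟨h, FreeGroup.isReduced_toWord⟩, FreeGroup.mk_toWord⟩

theorem card_sph (j : ℕ) : (sph j).card = (redW j).card := by
  unfold sph
  rw [Finset.card_image_of_injOn]
  intro L hL L' hL' h
  have h1 := ((mem_redW _ L).mp (by simpa using hL)).2
  have h2 := ((mem_redW _ L').mp (by simpa using hL')).2
  have h3 := congrArg FreeGroup.toWord h
  rwa [FreeGroup.toWord_mk, FreeGroup.toWord_mk, h1.reduce_eq, h2.reduce_eq] at h3

theorem card_sph_succ (j : ℕ) : (sph (j + 1)).card = 4 * 3 ^ j := by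
  rw [card_sph, card_redW]

theorem sph_zero : sph 0 = {1} := by
  ext f
  rw [mem_sph, FreeGroup.norm_eq_zero, Finset.mem_singleton]

/-- a generator of the free group or its inverse -/
def sg (p : Bool × Bool) : F2 := FreeGroup.mk [p]

theorem norm_sg_mul (p : Bool × Bool) (f : F2) :
    FreeGroup.norm (sg p * f) = if f.toWord.head? = some (p.1, !p.2)
      then FreeGroup.norm f - 1 else FreeGroup.norm f + 1 := by
  have h1 : sg p * f = FreeGroup.mk (p :: f.toWord) := by
    unfold sg
    conv_lhs => rw [← FreeGroup.mk_toWord (x := f)]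
    rw [FreeGroup.mul_mk]
    rfl
  rw [h1]
  unfold FreeGroup.norm
  rw [FreeGroup.toWord_mk, FreeGroup.reduce.cons]
  rw [(FreeGroup.isReduced_toWord (x := f)).reduce_eq]
  cases hw : f.toWord with
  | nil => simp
  | cons q L =>
    obtain ⟨a, b⟩ := q
    obtain ⟨c, d⟩ := p
    simp only [List.head?_cons, Option.some.injEq, Prod.mk.injEq]
    by_cases h : a = c ∧ b = !d
    · rw [if_pos h]
      have : c = a ∧ d = !b := ⟨h.1.symm, by rw [h.2]; simp⟩
      rw [if_pos this]
      simp
    · rw [if_neg h]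
      have : ¬ (c = a ∧ d = !b) := by
        rintro ⟨h1, h2⟩
        exact h ⟨h1.symm, by rw [h2]; simp⟩
      rw [if_neg this]
      simp

/-- The weight `2 ^ (-|f|)` is a supersolution for the adjacency operator of the tree with
constant `7 / 2`. -/
theorem weight_le (f : F2) : ∑ p : Bool × Bool, (1 / 2 : ℝ) ^ FreeGroup.norm (sg p * f) ≤
    7 / 2 * (1 / 2) ^ FreeGroup.norm f := by
  have h0 : (0 : ℝ) < (1 / 2) ^ FreeGroup.norm f := by positivity
  cases hw : f.toWord with
  | nil =>
    have hn : FreeGroup.norm f = 0 := by rw [FreeGroup.norm, hw]; rfl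
    have : ∀ p : Bool × Bool, (1 / 2 : ℝ) ^ FreeGroup.norm (sg p * f) = 1 / 2 := by
      intro p
      rw [norm_sg_mul, hw, hn]
      simp
    rw [Finset.sum_congr rfl fun p _ => this p, hn]
    norm_num
  | cons q L =>
    obtain ⟨n, hn⟩ : ∃ n, FreeGroup.norm f = n + 1 := ⟨L.length, by rw [FreeGroup.norm, hw]; rfl⟩
    have h1 : ∀ p : Bool × Bool, (1 / 2 : ℝ) ^ FreeGroup.norm (sg p * f) =
        (if p = (q.1, !q.2) then (3 / 2 : ℝ) else 0) * (1 / 2) ^ (n + 1) +
          1 / 2 * (1 / 2) ^ (n + 1) := by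
      intro p
      rw [norm_sg_mul, hw, hn]
      simp only [List.head?_cons, Option.some.injEq]
      by_cases h : q = (p.1, !p.2)
      · have : p = (q.1, !q.2) := by rw [h]; simp
        rw [if_pos h, if_pos this, Nat.add_sub_cancel, pow_succ]
        ring
      · have : ¬ p = (q.1, !q.2) := by
          intro h2
          exact h (by rw [h2]; simp)
        rw [if_neg h, if_neg this, pow_succ _ (n + 1)]
        ring
    rw [Finset.sum_congr rfl fun p _ => h1 p, Finset.sum_add_distrib, ← Finset.sum_mul,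
      Finset.sum_ite_eq' Finset.univ, if_pos (Finset.mem_univ _), hn]
    simp only [Finset.sum_const, Finset.card_univ, Fintype.card_prod, Fintype.card_bool]
    apply le_of_eq
    ring

theorem sg_inv (p : Bool × Bool) : (sg p)⁻¹ = sg (p.1, !p.2) := by
  unfold sg
  rw [FreeGroup.inv_mk]
  rfl

theorem sum_sg_inv {M : Type*} [AddCommMonoid M] (φ : F2 → M) :
    ∑ p : Bool × Bool, φ (sg p)⁻¹ = ∑ p : Bool × Bool, φ (sg p) := by
  have : ∀ p : Bool × Bool, φ (sg p)⁻¹ = φ (sg (p.1, !p.2)) := fun p => by rw [sg_inv]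
  rw [Finset.sum_congr rfl fun p _ => this p]
  exact Equiv.sum_comp (Equiv.prodCongr (Equiv.refl Bool) (Equiv.boolNot)) (fun p => φ (sg p))

theorem sph_one : sph 1 = Finset.univ.image sg := by
  ext f
  rw [mem_sph, Finset.mem_image]
  constructor
  · intro h
    have h2 : f.toWord.length = 1 := h
    obtain ⟨p, hp⟩ := List.length_eq_one_iff.mp h2
    refine ⟨p, Finset.mem_univ _, ?_⟩
    unfold sg
    rw [← hp, FreeGroup.mk_toWord]
  · rintro ⟨p, -, rfl⟩
    have := norm_sg_mul p 1
    rw [mul_one] at this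
    rw [this]
    simp

theorem sg_injective : Function.Injective sg := by
  intro p q h
  unfold sg at h
  have := congrArg FreeGroup.toWord h
  rw [FreeGroup.toWord_mk, FreeGroup.toWord_mk, FreeGroup.IsReduced.singleton.reduce_eq,
    FreeGroup.IsReduced.singleton.reduce_eq] at this
  simpa using this

theorem sum_sph_one {M : Type*} [AddCommMonoid M] (φ : F2 → M) :
    ∑ f ∈ sph 1, φ f = ∑ p : Bool × Bool, φ (sg p) := by
  rw [sph_one, Finset.sum_image fun p _ q _ h => sg_injective h]

end Pool.Agent.H86.Stab
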