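import Mathlib

/-!
Cayley graphs as geodesic metric spaces, quasi-geodesics, Morse gauges, Morse local-to-global
groups, stable subgroups and growth rates.
-/

namespace Pool.Agent.H86.Stab

open Set

/-- A finite generating set of a group. -/
structure GenSet (G : Type) [Group G] where
  /-- the generators -/
  gens : Finset G
  closure_gens : Subgroup.closure (gens : Set G) = ⊤

section WordLength

variable {G : Type} [Group G]

/-- Word length of `g` with respect to the set `S`: the least length of a list of elements of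
`S ∪ S⁻¹` with product `g`. -/
noncomputable def wordLen (S : Set G) (g : G) : ℕ :=
  sInf {n | ∃ l : List G, l.length = n ∧ (∀ x ∈ l, x ∈ S ∨ x⁻¹ ∈ S) ∧ l.prod = g}

theorem exists_word (S : GenSet G) (g : G) :
    ∃ l : List G, (∀ x ∈ l, x ∈ (S.gens : Set G) ∨ x⁻¹ ∈ (S.gens : Set G)) ∧ l.prod = g := by
  have hg : g ∈ Subgroup.closure (S.gens : Set G) := by rw [S.closure_gens]; trivial
  rw [← Subgroup.mem_toSubmonoid, Subgroup.closure_toSubmonoid] at hg
  obtain ⟨l, hl, hp⟩ := Submonoid.exists_list_of_mem_closure hg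
  refine ⟨l, fun x hx => ?_, hp⟩
  rcases hl x hx with h | h
  · exact Or.inl h
  · exact Or.inr (by simpa using h)

theorem wordLen_spec (S : GenSet G) (g : G) :
    ∃ l : List G, l.length = wordLen (S.gens : Set G) g ∧
      (∀ x ∈ l, x ∈ (S.gens : Set G) ∨ x⁻¹ ∈ (S.gens : Set G)) ∧ l.prod = g := by
  have h : {n | ∃ l : List G, l.length = n ∧
      (∀ x ∈ l, x ∈ (S.gens : Set G) ∨ x⁻¹ ∈ (S.gens : Set G)) ∧ l.prod = g}.Nonempty := by
    obtain ⟨l, hl, hp⟩ := exists_word S g
    exact ⟨l.length, l, rfl, hl, hp⟩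
  exact Nat.sInf_mem h

theorem wordLen_le {S : Set G} {g : G} (l : List G) (hl : ∀ x ∈ l, x ∈ S ∨ x⁻¹ ∈ S)
    (hp : l.prod = g) : wordLen S g ≤ l.length :=
  Nat.sInf_le ⟨l, rfl, hl, hp⟩

theorem wordLen_one (S : Set G) : wordLen S (1 : G) = 0 :=
  Nat.le_zero.mp (wordLen_le [] (by simp) (by simp))

theorem wordLen_eq_zero (S : GenSet G) {g : G} (h : wordLen (S.gens : Set G) g = 0) : g = 1 := by
  obtain ⟨l, hl, -, hp⟩ := wordLen_spec S g
  rw [h] at hl
  rw [← hp, List.eq_nil_of_length_eq_zero hl, List.prod_nil]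

theorem wordLen_mul_le (S : GenSet G) (g h : G) :
    wordLen (S.gens : Set G) (g * h) ≤ wordLen (S.gens : Set G) g + wordLen (S.gens : Set G) h := by
  obtain ⟨l, hl, hl', hp⟩ := wordLen_spec S g
  obtain ⟨m, hm, hm', hq⟩ := wordLen_spec S h
  rw [← hl, ← hm, ← List.length_append]
  refine wordLen_le _ ?_ (by rw [List.prod_append, hp, hq])
  intro x hx
  rcases List.mem_append.mp hx with h1 | h1
  · exact hl' x h1
  · exact hm' x h1

theorem wordLen_inv_le (S : GenSet G) (g : G) :
    wordLen (S.gens : Set G) g⁻¹ ≤ wordLen (S.gens : Set G) g := by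
  obtain ⟨l, hl, hl', hp⟩ := wordLen_spec S g
  rw [← hl, ← List.length_reverse, ← List.length_map (f := fun x : G => x⁻¹)]
  refine wordLen_le _ ?_ ?_
  · intro x hx
    rw [List.mem_map] at hx
    obtain ⟨y, hy, rfl⟩ := hx
    rw [inv_inv]
    exact (hl' y (List.mem_reverse.mp hy)).symm
  · rw [← hp, List.prod_inv_reverse, List.map_reverse]

theorem wordLen_inv (S : GenSet G) (g : G) :
    wordLen (S.gens : Set G) g⁻¹ = wordLen (S.gens : Set G) g :=
  le_antisymm (wordLen_inv_le S g) (by simpa using wordLen_inv_le S g⁻¹)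

/-- The word metric. -/
noncomputable def wd (S : GenSet G) (g h : G) : ℝ := (wordLen (S.gens : Set G) (g⁻¹ * h) : ℝ)

theorem wd_nonneg (S : GenSet G) (g h : G) : 0 ≤ wd S g h := Nat.cast_nonneg _

theorem wd_self (S : GenSet G) (g : G) : wd S g g = 0 := by
  simp [wd, wordLen_one]

theorem wd_comm (S : GenSet G) (g h : G) : wd S g h = wd S h g := by
  unfold wd
  rw [← wordLen_inv S (g⁻¹ * h)]
  simp

theorem wd_triangle (S : GenSet G) (g h k : G) : wd S g k ≤ wd S g h + wd S h k := by
  unfold wd
  have := wordLen_mul_le S (g⁻¹ * h) (h⁻¹ * k)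
  rw [show g⁻¹ * h * (h⁻¹ * k) = g⁻¹ * k by group] at this
  exact_mod_cast this

theorem wd_mul_left (S : GenSet G) (x g h : G) : wd S (x * g) (x * h) = wd S g h := by
  unfold wd
  congr 2
  group

end WordLength

section Cayley

variable {G : Type} [Group G]

/-- Points of the Cayley graph: `(src, tgt, t)` with `src` and `tgt` equal or joined by an edge
stands for the point of the segment from `src` to `tgt` at distance `t` times its length
from `src`. -/
structure CayleyPt (S : GenSet G) where
  /-- initial vertex of the edge -/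
  src : G
  /-- terminal vertex of the edge -/
  tgt : G
  adj : src = tgt ∨ src⁻¹ * tgt ∈ S.gens ∨ tgt⁻¹ * src ∈ S.gens
  /-- position on the edge -/
  t : ℝ
  t_nonneg : 0 ≤ t
  t_le_one : t ≤ 1

namespace CayleyPt

variable {S : GenSet G}

/-- the length (0 or 1) of the edge carrying the point -/
noncomputable def elen (p : CayleyPt S) : ℝ := wd S p.src p.tgt

/-- the endpoints of the edge -/
def legV (p : CayleyPt S) (b : Bool) : G := if b then p.src else p.tgt

/-- the distance along the edge to its endpoints -/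
noncomputable def legC (p : CayleyPt S) (b : Bool) : ℝ :=
  if b then p.t * p.elen else (1 - p.t) * p.elen

/-- length of the shortest path from `p` to `q` through the endpoint `b` of the edge of `p` and
the endpoint `c` of the edge of `q`. -/
noncomputable def leg (p q : CayleyPt S) (b c : Bool) : ℝ :=
  p.legC b + wd S (p.legV b) (q.legV c) + q.legC c

/-- length of the shortest path from `p` to `q` through endpoints of their edges -/
noncomputable def thr (p q : CayleyPt S) : ℝ :=
  min (min (leg p q true true) (leg p q true false)) (min (leg p q false true) (leg p q false false))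

open Classical in
/-- The path distance in the Cayley graph: the shortest path through endpoints or, for two points
of the same edge, the segment of this edge between them. -/
noncomputable def cdist (p q : CayleyPt S) : ℝ :=
  min (thr p q) (min
    (if p.src = q.src ∧ p.tgt = q.tgt then |p.t - q.t| * p.elen else thr p q)
    (if p.src = q.tgt ∧ p.tgt = q.src then |p.t - (1 - q.t)| * p.elen else thr p q))

theorem elen_nonneg (p : CayleyPt S) : 0 ≤ p.elen := wd_nonneg _ _ _

theorem legC_nonneg (p : CayleyPt S) (b : Bool) : 0 ≤ p.legC b := by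
  have h1 := p.t_nonneg
  have h2 := p.t_le_one
  have h3 := p.elen_nonneg
  cases b <;> simp only [legC] <;> simp <;> nlinarith [mul_nonneg h1 h3, mul_nonneg (sub_nonneg.mpr h2) h3]

theorem legs_le (p : CayleyPt S) (b c : Bool) : wd S (p.legV b) (p.legV c) ≤ p.legC b + p.legC c := by
  have h1 := p.legC_nonneg true
  have h2 := p.legC_nonneg false
  have h3 : p.legC true + p.legC false = p.elen := by simp [legC]; ring
  cases b <;> cases c
  · rw [wd_self]; linarith
  · rw [wd_comm]; simp only [legV] at *; simp at *; unfold elen at h3; linarith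
  · simp only [legV] at *; simp at *; unfold elen at h3; linarith
  · rw [wd_self]; linarith

theorem thr_le (p q : CayleyPt S) (b c : Bool) : thr p q ≤ leg p q b c := by
  unfold thr
  cases b <;> cases c <;> simp

theorem thr_eq (p q : CayleyPt S) : ∃ b c, thr p q = leg p q b c := by
  unfold thr
  rcases min_choice (min (leg p q true true) (leg p q true false))
    (min (leg p q false true) (leg p q false false)) with h | h <;> rw [h]
  · rcases min_choice (leg p q true true) (leg p q true false) with h | h <;> rw [h]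
    · exact ⟨_, _, rfl⟩
    · exact ⟨_, _, rfl⟩
  · rcases min_choice (leg p q false true) (leg p q false false) with h | h <;> rw [h]
    · exact ⟨_, _, rfl⟩
    · exact ⟨_, _, rfl⟩

theorem thr_nonneg (p q : CayleyPt S) : 0 ≤ thr p q := by
  obtain ⟨b, c, h⟩ := thr_eq p q
  rw [h]
  have h1 := p.legC_nonneg b
  have h2 := q.legC_nonneg c
  have h3 := wd_nonneg S (p.legV b) (q.legV c)
  unfold leg
  linarith

theorem thr_comm_le (p q : CayleyPt S) : thr p q ≤ thr q p := by
  obtain ⟨b, c, h⟩ := thr_eq q p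
  rw [h]
  refine (thr_le p q c b).trans (le_of_eq ?_)
  unfold leg
  rw [wd_comm]
  ring

theorem thr_comm (p q : CayleyPt S) : thr p q = thr q p :=
  le_antisymm (thr_comm_le p q) (thr_comm_le q p)

theorem thr_triangle (p q r : CayleyPt S) : thr p r ≤ thr p q + thr q r := by
  obtain ⟨b, c, h⟩ := thr_eq p q
  obtain ⟨c', d, h'⟩ := thr_eq q r
  refine (thr_le p r b d).trans ?_
  rw [h, h']
  unfold leg
  have h1 := wd_triangle S (p.legV b) (q.legV c) (r.legV d)
  have h2 := wd_triangle S (q.legV c) (q.legV c') (r.legV d)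
  have h3 := q.legs_le c c'
  linarith

/-- same edge, same orientation -/
def Same (p q : CayleyPt S) : Prop := p.src = q.src ∧ p.tgt = q.tgt

/-- same edge, opposite orientation -/
def Opp (p q : CayleyPt S) : Prop := p.src = q.tgt ∧ p.tgt = q.src

theorem Same.elen {p q : CayleyPt S} (h : Same p q) : p.elen = q.elen := by
  unfold CayleyPt.elen; rw [h.1, h.2]

theorem Opp.elen {p q : CayleyPt S} (h : Opp p q) : p.elen = q.elen := by
  unfold CayleyPt.elen; rw [h.1, h.2, wd_comm]

theorem Same.symm {p q : CayleyPt S} (h : Same p q) : Same q p := ⟨h.1.symm, h.2.symm⟩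

theorem Opp.symm {p q : CayleyPt S} (h : Opp p q) : Opp q p := ⟨h.2.symm, h.1.symm⟩

theorem abs_mul_elen (p : CayleyPt S) {x y : ℝ} (h : x ≤ |y|) : x * p.elen ≤ |y| * p.elen :=
  mul_le_mul_of_nonneg_right h p.elen_nonneg

/-- moving along an edge changes the distance through endpoints by at most the distance moved -/
theorem thr_same {p q : CayleyPt S} (h : Same p q) (r : CayleyPt S) :
    thr p r ≤ |p.t - q.t| * p.elen + thr q r := by
  obtain ⟨b, c, h'⟩ := thr_eq q r
  refine (thr_le p r b c).trans ?_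
  rw [h']
  unfold leg
  have hv : p.legV b = q.legV b := by cases b <;> simp [legV, h.1, h.2]
  have hc : p.legC b ≤ |p.t - q.t| * p.elen + q.legC b := by
    have e := h.elen
    have h1 := p.abs_mul_elen (le_abs_self (p.t - q.t))
    have h2 := p.abs_mul_elen (neg_le_abs (p.t - q.t))
    cases b <;> simp only [legC] <;> simp <;> rw [← e] <;> linarith
  rw [hv]
  linarith

theorem thr_opp {p q : CayleyPt S} (h : Opp p q) (r : CayleyPt S) :
    thr p r ≤ |p.t - (1 - q.t)| * p.elen + thr q r := by
  obtain ⟨b, c, h'⟩ := thr_eq q r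
  refine (thr_le p r (!b) c).trans ?_
  rw [h']
  unfold leg
  have hv : p.legV (!b) = q.legV b := by cases b <;> simp [legV, h.1, h.2]
  have hc : p.legC (!b) ≤ |p.t - (1 - q.t)| * p.elen + q.legC b := by
    have e := h.elen
    have h1 := p.abs_mul_elen (le_abs_self (p.t - (1 - q.t)))
    have h2 := p.abs_mul_elen (neg_le_abs (p.t - (1 - q.t)))
    cases b <;> simp only [legC] <;> simp <;> rw [← e] <;> linarith
  rw [hv]
  linarith

theorem cdist_le_thr (p q : CayleyPt S) : cdist p q ≤ thr p q := min_le_left _ _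

theorem cdist_le_same {p q : CayleyPt S} (h : Same p q) : cdist p q ≤ |p.t - q.t| * p.elen := by
  unfold cdist
  rw [if_pos (show p.src = q.src ∧ p.tgt = q.tgt from h)]
  exact (min_le_right _ _).trans (min_le_left _ _)

theorem cdist_le_opp {p q : CayleyPt S} (h : Opp p q) :
    cdist p q ≤ |p.t - (1 - q.t)| * p.elen := by
  unfold cdist
  rw [if_pos (show p.src = q.tgt ∧ p.tgt = q.src from h)]
  exact (min_le_right _ _).trans (min_le_right _ _)

theorem cdist_cases (p q : CayleyPt S) : cdist p q = thr p q ∨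
    (Same p q ∧ cdist p q = |p.t - q.t| * p.elen) ∨
    (Opp p q ∧ cdist p q = |p.t - (1 - q.t)| * p.elen) := by
  by_cases h1 : Same p q <;> by_cases h2 : Opp p q
  · have e : cdist p q = min (thr p q) (min (|p.t - q.t| * p.elen)
        (|p.t - (1 - q.t)| * p.elen)) := by
      unfold cdist
      rw [if_pos (show p.src = q.src ∧ p.tgt = q.tgt from h1),
        if_pos (show p.src = q.tgt ∧ p.tgt = q.src from h2)]
    rw [e]
    rcases min_choice (thr p q) (min (|p.t - q.t| * p.elen) (|p.t - (1 - q.t)| * p.elen))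
      with h | h <;> rw [h]
    · exact Or.inl rfl
    · rcases min_choice (|p.t - q.t| * p.elen) (|p.t - (1 - q.t)| * p.elen) with h | h <;> rw [h]
      · exact Or.inr (Or.inl ⟨h1, rfl⟩)
      · exact Or.inr (Or.inr ⟨h2, rfl⟩)
  · have e : cdist p q = min (thr p q) (min (|p.t - q.t| * p.elen) (thr p q)) := by
      unfold cdist
      rw [if_pos (show p.src = q.src ∧ p.tgt = q.tgt from h1),
        if_neg (show ¬(p.src = q.tgt ∧ p.tgt = q.src) from h2)]
    rw [e]
    rcases min_choice (thr p q) (min (|p.t - q.t| * p.elen) (thr p q)) with h | h <;> rw [h]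
    · exact Or.inl rfl
    · rcases min_choice (|p.t - q.t| * p.elen) (thr p q) with h | h <;> rw [h]
      · exact Or.inr (Or.inl ⟨h1, rfl⟩)
      · exact Or.inl rfl
  · have e : cdist p q = min (thr p q) (min (thr p q) (|p.t - (1 - q.t)| * p.elen)) := by
      unfold cdist
      rw [if_neg (show ¬(p.src = q.src ∧ p.tgt = q.tgt) from h1),
        if_pos (show p.src = q.tgt ∧ p.tgt = q.src from h2)]
    rw [e]
    rcases min_choice (thr p q) (min (thr p q) (|p.t - (1 - q.t)| * p.elen)) with h | h <;> rw [h]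
    · exact Or.inl rfl
    · rcases min_choice (thr p q) (|p.t - (1 - q.t)| * p.elen) with h | h <;> rw [h]
      · exact Or.inl rfl
      · exact Or.inr (Or.inr ⟨h2, rfl⟩)
  · left
    unfold cdist
    rw [if_neg (show ¬(p.src = q.src ∧ p.tgt = q.tgt) from h1),
      if_neg (show ¬(p.src = q.tgt ∧ p.tgt = q.src) from h2)]
    simp

theorem cdist_self (p : CayleyPt S) : cdist p p = 0 := by
  apply le_antisymm
  · have := cdist_le_same (p := p) (q := p) ⟨rfl, rfl⟩
    simpa using this
  · rcases cdist_cases p p with h | ⟨-, h⟩ | ⟨-, h⟩ <;> rw [h]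
    · exact thr_nonneg p p
    · exact mul_nonneg (abs_nonneg _) p.elen_nonneg
    · exact mul_nonneg (abs_nonneg _) p.elen_nonneg

theorem cdist_comm_le (p q : CayleyPt S) : cdist p q ≤ cdist q p := by
  rcases cdist_cases q p with h | ⟨h1, h⟩ | ⟨h1, h⟩ <;> rw [h]
  · rw [thr_comm q p]; exact cdist_le_thr p q
  · have := cdist_le_same h1.symm
    rwa [abs_sub_comm, ← h1.elen] at this
  · have := cdist_le_opp h1.symm
    rw [← h1.elen, abs_sub_comm] at this
    rwa [show q.t - (1 - p.t) = - (1 - q.t - p.t) by ring, abs_neg]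

theorem cdist_triangle (p q r : CayleyPt S) : cdist p r ≤ cdist p q + cdist q r := by
  rcases cdist_cases p q with h | ⟨h1, h⟩ | ⟨h1, h⟩ <;> rcases cdist_cases q r with h' | ⟨h2, h'⟩ | ⟨h2, h'⟩
    <;> rw [h, h']
  · exact (cdist_le_thr p r).trans (thr_triangle p q r)
  · have h3 := thr_same h2.symm p
    rw [thr_comm r p, thr_comm q p, abs_sub_comm, ← h2.elen] at h3
    have := cdist_le_thr p r
    linarith
  · have h3 := thr_opp h2.symm p
    rw [thr_comm r p, thr_comm q p, ← h2.elen,
      show r.t - (1 - q.t) = q.t - (1 - r.t) by ring] at h3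
    have := cdist_le_thr p r
    linarith
  · have h3 := thr_same h1 r
    have := cdist_le_thr p r
    linarith
  · have h3 := cdist_le_same (p := p) (q := r) ⟨h1.1.trans h2.1, h1.2.trans h2.2⟩
    have h4 := mul_le_mul_of_nonneg_right (abs_sub_le p.t q.t r.t) p.elen_nonneg
    rw [← h1.elen]
    linarith
  · have h3 := cdist_le_opp (p := p) (q := r) ⟨h1.1.trans h2.1, h1.2.trans h2.2⟩
    have h4 := mul_le_mul_of_nonneg_right (abs_sub_le p.t q.t (1 - r.t)) p.elen_nonneg
    rw [← h1.elen]
    linarith
  · have h3 := thr_opp h1 r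
    have := cdist_le_thr p r
    linarith
  · have h3 := cdist_le_opp (p := p) (q := r) ⟨h1.1.trans h2.2, h1.2.trans h2.1⟩
    have h4 := mul_le_mul_of_nonneg_right (abs_sub_le p.t (1 - q.t) (1 - r.t)) p.elen_nonneg
    rw [show (1 - q.t) - (1 - r.t) = - (q.t - r.t) by ring, abs_neg] at h4
    rw [← h1.elen]
    linarith
  · have h3 := cdist_le_same (p := p) (q := r) ⟨h1.1.trans h2.2, h1.2.trans h2.1⟩
    have h4 := mul_le_mul_of_nonneg_right (abs_sub_le p.t (1 - q.t) r.t) p.elen_nonneg
    rw [show (1 - q.t) - r.t = - (q.t - (1 - r.t)) by ring, abs_neg] at h4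
    rw [← h1.elen]
    linarith

noncomputable instance : PseudoMetricSpace (CayleyPt S) where
  dist := cdist
  dist_self := cdist_self
  dist_comm p q := le_antisymm (cdist_comm_le p q) (cdist_comm_le q p)
  dist_triangle := cdist_triangle

theorem dist_def (p q : CayleyPt S) : dist p q = cdist p q := rfl

/-- the point given by a vertex -/
def vtx (S : GenSet G) (g : G) : CayleyPt S := ⟨g, g, Or.inl rfl, 0, le_rfl, zero_le_one⟩

end CayleyPt

/-- The Cayley graph of `G` with respect to `S` as a metric space: every edge is a segment of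
length `1`, with the path metric. -/
noncomputable def CayleyGraph (S : GenSet G) : Type := SeparationQuotient (CayleyPt S)

noncomputable instance (S : GenSet G) : MetricSpace (CayleyGraph S) :=
  inferInstanceAs (MetricSpace (SeparationQuotient (CayleyPt S)))

/-- The vertex of the Cayley graph given by a group element. -/
noncomputable def vertex (S : GenSet G) (g : G) : CayleyGraph S := SeparationQuotient.mk (CayleyPt.vtx S g)

end Cayley

section Coarse

variable {X : Type} [MetricSpace X]

/-- `γ` is a `(lam, eps)`-quasi-geodesic on the set `I` of parameters. -/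
def IsQuasiGeodesic (lam eps : ℝ) (I : Set ℝ) (γ : ℝ → X) : Prop :=
  ∀ s ∈ I, ∀ t ∈ I, |s - t| / lam - eps ≤ dist (γ s) (γ t) ∧ dist (γ s) (γ t) ≤ lam * |s - t| + eps

/-- `γ` restricted to `[a, b]` is a geodesic. -/
def IsGeodesic (a b : ℝ) (γ : ℝ → X) : Prop :=
  ∀ s ∈ Icc a b, ∀ t ∈ Icc a b, dist (γ s) (γ t) = |s - t|

/-- The subset `Y` (the image of a path) is `M`-Morse: every quasi-geodesic with endpoints on `Y`
lies in the closed neighbourhood of `Y` whose radius is given by the gauge `M`. -/
def IsMorse (M : ℝ → ℝ → NNReal) (Y : Set X) : Prop :=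
  ∀ lam eps : ℝ, 1 ≤ lam → 0 ≤ eps → ∀ (a b : ℝ) (β : ℝ → X), a ≤ b →
    IsQuasiGeodesic lam eps (Icc a b) β → β a ∈ Y → β b ∈ Y →
    ∀ t ∈ Icc a b, ∃ y ∈ Y, dist (β t) y ≤ M lam eps

/-- `γ` is an `L`-local `(M; lam, eps)`-Morse quasi-geodesic on the interval `I`. -/
def IsLocalMorse (L : ℝ) (M : ℝ → ℝ → NNReal) (lam eps : ℝ) (I : Set ℝ) (γ : ℝ → X) : Prop :=
  ∀ a b : ℝ, a ≤ b → b - a ≤ L → Icc a b ⊆ I →
    IsQuasiGeodesic lam eps (Icc a b) γ ∧ IsMorse M (γ '' Icc a b)

end Coarse

section Groups

variable {G : Type} [Group G]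

/-- `G` is Morse local-to-global (with respect to the Cayley graph of `S`). -/
def IsMorseLocalToGlobal (S : GenSet G) : Prop :=
  ∀ (M : ℝ → ℝ → NNReal) (lam eps : ℝ), 1 ≤ lam → 0 ≤ eps →
    ∃ (L : ℝ) (M' : ℝ → ℝ → NNReal) (lam' eps' : ℝ), 1 ≤ lam' ∧ 0 ≤ eps' ∧
      ∀ (I : Set ℝ) (γ : ℝ → CayleyGraph S), I.OrdConnected → IsLocalMorse L M lam eps I γ →
        IsQuasiGeodesic lam' eps' I γ ∧ IsMorse M' (γ '' I)

/-- `g` is a Morse element: it has infinite order and `n ↦ g ^ n` is an `M`-Morse quasi-geodesic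
in the Cayley graph for some gauge `M`. -/
def IsMorseElement (S : GenSet G) (g : G) : Prop :=
  (∀ n : ℕ, 0 < n → g ^ n ≠ 1) ∧
  ∃ (M : ℝ → ℝ → NNReal) (lam eps : ℝ), 1 ≤ lam ∧ 0 ≤ eps ∧
    IsQuasiGeodesic lam eps (range ((↑) : ℤ → ℝ)) (fun x => vertex S (g ^ ⌊x⌋)) ∧
    IsMorse M ((fun x : ℝ => vertex S (g ^ ⌊x⌋)) '' range ((↑) : ℤ → ℝ))

/-- `H` is finitely generated and undistorted in `G`. -/
def IsUndistorted (S : GenSet G) (H : Subgroup G) : Prop :=
  ∃ T : Finset G, Subgroup.closure (T : Set G) = H ∧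
    ∃ C : ℕ, ∀ h ∈ H, wordLen (T : Set G) h ≤ C * wordLen (S.gens : Set G) h + C

/-- `H` is a stable subgroup of `G`. -/
def IsStable (S : GenSet G) (H : Subgroup G) : Prop :=
  IsUndistorted S H ∧ ∃ M : ℝ → ℝ → NNReal, ∀ (a b : ℝ) (γ : ℝ → CayleyGraph S), a ≤ b →
    IsGeodesic a b γ → (∃ h ∈ H, γ a = vertex S h) → (∃ h ∈ H, γ b = vertex S h) →
    IsMorse M (γ '' Icc a b)

/-- `G` is virtually cyclic. -/
def IsVirtuallyCyclic (G : Type) [Group G] : Prop := ∃ g : G, (Subgroup.zpowers g).index ≠ 0

/-- The growth rate of a subset `A` of `G` with respect to `S`: the upper limit of the `n`-th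
roots of the number of elements of `A` of word length at most `n`. -/
noncomputable def growthRate (S : GenSet G) (A : Set G) : ENNReal :=
  Filter.limsup (fun n : ℕ =>
    ((Nat.card {g : G // g ∈ A ∧ wordLen (S.gens : Set G) g ≤ n} : ℕ) : ENNReal) ^ (1 / (n : ℝ)))
    Filter.atTop

end Groups

end Pool.Agent.H86.Stab
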