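import Pool.Agent.H86.Stab.Metric

/-!
Free product structure with two factors isomorphic to `F₂ × F₂`, cut vertices, chains of cut
vertices.
-/

namespace Pool.Agent.H86.Stab

open Set

/-- the free group of rank two -/
abbrev F2 : Type := FreeGroup Bool

/-- the factor `F₂ × F₂` -/
abbrev KK : Type := F2 × F2

/-- length of an element of the factor -/
def kl (k : KK) : ℕ := FreeGroup.norm k.1 + FreeGroup.norm k.2

theorem kl_eq_zero {k : KK} : kl k = 0 ↔ k = 1 := by
  unfold kl
  rw [Nat.add_eq_zero_iff, FreeGroup.norm_eq_zero, FreeGroup.norm_eq_zero]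
  constructor
  · intro h; exact Prod.ext h.1 h.2
  · intro h; rw [h]; exact ⟨rfl, rfl⟩

theorem kl_inv (k : KK) : kl k⁻¹ = kl k := by
  unfold kl
  rw [Prod.fst_inv, Prod.snd_inv, FreeGroup.norm_inv_eq, FreeGroup.norm_inv_eq]

theorem kl_pos {k : KK} (h : k ≠ 1) : 0 < kl k :=
  Nat.pos_of_ne_zero fun h' => h (kl_eq_zero.mp h')

/-- `G` is the free product of the two subgroups `ι false K` and `ι true K`, with lengths adding
up along normal forms; `idx g` is the index of the first syllable of `g`. -/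
structure FP (G : Type) [Group G] (S : GenSet G) where
  /-- the embeddings of the factors -/
  ι : Bool → KK →* G
  /-- index of the first syllable -/
  idx : G → Option Bool
  idx_none : ∀ g, idx g = none ↔ g = 1
  idx_mul : ∀ i k g, k ≠ 1 → idx g ≠ some i → idx (ι i k * g) = some i
  len_mul : ∀ i k g, idx g ≠ some i →
    wordLen (S.gens : Set G) (ι i k * g) = kl k + wordLen (S.gens : Set G) g
  decomp : ∀ i g, idx g = some i → ∃ k g', k ≠ 1 ∧ idx g' ≠ some i ∧ g = ι i k * g'

namespace FP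

variable {G : Type} [Group G] {S : GenSet G} (P : FP G S)

/-- abbreviation for word length -/
noncomputable abbrev wl (S : GenSet G) (g : G) : ℕ := wordLen (S.gens : Set G) g

theorem idx_one : P.idx 1 = none := (P.idx_none 1).mpr rfl

theorem len_ι (i : Bool) (k : KK) : wl S (P.ι i k) = kl k := by
  have := P.len_mul i k 1 (by rw [P.idx_one]; simp)
  rw [mul_one] at this
  rw [wl, this, wordLen_one, add_zero]

theorem idx_ι (i : Bool) {k : KK} (h : k ≠ 1) : P.idx (P.ι i k) = some i := by
  have := P.idx_mul i k 1 h (by rw [P.idx_one]; simp)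
  rwa [mul_one] at this

theorem ι_eq_one {i : Bool} {k : KK} (h : P.ι i k = 1) : k = 1 := by
  by_contra hk
  have := P.idx_ι i hk
  rw [h, P.idx_one] at this
  simp at this

theorem ι_injective (i : Bool) : Function.Injective (P.ι i) := by
  rw [injective_iff_map_eq_one]
  intro k hk
  exact P.ι_eq_one hk

/-- Multiplying a word starting with index different from `i` by a syllable of index `i`. -/
theorem idx_mul_inv_ne {i : Bool} {k : KK} {g : G} (hk : k ≠ 1) (hg : P.idx g ≠ some i) :
    P.idx (P.ι i k⁻¹ * g) = some i :=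
  P.idx_mul i _ g (inv_ne_one.mpr hk) hg

/-- Lengths add up when two words start with syllables from different factors. -/
theorem len_inv_mul : ∀ (n : ℕ) (x y : G), wl S x ≤ n → P.idx x ≠ P.idx y →
    wl S (x⁻¹ * y) = wl S x + wl S y := by
  intro n
  induction n with
  | zero =>
    intro x y hx _
    have : x = 1 := wordLen_eq_zero S (Nat.le_zero.mp hx)
    rw [this]
    simp [wl, wordLen_one]
  | succ n ih =>
    intro x y hx hxy
    rcases hi : P.idx x with _ | i
    · have : x = 1 := (P.idx_none x).mp hi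
      rw [this]
      simp [wl, wordLen_one]
    · obtain ⟨k, x', hk, hx', rfl⟩ := P.decomp i x hi
      have hyi : P.idx y ≠ some i := by rw [← hi]; exact hxy.symm
      have h1 := P.len_mul i k x' hx'
      have h2 := P.len_mul i k⁻¹ y hyi
      have h3 := P.idx_mul_inv_ne hk hyi
      have h4 := kl_pos hk
      have h5 : wl S x' ≤ n := by
        have : wl S (P.ι i k * x') = kl k + wl S x' := h1
        omega
      have h6 := ih x' (P.ι i k⁻¹ * y) h5 (by rw [h3]; exact hx')
      have e : (P.ι i k * x')⁻¹ * y = x'⁻¹ * (P.ι i k⁻¹ * y) := by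
        rw [map_inv]; group
      rw [e, h6]
      show wl S x' + wl S (P.ι i k⁻¹ * y) = wl S (P.ι i k * x') + wl S y
      rw [show wl S (P.ι i k * x') = kl k + wl S x' from h1,
        show wl S (P.ι i k⁻¹ * y) = kl k⁻¹ + wl S y from h2, kl_inv]
      ring

/-- `v` separates `x` from `y` -/
def Sep (x v y : G) : Prop := P.idx (v⁻¹ * x) ≠ P.idx (v⁻¹ * y)

variable {P}

theorem Sep.symm {x v y : G} (h : P.Sep x v y) : P.Sep y v x := Ne.symm h

theorem Sep.add {x v y : G} (h : P.Sep x v y) : wd S x y = wd S x v + wd S v y := by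
  have := P.len_inv_mul _ (v⁻¹ * x) (v⁻¹ * y) le_rfl h
  rw [wd_comm S x v]
  unfold wd
  have e : (v⁻¹ * x)⁻¹ * (v⁻¹ * y) = x⁻¹ * y := by group
  rw [e] at this
  exact_mod_cast this

variable (P)

theorem idx_self (v : G) : P.idx (v⁻¹ * v) = none := by rw [inv_mul_cancel, P.idx_one]

theorem idx_eq_none {v x : G} : P.idx (v⁻¹ * x) = none ↔ v = x := by
  rw [P.idx_none, inv_mul_eq_one]

theorem sep_self_left {x y : G} (h : x ≠ y) : P.Sep x x y := by
  unfold Sep
  rw [P.idx_self]
  intro h'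
  exact h (P.idx_eq_none.mp h'.symm)

theorem wd_pos {x y : G} (h : x ≠ y) : 1 ≤ wd S x y := by
  unfold wd
  have : wordLen (S.gens : Set G) (x⁻¹ * y) ≠ 0 := by
    intro h'
    exact h (inv_mul_eq_one.mp (wordLen_eq_zero S h'))
  exact_mod_cast Nat.one_le_iff_ne_zero.mpr this

theorem eq_of_wd_le_zero {x y : G} (h : wd S x y ≤ 0) : x = y := by
  by_contra hne
  have := wd_pos (S := S) hne
  linarith

section Chain

/-- A chain of points and cut vertices. -/
structure Chain (x v : ℕ → G) (N : ℕ) : Prop where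
  sep : ∀ k < N, P.Sep (x k) (v k) (x (k + 1))
  ne_left : ∀ k < N, v k ≠ x k
  ne_right : ∀ k < N, v k ≠ x (k + 1)
  back : ∀ k, k + 1 < N → P.idx ((v (k + 1))⁻¹ * x k) = P.idx ((v (k + 1))⁻¹ * x (k + 1))
  forw : ∀ k, k + 1 < N → P.idx ((v k)⁻¹ * x (k + 2)) = P.idx ((v k)⁻¹ * x (k + 1))

variable {P}

/-- `z` is on the forward side of `v k` -/
def Hp (P : FP G S) (x v : ℕ → G) (k : ℕ) (z : G) : Prop :=
  P.idx ((v k)⁻¹ * z) = P.idx ((v k)⁻¹ * x (k + 1))

/-- `z` is on the backward side of `v k` -/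
def Hm (P : FP G S) (x v : ℕ → G) (k : ℕ) (z : G) : Prop :=
  P.idx ((v k)⁻¹ * z) = P.idx ((v k)⁻¹ * x k)

theorem Chain.v_ne {x v : ℕ → G} {N : ℕ} (h : P.Chain x v N) {k : ℕ} (hk : k + 1 < N) :
    v (k + 1) ≠ v k := by
  intro he
  have h1 := h.sep k (by omega)
  have h2 := h.back k hk
  rw [he] at h2
  exact h1 h2

theorem Chain.n1 {x v : ℕ → G} {N : ℕ} (h : P.Chain x v N) {k : ℕ} (hk : k + 1 < N) :
    Hp P x v k (v (k + 1)) := by
  by_contra hc
  have s1 : P.Sep (v (k + 1)) (v k) (x (k + 1)) := hc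
  have s2 : P.Sep (v (k + 1)) (v k) (x (k + 2)) := by
    unfold Sep; rw [h.forw k hk]; exact hc
  have a1 := s1.add
  have a2 := s2.add
  have a3 := (h.sep (k + 1) hk).add
  have a4 := wd_triangle S (x (k + 1)) (v k) (x (k + 2))
  rw [wd_comm S (x (k + 1)) (v (k + 1))] at a3
  rw [wd_comm S (x (k + 1)) (v k)] at a4
  have a5 := wd_pos (S := S) (h.v_ne hk)
  rw [show k + 1 + 1 = k + 2 from rfl] at a3
  linarith

theorem Chain.n1' {x v : ℕ → G} {N : ℕ} (h : P.Chain x v N) {k : ℕ} (hk : k + 1 < N) :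
    Hm P x v (k + 1) (v k) := by
  by_contra hc
  have s1 : P.Sep (v k) (v (k + 1)) (x (k + 1)) := hc
  have s2 : P.Sep (v k) (v (k + 1)) (x k) := by
    unfold Sep; rw [h.back k hk]; exact hc
  have a1 := s1.add
  have a2 := s2.add
  have a3 := (h.sep k (by omega)).add
  have a4 := wd_triangle S (x k) (v (k + 1)) (x (k + 1))
  rw [wd_comm S (x k) (v k)] at a3
  rw [wd_comm S (x k) (v (k + 1))] at a4
  have a5 := wd_pos (S := S) (h.v_ne hk).symm
  linarith

theorem Chain.n2 {x v : ℕ → G} {N : ℕ} (h : P.Chain x v N) {k : ℕ} (hk : k + 1 < N) {z : G}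
    (hz : Hp P x v (k + 1) z) : Hp P x v k z := by
  by_contra hc
  have hv := h.n1 hk
  have s1 : P.Sep z (v k) (v (k + 1)) := by
    unfold Sep
    rw [show P.idx ((v k)⁻¹ * v (k + 1)) = _ from hv]
    exact hc
  have s2 : P.Sep z (v (k + 1)) (x k) := by
    unfold Sep
    rw [h.back k hk, show P.idx ((v (k + 1))⁻¹ * z) = _ from hz]
    exact (h.sep (k + 1) hk).symm
  have s3 : P.Sep (x k) (v k) (v (k + 1)) := by
    unfold Sep
    rw [show P.idx ((v k)⁻¹ * v (k + 1)) = _ from hv]
    exact h.sep k (by omega)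
  have a1 := s1.add
  have a2 := s2.add
  have a3 := s3.add
  have a4 := wd_triangle S z (v k) (x k)
  have a5 := wd_pos (S := S) (h.v_ne hk)
  rw [wd_comm S (v (k + 1)) (x k)] at a2
  rw [wd_comm S (v k) (x k)] at a4
  rw [wd_comm S (v (k + 1)) (v k)] at a5
  linarith

theorem Chain.n2' {x v : ℕ → G} {N : ℕ} (h : P.Chain x v N) {k : ℕ} (hk : k + 1 < N) {z : G}
    (hz : Hm P x v k z) : Hm P x v (k + 1) z := by
  by_contra hc
  have hv := h.n1' hk
  have s1 : P.Sep z (v (k + 1)) (v k) := by
    unfold Sep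
    rw [show P.idx ((v (k + 1))⁻¹ * v k) = _ from hv]
    exact hc
  have s2 : P.Sep z (v k) (x (k + 2)) := by
    unfold Sep
    rw [h.forw k hk, show P.idx ((v k)⁻¹ * z) = _ from hz]
    exact h.sep k (by omega)
  have s3 : P.Sep (x (k + 2)) (v (k + 1)) (v k) := by
    unfold Sep
    rw [show P.idx ((v (k + 1))⁻¹ * v k) = _ from hv]
    exact (h.sep (k + 1) hk).symm
  have a1 := s1.add
  have a2 := s2.add
  have a3 := s3.add
  have a4 := wd_triangle S z (v (k + 1)) (x (k + 2))
  have a5 := wd_pos (S := S) (h.v_ne hk)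
  rw [wd_comm S (x (k + 2)) (v k), wd_comm S (x (k + 2)) (v (k + 1))] at a3
  linarith

theorem Chain.hp_x {x v : ℕ → G} {N : ℕ} (h : P.Chain x v N) {k : ℕ} :
    ∀ d, k + d < N → Hp P x v k (x (k + d + 1)) := by
  have key : ∀ d k, k + d < N → Hp P x v k (x (k + d + 1)) := by
    intro d
    induction d with
    | zero => intro k _; exact rfl
    | succ d ih =>
      intro k hk
      have h1 := ih (k + 1) (by omega)
      have h2 := h.n2 (k := k) (by omega) h1
      rwa [show k + 1 + d + 1 = k + (d + 1) + 1 by ring] at h2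
  exact fun d hd => key d k hd

theorem Chain.hm_x {x v : ℕ → G} {N : ℕ} (h : P.Chain x v N) {k : ℕ} :
    ∀ d, k + d < N → Hm P x v (k + d) (x k) := by
  intro d
  induction d with
  | zero => intro _; exact rfl
  | succ d ih =>
    intro hk
    exact h.n2' (k := k + d) (by omega) (ih (by omega))

theorem Chain.sep_ends {x v : ℕ → G} {N : ℕ} (h : P.Chain x v N) {k : ℕ} (hk : k < N) :
    P.Sep (x 0) (v k) (x N) := by
  have h1 := h.hm_x (k := 0) k (by omega)
  have h2 := h.hp_x (k := k) (N - 1 - k) (by omega)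
  rw [show k + (N - 1 - k) + 1 = N by omega] at h2
  rw [zero_add] at h1
  unfold Sep
  rw [show P.idx ((v k)⁻¹ * x 0) = _ from h1, show P.idx ((v k)⁻¹ * x N) = _ from h2]
  exact h.sep k hk

theorem Chain.lower {x v : ℕ → G} {N : ℕ} (h : P.Chain x v N) :
    ∀ d k, k + d + 1 = N → (d : ℝ) + 1 ≤ wd S (v k) (x N) := by
  intro d
  induction d with
  | zero =>
    intro k hk
    have := wd_pos (S := S) (h.ne_right k (by omega))
    rw [show k + 1 = N by omega] at this
    simpa using this
  | succ d ih =>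
    intro k hk
    have h1 := ih (k + 1) (by omega)
    have h2 := h.n1' (k := k) (by omega)
    have h3 := h.hp_x (k := k + 1) d (by omega)
    rw [show k + 1 + d + 1 = N by omega] at h3
    have h4 : P.Sep (v k) (v (k + 1)) (x N) := by
      unfold Sep
      rw [show P.idx ((v (k + 1))⁻¹ * v k) = _ from h2,
        show P.idx ((v (k + 1))⁻¹ * x N) = _ from h3]
      exact h.sep (k + 1) (by omega)
    have h5 := h4.add
    have h6 := wd_pos (S := S) (h.v_ne (k := k) (by omega)).symm
    push_cast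
    linarith

theorem Chain.dist_ge {x v : ℕ → G} {N : ℕ} (h : P.Chain x v N) : (N : ℝ) ≤ wd S (x 0) (x N) := by
  rcases Nat.eq_zero_or_pos N with h0 | h0
  · rw [h0]; simpa using wd_nonneg S (x 0) (x 0)
  · have h1 := h.lower (N - 1) 0 (by omega)
    have h2 := (h.sep_ends h0).add
    have h3 := wd_nonneg S (x 0) (v 0)
    have h4 : ((N - 1 : ℕ) : ℝ) + 1 = N := by
      rw [Nat.cast_sub h0]; simp
    linarith

end Chain

end FP

end Pool.Agent.H86.Stab
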