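import Pool.Agent.H86.Stab.Upper

/-!
The two growth estimates: subgroups meeting the conjugates of the factors trivially grow at rate at
most `62/5`, the group grows at rate at least `249/20`.
-/

namespace Pool.Agent.H86.Stab

open Set

theorem sum_biUnion_le' {α β : Type*} [DecidableEq β] (s : Finset α) (f : α → Finset β)
    (φ : β → ℝ) (hφ : ∀ b, 0 ≤ φ b) : ∑ b ∈ s.biUnion f, φ b ≤ ∑ a ∈ s, ∑ b ∈ f a, φ b := by
  classical
  induction s using Finset.induction_on with
  | empty => simp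
  | insert a s ha ih =>
    rw [Finset.biUnion_insert, Finset.sum_insert ha]
    have h1 : ∑ b ∈ f a ∪ s.biUnion f, φ b + ∑ b ∈ f a ∩ s.biUnion f, φ b =
        ∑ b ∈ f a, φ b + ∑ b ∈ s.biUnion f, φ b := Finset.sum_union_inter
    have h2 : 0 ≤ ∑ b ∈ f a ∩ s.biUnion f, φ b := Finset.sum_nonneg fun b _ => hφ b
    linarith

namespace FP

variable {G : Type} [Group G] {S : GenSet G} (P : FP G S)

section Upper

open Classical in
/-- a finite set containing the ball of radius `n` -/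
noncomputable def BB (n : ℕ) : Finset G :=
  (Finset.range (n + 1) ×ˢ (Finset.univ : Finset Bool)).biUnion fun q => P.ZZ n q.1 q.2

theorem mem_BB {n : ℕ} {g : G} (hg : wl S g ≤ n) : g ∈ P.BB n := by
  classical
  unfold BB
  rw [Finset.mem_biUnion]
  obtain ⟨r, hr, h⟩ := P.mem_ZZ n n le_rfl g hg
  rcases hi : P.idx g with _ | i
  · exact ⟨(r, true), by simp; omega, h true (Or.inl hi)⟩
  · exact ⟨(r, i), by simp; omega, h i (Or.inr hi)⟩

open Classical in
/-- the part of a set in the ball of radius `n` -/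
noncomputable def ball (A : Set G) (n : ℕ) : Finset G :=
  (P.BB n).filter fun g => g ∈ A ∧ wl S g ≤ n

theorem mem_ball (A : Set G) (n : ℕ) (g : G) : g ∈ P.ball A n ↔ g ∈ A ∧ wl S g ≤ n := by
  classical
  unfold ball
  rw [Finset.mem_filter]
  exact ⟨fun h => h.2, fun h => ⟨P.mem_BB h.2, h⟩⟩

theorem card_ball (A : Set G) (n : ℕ) :
    Nat.card {g : G // g ∈ A ∧ wordLen (S.gens : Set G) g ≤ n} = (P.ball A n).card :=
  Nat.subtype_card _ (P.mem_ball A n)

theorem card_ball_mul_le {H : Subgroup G} (hH : P.Triv H) {t : ℝ} (ht : 0 ≤ t) (ht1 : t ≤ 1)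
    {n : ℕ} (hn : 1 ≤ n) :
    ((P.ball H n).card : ℝ) * t ^ n ≤ ∑ r ∈ Finset.range (n + 1),
      2 * ((7 / 2 * t + Rn t n) * (1 + 4 * t + Rn t n) + (4 * t + Rn t n)) ^ r := by
  classical
  have h1 : ((P.ball H n).card : ℝ) * t ^ n ≤
      ∑ g ∈ P.BB n, (if ((g : G) : G ⧸ H) = ((1 : G) : G ⧸ H) then t ^ wl S g else 0) := by
    have e : ((P.ball H n).card : ℝ) * t ^ n = ∑ g ∈ P.ball H n, t ^ n := by
      rw [Finset.sum_const, nsmul_eq_mul]
    rw [e]
    refine (Finset.sum_le_sum (g := fun g =>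
      (if ((g : G) : G ⧸ H) = ((1 : G) : G ⧸ H) then t ^ wl S g else 0)) ?_).trans ?_
    · intro g hg
      rw [mem_ball] at hg
      have : ((g : G) : G ⧸ H) = ((1 : G) : G ⧸ H) := by
        rw [eq_comm, QuotientGroup.eq]
        simpa using hg.1
      rw [if_pos this]
      exact pow_le_pow_of_le_one ht ht1 hg.2
    · apply Finset.sum_le_sum_of_subset_of_nonneg (Finset.filter_subset _ _)
      intro g _ _
      split_ifs
      · exact pow_nonneg ht _
      · exact le_rfl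
  refine h1.trans ?_
  have h2 : ∀ g : G, 0 ≤ (if ((g : G) : G ⧸ H) = ((1 : G) : G ⧸ H) then t ^ wl S g else 0) := by
    intro g
    split_ifs
    · exact pow_nonneg ht _
    · exact le_rfl
  refine (sum_biUnion_le' _ _ _ h2).trans ?_
  rw [Finset.sum_product]
  apply Finset.sum_le_sum
  intro r _
  have h3 : ∀ i : Bool, ∑ g ∈ P.ZZ n r i,
      (if ((g : G) : G ⧸ H) = ((1 : G) : G ⧸ H) then t ^ wl S g else 0) ≤
      ((7 / 2 * t + Rn t n) * (1 + 4 * t + Rn t n) + (4 * t + Rn t n)) ^ r := by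
    intro i
    exact (P.sum_ZZ_le H ht n r i _).trans ((P.UU_bound hH ht hn r i).apply_le _)
  have h4 := Finset.sum_le_sum (s := (Finset.univ : Finset Bool)) fun i _ => h3 i
  refine h4.trans (le_of_eq ?_)
  rw [Finset.sum_const, Finset.card_univ, Fintype.card_bool, nsmul_eq_mul]
  norm_num

theorem card_ball_le {H : Subgroup G} (hH : P.Triv H) {n : ℕ} (hn : 1 ≤ n) :
    ((P.ball H n).card : ℝ) ≤ 112 * (1000 / 81) ^ n := by
  have h1 := P.card_ball_mul_le hH (t := 81 / 1000) (by norm_num) (by norm_num) hn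
  have h2 : Rn (81 / 1000) n ≤ 10401 / 100000 :=
    (Rn_le (by norm_num) (by norm_num) n).trans (by norm_num)
  have h3 : 0 ≤ Rn (81 / 1000) n := Rn_nonneg (by norm_num) n
  set R := Rn (81 / 1000) n with hR
  set c : ℝ := (7 / 2 * (81 / 1000) + R) * (1 + 4 * (81 / 1000) + R) + (4 * (81 / 1000) + R)
    with hc
  have hc0 : 0 ≤ c := by rw [hc]; positivity
  have hc1 : c ≤ 982 / 1000 := by
    have h5 : c ≤ (7 / 2 * (81 / 1000) + 10401 / 100000) *
        (1 + 4 * (81 / 1000) + 10401 / 100000) + (4 * (81 / 1000) + 10401 / 100000) := by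
      rw [hc]
      gcongr
    exact h5.trans (by norm_num)
  have h4 : ∑ r ∈ Finset.range (n + 1), 2 * c ^ r ≤ 112 := by
    rw [← Finset.mul_sum, geom_sum_eq (by linarith)]
    rw [show (c ^ (n + 1) - 1) / (c - 1) = (1 - c ^ (n + 1)) / (1 - c) by
      rw [← neg_div_neg_eq]; ring]
    have h6 : (1 - c ^ (n + 1)) / (1 - c) ≤ 56 := by
      rw [div_le_iff₀ (by linarith)]
      have : 0 ≤ c ^ (n + 1) := pow_nonneg hc0 _
      linarith
    linarith
  have h5 : ((P.ball H n).card : ℝ) * (81 / 1000) ^ n ≤ 112 := h1.trans h4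
  have h6 : (0 : ℝ) < (81 / 1000) ^ n := by positivity
  have e : ((1000 : ℝ) / 81) ^ n = ((81 / 1000) ^ n)⁻¹ := by
    rw [← inv_pow]; norm_num
  rw [e, ← div_eq_mul_inv, le_div_iff₀ h6]
  exact h5

theorem growthRate_le_of_triv {H : Subgroup G} (hH : P.Triv H) :
    growthRate S (H : Set G) ≤ ENNReal.ofReal (62 / 5) := by
  unfold growthRate
  apply Filter.limsup_le_of_le
  · exact ⟨0, fun a _ => zero_le⟩
  have h1 : Filter.Tendsto (fun n : ℕ => ((5022 : ℝ) / 5000) ^ n) Filter.atTop Filter.atTop :=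
    tendsto_pow_atTop_atTop_of_one_lt (by norm_num)
  filter_upwards [h1.eventually_ge_atTop 112, Filter.eventually_ge_atTop 1] with n hn hn1
  rw [P.card_ball]
  have h2 := P.card_ball_le hH hn1
  have h3 : ((P.ball H n).card : ℝ) ≤ (62 / 5) ^ n := by
    refine h2.trans ?_
    calc (112 : ℝ) * (1000 / 81) ^ n ≤ (5022 / 5000) ^ n * (1000 / 81) ^ n := by gcongr
      _ = (62 / 5) ^ n := by rw [← mul_pow]; norm_num
  have h4 : (((P.ball H n).card : ℕ) : ENNReal) ≤ ENNReal.ofReal (62 / 5) ^ n := by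
    rw [← ENNReal.ofReal_pow (by norm_num), ← ENNReal.ofReal_natCast]
    exact ENNReal.ofReal_le_ofReal h3
  calc (((P.ball H n).card : ℕ) : ENNReal) ^ (1 / (n : ℝ)) ≤
      (ENNReal.ofReal (62 / 5) ^ n) ^ (1 / (n : ℝ)) := ENNReal.rpow_le_rpow h4 (by positivity)
    _ = ENNReal.ofReal (62 / 5) := by
      rw [← ENNReal.rpow_natCast, ← ENNReal.rpow_mul, mul_one_div_cancel, ENNReal.rpow_one]
      have : (0 : ℝ) < n := by exact_mod_cast hn1
      exact this.ne'

end Upper

section Lower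

theorem mul_inj {i : Bool} {k k₂ : KK} {g g₂ : G} (hg : P.idx g ≠ some i)
    (hg₂ : P.idx g₂ ≠ some i) (h : P.ι i k * g = P.ι i k₂ * g₂) : k = k₂ ∧ g = g₂ := by
  have h1 : P.ι i (k₂⁻¹ * k) * g = g₂ := by
    rw [map_mul, map_inv, mul_assoc, h, inv_mul_cancel_left]
  have h2 : k₂⁻¹ * k = 1 := by
    by_contra hne
    have := P.idx_mul i _ g hne hg
    rw [h1] at this
    exact hg₂ this
  have h3 : k = k₂ := by
    rw [inv_mul_eq_one] at h2
    exact h2.symm
  refine ⟨h3, ?_⟩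
  rw [h2, map_one, one_mul] at h1
  exact h1

theorem sum_ZZ_succ (n r : ℕ) (i : Bool) (t : ℝ) :
    ∑ g ∈ P.ZZ n (r + 1) i, t ^ wl S g =
      (∑ k ∈ EE n, t ^ kl k) * ∑ g ∈ P.ZZ n r (!i), t ^ wl S g := by
  classical
  rw [ZZ, Finset.sum_image, Finset.sum_product, Finset.sum_mul]
  · apply Finset.sum_congr rfl
    intro k _
    rw [Finset.mul_sum]
    apply Finset.sum_congr rfl
    intro g hg
    have h2 : wl S (P.ι i k * g) = kl k + wl S g := P.len_mul i k g (P.idx_ZZ_ne n r i hg)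
    rw [h2, pow_add]
  · rintro ⟨k, g⟩ hq ⟨k₂, g₂⟩ hq₂ h
    rw [Finset.mem_coe, Finset.mem_product] at hq hq₂
    obtain ⟨h1, h2⟩ := P.mul_inj (P.idx_ZZ_ne n r i hq.2) (P.idx_ZZ_ne n r i hq₂.2) h
    exact Prod.ext h1 h2

theorem sum_EE_ge : (1 : ℝ) ≤ ∑ k ∈ EE 3, (2 / 25 : ℝ) ^ kl k := by
  rw [sum_EE]
  have h1 : Rn (2 / 25) 3 = 12 * (2 / 25) ^ 2 + 36 * (2 / 25) ^ 3 := by
    unfold Rn
    rw [sum_layers_pow]
    have : Finset.Icc 2 3 = {2, 3} := by decide
    rw [this, Finset.sum_insert (by simp), Finset.sum_singleton, card_sph_succ, card_sph_succ]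
    norm_num
  have h2 : ∀ f m : F2, (2 / 25 : ℝ) ^ kl (f, m) =
      (2 / 25) ^ FreeGroup.norm f * (2 / 25) ^ FreeGroup.norm m := fun f m => pow_add _ _ _
  have h3 : ∀ m : F2, (2 / 25 : ℝ) ^ kl (1, m) = (2 / 25) ^ FreeGroup.norm m := by
    intro m
    rw [h2, FreeGroup.norm_one, pow_zero, one_mul]
  simp_rw [h3, h2]
  rw [← Finset.sum_mul_sum, sum_one_n (by norm_num), sum_zero_n (by norm_num), h1]
  norm_num

theorem one_le_sum_ZZ (r : ℕ) (i : Bool) :
    (1 : ℝ) ≤ ∑ g ∈ P.ZZ 3 r i, (2 / 25 : ℝ) ^ wl S g := by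
  induction r generalizing i with
  | zero =>
    classical
    rw [ZZ, Finset.sum_singleton]
    have : wl S (1 : G) = 0 := wordLen_one _
    rw [this, pow_zero]
  | succ r ih =>
    rw [sum_ZZ_succ]
    have := mul_le_mul sum_EE_ge (ih (!i)) zero_le_one (zero_le_one.trans sum_EE_ge)
    rwa [one_mul] at this

theorem wl_ZZ {r : ℕ} {i : Bool} {g : G} (hg : g ∈ P.ZZ 3 r i) :
    r ≤ wl S g ∧ wl S g ≤ 6 * r := by
  induction r generalizing i g with
  | zero =>
    rw [mem_ZZ_zero] at hg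
    rw [hg]
    have : wl S (1 : G) = 0 := wordLen_one _
    rw [this]
    exact ⟨le_rfl, Nat.zero_le _⟩
  | succ r ih =>
    rw [mem_ZZ_succ] at hg
    obtain ⟨k, hk, g', hg', rfl⟩ := hg
    have h2 : wl S (P.ι i k * g') = kl k + wl S g' := P.len_mul i k g' (P.idx_ZZ_ne 3 r i hg')
    have h3 := ih hg'
    rw [mem_EE] at hk
    obtain ⟨hk1, hk2, hk3⟩ := hk
    have h5 := kl_pos hk1
    have h6 : kl k = FreeGroup.norm k.1 + FreeGroup.norm k.2 := rfl
    rw [h2]
    omega

include P in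
theorem growthRate_univ_ge : ENNReal.ofReal (249 / 20) ≤ growthRate S (Set.univ : Set G) := by
  by_contra hlt
  rw [not_le] at hlt
  unfold growthRate at hlt
  have h1 := Filter.eventually_lt_of_limsup_lt hlt
  rw [Filter.eventually_atTop] at h1
  obtain ⟨n₀, hn₀⟩ := h1
  have h2 : ∀ n ≥ n₀ + 1, ((P.ball Set.univ n).card : ℝ) ≤ (249 / 20) ^ n := by
    intro n hn
    have h3 := (hn₀ n (by omega)).le
    rw [P.card_ball] at h3
    have hnpos : (0 : ℝ) < n := by
      have : 0 < n := by omega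
      exact_mod_cast this
    have h4 := ENNReal.rpow_le_rpow h3 hnpos.le
    rw [← ENNReal.rpow_mul, one_div_mul_cancel hnpos.ne', ENNReal.rpow_one,
      ENNReal.rpow_natCast, ← ENNReal.ofReal_pow (by norm_num), ← ENNReal.ofReal_natCast,
      ENNReal.ofReal_le_ofReal_iff (by positivity)] at h4
    exact h4
  have h3 : ∀ r ≥ n₀ + 1, (1 : ℝ) ≤ 250 * (249 / 250) ^ r := by
    intro r hr
    have h4 := P.one_le_sum_ZZ r true
    refine h4.trans ?_
    have h5 : ∑ g ∈ P.ZZ 3 r true, (2 / 25 : ℝ) ^ wl S g ≤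
        ∑ j ∈ Finset.Icc r (6 * r), ∑ g ∈ P.ball Set.univ j, (2 / 25 : ℝ) ^ j := by
      classical
      rw [← Finset.sum_fiberwise_of_maps_to (s := P.ZZ 3 r true) (t := Finset.Icc r (6 * r))
        (g := fun g => wl S g) (fun g hg => Finset.mem_Icc.mpr (P.wl_ZZ hg))]
      apply Finset.sum_le_sum
      intro j _
      have h6 : ∀ g ∈ (P.ZZ 3 r true).filter (fun g => wl S g = j),
          (2 / 25 : ℝ) ^ wl S g = (2 / 25) ^ j := by
        intro g hg
        rw [(Finset.mem_filter.mp hg).2]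
      rw [Finset.sum_congr rfl h6]
      apply Finset.sum_le_sum_of_subset_of_nonneg
      · intro g hg
        rw [mem_ball]
        exact ⟨Set.mem_univ _, (Finset.mem_filter.mp hg).2.le⟩
      · intro g _ _
        positivity
    refine h5.trans ?_
    have h7 : ∑ j ∈ Finset.Icc r (6 * r), ∑ g ∈ P.ball Set.univ j, (2 / 25 : ℝ) ^ j ≤
        ∑ j ∈ Finset.Icc r (6 * r), (249 / 250 : ℝ) ^ j := by
      apply Finset.sum_le_sum
      intro j hj
      rw [Finset.mem_Icc] at hj
      rw [Finset.sum_const, nsmul_eq_mul]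
      have := h2 j (by omega)
      calc ((P.ball Set.univ j).card : ℝ) * (2 / 25) ^ j ≤ (249 / 20) ^ j * (2 / 25) ^ j := by
            gcongr
        _ = (249 / 250) ^ j := by rw [← mul_pow]; norm_num
    refine h7.trans ?_
    have h8 : ∑ j ∈ Finset.Icc r (6 * r), (249 / 250 : ℝ) ^ j ≤
        ∑ j ∈ Finset.range (5 * r + 1), (249 / 250 : ℝ) ^ (r + j) := by
      have e : ∑ j ∈ Finset.range (5 * r + 1), (249 / 250 : ℝ) ^ (r + j) =
          ∑ j ∈ (Finset.range (5 * r + 1)).map (addLeftEmbedding r), (249 / 250 : ℝ) ^ j := by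
        rw [Finset.sum_map]
        rfl
      rw [e]
      apply Finset.sum_le_sum_of_subset_of_nonneg
      · intro j hj
        rw [Finset.mem_Icc] at hj
        rw [Finset.mem_map]
        exact ⟨j - r, Finset.mem_range.mpr (by omega), by
          simp only [addLeftEmbedding_apply]; omega⟩
      · intro j _ _
        positivity
    refine h8.trans ?_
    have e : ∀ j ∈ Finset.range (5 * r + 1), (249 / 250 : ℝ) ^ (r + j) =
        (249 / 250) ^ r * (249 / 250) ^ j := fun j _ => pow_add _ _ _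
    rw [Finset.sum_congr rfl e, ← Finset.mul_sum, geom_sum_eq (by norm_num)]
    have h9 : (0 : ℝ) ≤ (249 / 250) ^ (5 * r + 1) := by positivity
    have h10 : (0 : ℝ) < (249 / 250) ^ r := by positivity
    have h11 : ((249 / 250 : ℝ) ^ (5 * r + 1) - 1) / (249 / 250 - 1) ≤ 250 := by
      rw [div_le_iff_of_neg (by norm_num)]
      linarith
    nlinarith
  have h4 : Filter.Tendsto (fun r : ℕ => (250 : ℝ) * (249 / 250) ^ r) Filter.atTop
      (nhds (250 * 0)) :=
    (tendsto_pow_atTop_nhds_zero_of_lt_one (by norm_num) (by norm_num)).const_mul 250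
  rw [mul_zero] at h4
  have h5 := h4.eventually_lt_const (show (0 : ℝ) < 1 by norm_num)
  obtain ⟨r, hr1, hr2⟩ := (h5.and (Filter.eventually_ge_atTop (n₀ + 1))).exists
  exact absurd (h3 r hr2) (not_le.mpr hr1)

end Lower

end FP

end Pool.Agent.H86.Stab
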