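import Pool.Agent.H86.Stab.Count

/-!
`ℓ²` bounds on functions on a set with a free action of the free group of rank two.
-/

namespace Pool.Agent.H86.Stab

open Set

section Basic

variable {X : Type}

/-- `u` is non-negative and its `ℓ²`-norm is at most `C` -/
def LB (u : X → ℝ) (C : ℝ) : Prop := (∀ x, 0 ≤ u x) ∧ 0 ≤ C ∧ ∀ s : Finset X, ∑ x ∈ s, u x ^ 2 ≤ C ^ 2

theorem LB.apply_le {u : X → ℝ} {C : ℝ} (h : LB u C) (x : X) : u x ≤ C := by
  have := h.2.2 {x}
  rw [Finset.sum_singleton] at this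
  exact (pow_le_pow_iff_left₀ (h.1 x) h.2.1 (by norm_num)).mp this

theorem LB.add {u v : X → ℝ} {C D : ℝ} (hu : LB u C) (hv : LB v D) :
    LB (fun x => u x + v x) (C + D) := by
  refine ⟨fun x => add_nonneg (hu.1 x) (hv.1 x), add_nonneg hu.2.1 hv.2.1, fun s => ?_⟩
  have h1 := hu.2.2 s
  have h2 := hv.2.2 s
  have h3 := Finset.sum_mul_sq_le_sq_mul_sq s u v
  have h4 : ∑ x ∈ s, u x * v x ≤ C * D := by
    have h5 : (∑ x ∈ s, u x * v x) ^ 2 ≤ (C * D) ^ 2 := by
      rw [mul_pow]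
      refine h3.trans (mul_le_mul h1 h2 ?_ (sq_nonneg _))
      exact Finset.sum_nonneg fun x _ => sq_nonneg _
    exact (pow_le_pow_iff_left₀ (Finset.sum_nonneg fun x _ => mul_nonneg (hu.1 x) (hv.1 x))
      (mul_nonneg hu.2.1 hv.2.1) (by norm_num)).mp h5
  have e : ∑ x ∈ s, (u x + v x) ^ 2 =
      ∑ x ∈ s, u x ^ 2 + 2 * ∑ x ∈ s, u x * v x + ∑ x ∈ s, v x ^ 2 := by
    rw [Finset.mul_sum, ← Finset.sum_add_distrib, ← Finset.sum_add_distrib]
    exact Finset.sum_congr rfl fun x _ => by ring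
  rw [e]
  nlinarith

theorem LB.smul {u : X → ℝ} {C a : ℝ} (ha : 0 ≤ a) (hu : LB u C) :
    LB (fun x => a * u x) (a * C) := by
  refine ⟨fun x => mul_nonneg ha (hu.1 x), mul_nonneg ha hu.2.1, fun s => ?_⟩
  have e : ∑ x ∈ s, (a * u x) ^ 2 = a ^ 2 * ∑ x ∈ s, u x ^ 2 := by
    rw [Finset.mul_sum]
    exact Finset.sum_congr rfl fun x _ => by ring
  rw [e, mul_pow]
  exact mul_le_mul_of_nonneg_left (hu.2.2 s) (sq_nonneg _)

theorem LB.zero : LB (fun _ : X => (0 : ℝ)) 0 :=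
  ⟨fun _ => le_rfl, le_rfl, fun s => by simp⟩

theorem LB.sum {ι : Type*} (s : Finset ι) {u : ι → X → ℝ} {C : ι → ℝ}
    (h : ∀ i ∈ s, LB (u i) (C i)) : LB (fun x => ∑ i ∈ s, u i x) (∑ i ∈ s, C i) := by
  classical
  induction s using Finset.induction_on with
  | empty => simpa using LB.zero
  | insert a s ha ih =>
    have h1 := h a (Finset.mem_insert_self a s)
    have h2 := ih fun i hi => h i (Finset.mem_insert_of_mem hi)
    have h3 := h1.add h2
    simpa only [Finset.sum_insert ha] using h3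

theorem LB.mono {u : X → ℝ} {C D : ℝ} (hu : LB u C) (h : C ≤ D) : LB u D :=
  ⟨hu.1, hu.2.1.trans h, fun s => (hu.2.2 s).trans (pow_le_pow_left₀ hu.2.1 h 2)⟩

theorem LB.comp {u : X → ℝ} {C : ℝ} (hu : LB u C) {φ : X → X} (hφ : Function.Injective φ) :
    LB (fun x => u (φ x)) C := by
  classical
  refine ⟨fun x => hu.1 _, hu.2.1, fun s => ?_⟩
  have := hu.2.2 (s.image φ)
  rwa [Finset.sum_image fun x _ y _ h => hφ h] at this

open Classical in
theorem LB.delta (o : X) : LB (fun x => if x = o then (1 : ℝ) else 0) 1 := by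
  refine ⟨fun x => by dsimp only; split_ifs <;> norm_num, by norm_num, fun s => ?_⟩
  have e : ∀ x ∈ s, (if x = o then (1 : ℝ) else 0) ^ 2 = if x = o then (1 : ℝ) else 0 := by
    intro x _; split_ifs <;> norm_num
  rw [Finset.sum_congr rfl e, Finset.sum_ite_eq' s]
  split_ifs <;> norm_num

end Basic

section Schur

variable {X : Type} [MulAction F2 X]

/-- Weights on the orbits of a free action. -/
theorem exists_weight (hfree : ∀ (f : F2) (x : X), f • x = x → f = 1) :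
    ∃ W : X → ℝ, (∀ x, 0 < W x) ∧ ∀ x, ∑ p : Bool × Bool, W (sg p • x) ≤ 7 / 2 * W x := by
  classical
  let r : X → X := fun x => (Quotient.out (Quotient.mk (MulAction.orbitRel F2 X) x))
  have hr : ∀ x, ∃ f : F2, f • r x = x := by
    intro x
    have h1 : (MulAction.orbitRel F2 X) (r x) x := Quotient.mk_out (s := MulAction.orbitRel F2 X) x
    have h2 : x ∈ MulAction.orbit F2 (r x) := by
      have := (MulAction.orbitRel F2 X).symm h1
      exact MulAction.orbitRel_apply.mp this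
    exact h2
  choose c hc using hr
  have hrr : ∀ (f : F2) (x : X), r (f • x) = r x := by
    intro f x
    show Quotient.out (Quotient.mk (MulAction.orbitRel F2 X) (f • x)) =
      Quotient.out (Quotient.mk (MulAction.orbitRel F2 X) x)
    congr 1
    apply Quotient.sound
    exact MulAction.orbitRel_apply.mpr ⟨f, rfl⟩
  have hcc : ∀ (f : F2) (x : X), c (f • x) = f * c x := by
    intro f x
    have h1 := hc (f • x)
    rw [hrr] at h1
    have h2 : (c (f • x))⁻¹ • (f • (c x • r x)) = r x := by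
      rw [hc x, inv_smul_eq_iff]
      exact h1.symm
    rw [smul_smul, smul_smul] at h2
    have h3 := hfree _ _ h2
    rw [mul_assoc, inv_mul_eq_one] at h3
    exact h3
  refine ⟨fun x => (1 / 2 : ℝ) ^ FreeGroup.norm (c x), fun x => by positivity, fun x => ?_⟩
  have := weight_le (c x)
  refine le_trans (le_of_eq ?_) this
  apply Finset.sum_congr rfl
  intro p _
  show (1 / 2 : ℝ) ^ FreeGroup.norm (c (sg p • x)) = _
  rw [hcc]

/-- **Schur test**: the adjacency operator of a free action has `ℓ²`-norm at most `7 / 2`. -/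
theorem LB.adj (hfree : ∀ (f : F2) (x : X), f • x = x → f = 1) {u : X → ℝ} {C : ℝ}
    (hu : LB u C) : LB (fun x => ∑ p : Bool × Bool, u (sg p • x)) (7 / 2 * C) := by
  classical
  obtain ⟨W, hW0, hW⟩ := exists_weight hfree
  refine ⟨fun x => Finset.sum_nonneg fun p _ => hu.1 _, mul_nonneg (by norm_num) hu.2.1,
    fun s => ?_⟩
  -- Cauchy-Schwarz
  have h1 : ∀ x, (∑ p : Bool × Bool, u (sg p • x)) ^ 2 ≤
      7 / 2 * ∑ p : Bool × Bool, W x * (u (sg p • x) ^ 2 / W (sg p • x)) := by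
    intro x
    have h2 := Finset.sq_sum_div_le_sum_sq_div Finset.univ (fun p : Bool × Bool => u (sg p • x))
      (g := fun p => W (sg p • x)) (fun p _ => hW0 _)
    have h3 : 0 < ∑ p : Bool × Bool, W (sg p • x) :=
      Finset.sum_pos (fun p _ => hW0 _) ⟨(true, true), Finset.mem_univ _⟩
    rw [div_le_iff₀ h3] at h2
    have h4 : 0 ≤ ∑ p : Bool × Bool, u (sg p • x) ^ 2 / W (sg p • x) :=
      Finset.sum_nonneg fun p _ => div_nonneg (sq_nonneg _) (hW0 _).le
    have h5 := mul_le_mul_of_nonneg_left (hW x) h4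
    rw [← Finset.mul_sum]
    calc (∑ p : Bool × Bool, u (sg p • x)) ^ 2 ≤ _ := h2
      _ ≤ _ := h5
      _ = _ := by ring
  -- common finite set
  set T : Finset X := Finset.univ.biUnion fun p : Bool × Bool => s.image fun x => sg p • x with hT
  have h6 : ∀ p : Bool × Bool, ∑ x ∈ s, W x * (u (sg p • x) ^ 2 / W (sg p • x)) ≤
      ∑ y ∈ T, W ((sg p)⁻¹ • y) * (u y ^ 2 / W y) := by
    intro p
    have e : ∑ x ∈ s, W x * (u (sg p • x) ^ 2 / W (sg p • x)) =
        ∑ y ∈ s.image (fun x => sg p • x), W ((sg p)⁻¹ • y) * (u y ^ 2 / W y) := by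
      rw [Finset.sum_image fun x _ y _ h => MulAction.injective (sg p) h]
      exact Finset.sum_congr rfl fun x _ => by rw [inv_smul_smul]
    rw [e]
    apply Finset.sum_le_sum_of_subset_of_nonneg
    · intro y hy
      exact Finset.mem_biUnion.mpr ⟨p, Finset.mem_univ _, hy⟩
    · intro y _ _
      exact mul_nonneg (hW0 _).le (div_nonneg (sq_nonneg _) (hW0 _).le)
  have h7 : ∀ y, ∑ p : Bool × Bool, W ((sg p)⁻¹ • y) * (u y ^ 2 / W y) ≤ 7 / 2 * u y ^ 2 := by
    intro y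
    rw [← Finset.sum_mul, sum_sg_inv (fun f : F2 => W (f • y))]
    have h8 : 0 ≤ u y ^ 2 / W y := div_nonneg (sq_nonneg _) (hW0 _).le
    refine (mul_le_mul_of_nonneg_right (hW y) h8).trans (le_of_eq ?_)
    have := (hW0 y).ne'
    field_simp
  calc ∑ x ∈ s, (∑ p : Bool × Bool, u (sg p • x)) ^ 2
      ≤ ∑ x ∈ s, 7 / 2 * ∑ p : Bool × Bool, W x * (u (sg p • x) ^ 2 / W (sg p • x)) :=
        Finset.sum_le_sum fun x _ => h1 x
    _ = 7 / 2 * ∑ p : Bool × Bool, ∑ x ∈ s, W x * (u (sg p • x) ^ 2 / W (sg p • x)) := by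
        rw [← Finset.mul_sum, Finset.sum_comm]
    _ ≤ 7 / 2 * ∑ p : Bool × Bool, ∑ y ∈ T, W ((sg p)⁻¹ • y) * (u y ^ 2 / W y) := by
        apply mul_le_mul_of_nonneg_left _ (by norm_num)
        exact Finset.sum_le_sum fun p _ => h6 p
    _ = 7 / 2 * ∑ y ∈ T, ∑ p : Bool × Bool, W ((sg p)⁻¹ • y) * (u y ^ 2 / W y) := by
        rw [Finset.sum_comm]
    _ ≤ 7 / 2 * ∑ y ∈ T, 7 / 2 * u y ^ 2 := by
        apply mul_le_mul_of_nonneg_left _ (by norm_num)
        exact Finset.sum_le_sum fun y _ => h7 y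
    _ = (7 / 2) ^ 2 * ∑ y ∈ T, u y ^ 2 := by rw [← Finset.mul_sum]; ring
    _ ≤ (7 / 2) ^ 2 * C ^ 2 := mul_le_mul_of_nonneg_left (hu.2.2 T) (by norm_num)
    _ = (7 / 2 * C) ^ 2 := by ring

end Schur

end Pool.Agent.H86.Stab
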