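import Pool.Agent.H86.Stab.Coarse

/-!
The free product is Morse local-to-global.
-/

namespace Pool.Agent.H86.Stab

open Set

namespace FP

variable {G : Type} [Group G] {S : GenSet G} (P : FP G S)

/-- Hypotheses on a path on `[a, b]` all of whose subpaths are Morse quasi-geodesics. -/
def Good (M : ℝ → ℝ → NNReal) (lam eps a b : ℝ) (γ : ℝ → CayleyGraph S) : Prop :=
  ∀ c d : ℝ, a ≤ c → c ≤ d → d ≤ b →
    IsQuasiGeodesic lam eps (Icc c d) γ ∧ IsMorse M (γ '' Icc c d)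

/-- bound on the syllables -/
noncomputable def Dc (M : ℝ → ℝ → NNReal) (lam eps : ℝ) : ℝ :=
  (M (4 * ((⌈lam ^ 2⌉₊ + 1 : ℕ) : ℝ) + 2) (2 * (eps + 4) + 1) : ℝ) +
    lam ^ 2 * (2 * (eps + 4) + eps) + eps + (eps + 4)

theorem Dc_nonneg {M : ℝ → ℝ → NNReal} {lam eps : ℝ} (heps : 0 ≤ eps) : 0 ≤ Dc M lam eps := by
  unfold Dc
  have := (M (4 * ((⌈lam ^ 2⌉₊ + 1 : ℕ) : ℝ) + 2) (2 * (eps + 4) + 1)).coe_nonneg
  positivity

theorem Good.upper {M : ℝ → ℝ → NNReal} {lam eps a b : ℝ} {γ : ℝ → CayleyGraph S}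
    (h : Good M lam eps a b γ) (hab : a ≤ b) : ∀ s ∈ Icc a b, ∀ t ∈ Icc a b,
    wd S (rd (γ s)) (rd (γ t)) ≤ lam * |s - t| + (eps + 2) := by
  intro s hs t ht
  have h1 := ((h a b le_rfl hab le_rfl).1 s hs t ht).2
  have h2 := wd_rd_le (γ s) (γ t)
  linarith

theorem Good.lower {M : ℝ → ℝ → NNReal} {lam eps a b : ℝ} {γ : ℝ → CayleyGraph S}
    (h : Good M lam eps a b γ) (hab : a ≤ b) : ∀ s ∈ Icc a b, ∀ t ∈ Icc a b,
    |s - t| / lam - (eps + 2) ≤ wd S (rd (γ s)) (rd (γ t)) := by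
  intro s hs t ht
  have h1 := ((h a b le_rfl hab le_rfl).1 s hs t ht).1
  have h2 := dist_le_wd_rd (γ s) (γ t)
  linarith

theorem Good.mono {M : ℝ → ℝ → NNReal} {lam eps a b a' b' : ℝ} {γ : ℝ → CayleyGraph S}
    (h : Good M lam eps a b γ) (ha : a ≤ a') (hb : b' ≤ b) : Good M lam eps a' b' γ :=
  fun c d h1 h2 h3 => h c d (ha.trans h1) h2 (h3.trans hb)

/-- Syllables between the endpoints of a Morse quasi-geodesic are bounded. -/
theorem thin {M : ℝ → ℝ → NNReal} {lam eps a b : ℝ} {γ : ℝ → CayleyGraph S}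
    (hlam : 1 ≤ lam) (heps : 0 ≤ eps) (hab : a ≤ b)
    (h : Good M lam eps a b γ) (p : G) (i : Bool) (κ : KK) (g' : G)
    (hp : P.idx (p⁻¹ * rd (γ a)) ≠ some i) (hκ : κ ≠ 1) (hg' : P.idx g' ≠ some i)
    (he : p⁻¹ * rd (γ b) = P.ι i κ * g') : (kl κ : ℝ) ≤ Dc M lam eps := by
  have sp : P.Sep (rd (γ a)) p (rd (γ b)) := by
    unfold Sep
    rw [he, P.idx_mul i κ g' hκ hg']
    exact hp
  have sq : P.Sep (rd (γ a)) (p * P.ι i κ) (rd (γ b)) := by
    unfold Sep
    have e1 : (p * P.ι i κ)⁻¹ * rd (γ a) = P.ι i κ⁻¹ * (p⁻¹ * rd (γ a)) := by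
      rw [map_inv]; group
    have e2 : (p * P.ι i κ)⁻¹ * rd (γ b) = g' := by
      rw [mul_inv_rev, mul_assoc, he]; group
    rw [e1, e2, P.idx_mul_inv_ne hκ hp]
    exact hg'.symm
  obtain ⟨u, hu, hu'⟩ := P.cross (α := fun t => rd (γ t)) hab hlam (h.upper hab) sp
  obtain ⟨w, hw, hw'⟩ := P.cross (α := fun t => rd (γ t)) hab hlam (h.upper hab) sq
  have d1 : dist (γ u) (vertex S p) ≤ eps + 4 := by
    have := dist_vertex_le_rd (γ u) p
    have h2 : wd S (rd (γ u)) p ≤ eps + 2 + 1 := hu'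
    linarith
  have d2 : dist (γ w) (vertex S (p * P.ι i κ)) ≤ eps + 4 := by
    have := dist_vertex_le_rd (γ w) (p * P.ι i κ)
    have h2 : wd S (rd (γ w)) (p * P.ι i κ) ≤ eps + 2 + 1 := hw'
    linarith
  have hsub := h (min u w) (max u w) (le_min hu.1 hw.1) (min_le_max) (max_le hu.2 hw.2)
  have hu2 : u ∈ Icc (min u w) (max u w) := ⟨min_le_left _ _, le_max_left _ _⟩
  have hw2 : w ∈ Icc (min u w) (max u w) := ⟨min_le_right _ _, le_max_right _ _⟩
  obtain ⟨κ', hκ', y, hy, hyd⟩ := P.detour (⌈lam ^ 2⌉₊ + 1) (by omega) (c := eps + 4)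
    (by linarith) hsub.2 p i κ hκ (mem_image_of_mem γ hu2) (mem_image_of_mem γ hw2) d1 d2
  obtain ⟨t, ht, rfl⟩ := hy
  have b1 := (hsub.1 t ht u hu2).2
  have b2 := (hsub.1 u hu2 w hw2).1
  have b3 : |t - u| ≤ |u - w| := by
    rcases le_total u w with huw | huw
    · rw [min_eq_left huw, max_eq_right huw] at ht
      rw [abs_of_nonneg (by linarith [ht.1]), abs_sub_comm, abs_of_nonneg (by linarith)]
      linarith [ht.2]
    · rw [min_eq_right huw, max_eq_left huw] at ht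
      rw [abs_sub_comm, abs_of_nonneg (by linarith [ht.2]), abs_of_nonneg (by linarith)]
      linarith [ht.1]
  have hwq : wd S p (p * P.ι i κ) = kl κ := by
    unfold wd
    rw [inv_mul_cancel_left]
    have := P.len_ι i κ
    rw [show wordLen (S.gens : Set G) (P.ι i κ) = kl κ from this]
  have hwz : wd S p (p * P.ι i κ') = ((⌈lam ^ 2⌉₊ + 1 : ℕ) : ℝ) * kl κ := by
    unfold wd
    rw [inv_mul_cancel_left]
    have := P.len_ι i κ'
    rw [show wordLen (S.gens : Set G) (P.ι i κ') = kl κ' from this, hκ']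
    push_cast; ring
  have b4 : dist (γ u) (γ w) ≤ kl κ + 2 * (eps + 4) := by
    have := dist_triangle4 (γ u) (vertex S p) (vertex S (p * P.ι i κ)) (γ w)
    rw [dist_vertex, hwq, dist_comm (vertex S (p * P.ι i κ)) (γ w)] at this
    linarith
  have hlam0 : 0 < lam := by linarith
  have b5 : |u - w| ≤ lam * (kl κ + 2 * (eps + 4) + eps) := by
    have : |u - w| / lam ≤ kl κ + 2 * (eps + 4) + eps := by linarith
    rwa [div_le_iff₀ hlam0, mul_comm] at this
  have b6 : dist (γ t) (γ u) ≤ lam ^ 2 * (kl κ + 2 * (eps + 4) + eps) + eps := by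
    have h1 : lam * |t - u| ≤ lam * (lam * (kl κ + 2 * (eps + 4) + eps)) :=
      mul_le_mul_of_nonneg_left (b3.trans b5) hlam0.le
    have h2 : lam * (lam * (kl κ + 2 * (eps + 4) + eps)) =
      lam ^ 2 * (kl κ + 2 * (eps + 4) + eps) := by ring
    linarith
  have b7 : ((⌈lam ^ 2⌉₊ + 1 : ℕ) : ℝ) * kl κ ≤
      (eps + 4) + dist (γ u) (γ t) + (M (4 * ((⌈lam ^ 2⌉₊ + 1 : ℕ) : ℝ) + 2) (2 * (eps + 4) + 1) : ℝ)
      := by
    rw [← hwz, ← dist_vertex]
    have := dist_triangle4 (vertex S p) (γ u) (γ t) (vertex S (p * P.ι i κ'))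
    rw [dist_comm (vertex S p) (γ u), dist_comm (γ t) (vertex S (p * P.ι i κ'))] at this
    linarith
  have b8 : lam ^ 2 ≤ (⌈lam ^ 2⌉₊ : ℝ) := Nat.le_ceil _
  have b9 : (lam ^ 2 + 1) * (kl κ : ℝ) ≤ ((⌈lam ^ 2⌉₊ + 1 : ℕ) : ℝ) * kl κ := by
    apply mul_le_mul_of_nonneg_right _ (Nat.cast_nonneg _)
    push_cast
    linarith
  rw [dist_comm (γ u) (γ t)] at b7
  unfold Dc
  linarith

/-- There are cut vertices at any prescribed distance, up to the bound on syllables. -/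
theorem exists_cut {D R : ℝ} (hR : 0 ≤ R) {x y : G}
    (hthin : ∀ (p : G) (i : Bool) (κ : KK) (g' : G), P.idx (p⁻¹ * x) ≠ some i → κ ≠ 1 →
      P.idx g' ≠ some i → p⁻¹ * y = P.ι i κ * g' → (kl κ : ℝ) ≤ D)
    (hxy : R < wd S x y) : ∃ v, P.Sep x v y ∧ R < wd S x v ∧ wd S x v ≤ R + D := by
  have key : ∀ n : ℕ, ∀ p : G, wl S (p⁻¹ * y) ≤ n → P.Sep x p y → wd S x p ≤ R →
      ∃ v, P.Sep x v y ∧ R < wd S x v ∧ wd S x v ≤ R + D := by
    intro n
    induction n with
    | zero =>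
      intro p hp _ hp2
      exfalso
      have h1 : p = y := inv_mul_eq_one.mp (wordLen_eq_zero S (Nat.le_zero.mp hp))
      rw [h1] at hp2
      linarith
    | succ n ih =>
      intro p hp hs hp2
      rcases hi : P.idx (p⁻¹ * y) with _ | i
      · exfalso
        have h1 : p = y := P.idx_eq_none.mp hi
        rw [h1] at hp2
        linarith
      · obtain ⟨k, g', hk, hg', e⟩ := P.decomp i _ hi
        have hpx : P.idx (p⁻¹ * x) ≠ some i := by
          rw [← hi]; exact hs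
        have hkD := hthin p i k g' hpx hk hg' e
        have hs' : P.Sep x (p * P.ι i k) y := by
          unfold Sep
          have e1 : (p * P.ι i k)⁻¹ * x = P.ι i k⁻¹ * (p⁻¹ * x) := by rw [map_inv]; group
          have e2 : (p * P.ι i k)⁻¹ * y = g' := by rw [mul_inv_rev, mul_assoc, e]; group
          rw [e1, e2, P.idx_mul_inv_ne hk hpx]
          exact hg'.symm
        have hd : wd S x (p * P.ι i k) = wd S x p + kl k := by
          have s : P.Sep x p (p * P.ι i k) := by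
            unfold Sep
            rw [inv_mul_cancel_left, P.idx_ι i hk]
            exact hpx
          rw [s.add]
          congr 1
          unfold wd
          rw [inv_mul_cancel_left]
          have := P.len_ι i k
          rw [show wordLen (S.gens : Set G) (P.ι i k) = kl k from this]
        by_cases hlt : R < wd S x (p * P.ι i k)
        · exact ⟨_, hs', hlt, by rw [hd]; linarith⟩
        · refine ih (p * P.ι i k) ?_ hs' (not_lt.mp hlt)
          have e2 : (p * P.ι i k)⁻¹ * y = g' := by rw [mul_inv_rev, mul_assoc, e]; group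
          rw [e2]
          have h1 := P.len_mul i k g' hg'
          rw [← e] at h1
          have h2 := kl_pos hk
          have h3 : wl S (p⁻¹ * y) = kl k + wl S g' := h1
          omega
  have hne : x ≠ y := by
    rintro rfl
    rw [wd_self] at hxy
    linarith
  exact key _ x le_rfl (P.sep_self_left hne) (by rw [wd_self]; exact hR)

/-- bound on backtracking -/
noncomputable def Bc (lam eps : ℝ) : ℝ := lam ^ 2 * (3 * (eps + 2) + 2) + 2 * (eps + 2) + 1

theorem backtrack {M : ℝ → ℝ → NNReal} {lam eps a m b : ℝ} {γ : ℝ → CayleyGraph S}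
    (hlam : 1 ≤ lam) (ham : a ≤ m) (hmb : m ≤ b) (h : Good M lam eps a b γ) {v : G}
    (h1 : P.Sep (rd (γ a)) v (rd (γ m))) (h2 : P.Sep (rd (γ m)) v (rd (γ b))) :
    wd S (rd (γ m)) v ≤ Bc lam eps := by
  obtain ⟨u, hu, hu'⟩ := P.cross (α := fun t => rd (γ t)) ham hlam
    ((h.mono le_rfl hmb).upper ham) h1
  obtain ⟨w, hw, hw'⟩ := P.cross (α := fun t => rd (γ t)) hmb hlam
    ((h.mono ham le_rfl).upper hmb) h2
  have hu'' : wd S (rd (γ u)) v ≤ eps + 2 + 1 := hu'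
  have hw'' : wd S (rd (γ w)) v ≤ eps + 2 + 1 := hw'
  have hab := ham.trans hmb
  have hu2 : u ∈ Icc a b := ⟨hu.1, hu.2.trans hmb⟩
  have hw2 : w ∈ Icc a b := ⟨ham.trans hw.1, hw.2⟩
  have hm2 : m ∈ Icc a b := ⟨ham, hmb⟩
  have b1 := h.lower hab u hu2 w hw2
  have b2 := wd_triangle S (rd (γ u)) v (rd (γ w))
  rw [wd_comm S v (rd (γ w))] at b2
  have hlam0 : 0 < lam := by linarith
  have b3 : |u - w| ≤ lam * (3 * (eps + 2) + 2) := by
    have : |u - w| / lam ≤ 3 * (eps + 2) + 2 := by linarith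
    rwa [div_le_iff₀ hlam0, mul_comm] at this
  have b4 : |m - u| ≤ |u - w| := by
    rw [abs_of_nonneg (by linarith [hu.2]), abs_sub_comm, abs_of_nonneg (by linarith [hu.2, hw.1])]
    linarith [hw.1]
  have b5 := h.upper hab m hm2 u hu2
  have b6 := wd_triangle S (rd (γ m)) (rd (γ u)) v
  have b7 : lam * |m - u| ≤ lam * (lam * (3 * (eps + 2) + 2)) :=
    mul_le_mul_of_nonneg_left (b4.trans b3) hlam0.le
  have b8 : lam * (lam * (3 * (eps + 2) + 2)) = lam ^ 2 * (3 * (eps + 2) + 2) := by ring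
  unfold Bc
  linarith

/-- the step length -/
noncomputable def ell (M : ℝ → ℝ → NNReal) (lam eps : ℝ) : ℝ :=
  lam * (2 * Bc lam eps + Dc M lam eps + (eps + 2) + 1)

theorem Bc_nonneg {lam eps : ℝ} (heps : 0 ≤ eps) : 0 ≤ Bc lam eps := by
  unfold Bc; positivity

theorem one_le_ell {M : ℝ → ℝ → NNReal} {lam eps : ℝ} (hlam : 1 ≤ lam) (heps : 0 ≤ eps) :
    1 ≤ ell M lam eps := by
  have h1 := Bc_nonneg (lam := lam) heps
  have h2 := Dc_nonneg (M := M) (lam := lam) heps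
  unfold ell
  nlinarith

/-- Chains of cut vertices along a local Morse quasi-geodesic. -/
theorem exists_chain {M : ℝ → ℝ → NNReal} {lam eps s δ : ℝ} {γ : ℝ → CayleyGraph S} {N : ℕ}
    (hlam : 1 ≤ lam) (heps : 0 ≤ eps) (hδ : ell M lam eps ≤ δ)
    (hgood : ∀ c d : ℝ, s ≤ c → c ≤ d → d ≤ s + N * δ → d - c ≤ 2 * δ → Good M lam eps c d γ) :
    ∃ v : ℕ → G, P.Chain (fun k => rd (γ (s + k * δ))) v N ∧
      ∀ k < N, wd S (rd (γ (s + k * δ))) (v k) ≤ Bc lam eps + Dc M lam eps := by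
  have hB := Bc_nonneg (lam := lam) heps
  have hD := Dc_nonneg (M := M) (lam := lam) heps
  have hℓ := one_le_ell (M := M) hlam heps
  have hδ0 : 0 < δ := by linarith
  have hlam0 : 0 < lam := by linarith
  have hle : ∀ j k : ℕ, j ≤ k → s + (j : ℝ) * δ ≤ s + (k : ℝ) * δ := by
    intro j k hjk
    have : (j : ℝ) ≤ k := by exact_mod_cast hjk
    nlinarith
  have hs0 : ∀ j : ℕ, s ≤ s + (j : ℝ) * δ := by
    intro j
    have := Nat.cast_nonneg (α := ℝ) j
    nlinarith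
  have hG2 : ∀ j k : ℕ, j ≤ k → k ≤ N → k ≤ j + 2 →
      Good M lam eps (s + j * δ) (s + k * δ) γ := by
    intro j k hjk hkN hk2
    refine hgood _ _ (hs0 j) (hle j k hjk) (hle k N hkN) ?_
    have : (k : ℝ) ≤ j + 2 := by exact_mod_cast hk2
    nlinarith
  have hv : ∀ k, k < N → ∃ v : G, P.Sep (rd (γ (s + k * δ))) v (rd (γ (s + (k + 1 : ℕ) * δ))) ∧
      Bc lam eps < wd S (rd (γ (s + k * δ))) v ∧
      wd S (rd (γ (s + k * δ))) v ≤ Bc lam eps + Dc M lam eps ∧
      Bc lam eps < wd S v (rd (γ (s + (k + 1 : ℕ) * δ))) := by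
    intro k hk
    have hg := hG2 k (k + 1) (by omega) hk (by omega)
    have hab := hle k (k + 1) (by omega)
    have h1 := hg.lower hab _ (left_mem_Icc.mpr hab) _ (right_mem_Icc.mpr hab)
    have h2 : |s + (k : ℝ) * δ - (s + ((k + 1 : ℕ) : ℝ) * δ)| = δ := by
      rw [show s + (k : ℝ) * δ - (s + ((k + 1 : ℕ) : ℝ) * δ) = -δ by push_cast; ring,
        abs_neg, abs_of_pos hδ0]
    rw [h2] at h1
    have h3 : 2 * Bc lam eps + Dc M lam eps + (eps + 2) + 1 ≤ δ / lam := by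
      rw [le_div_iff₀ hlam0, mul_comm]
      exact hδ
    obtain ⟨v, hv1, hv2, hv3⟩ := P.exists_cut (D := Dc M lam eps) hB
      (fun p i κ g' a1 a2 a3 a4 => P.thin hlam heps hab hg p i κ g' a1 a2 a3 a4)
      (show Bc lam eps < wd S (rd (γ (s + k * δ))) (rd (γ (s + (k + 1 : ℕ) * δ))) by linarith)
    refine ⟨v, hv1, hv2, hv3, ?_⟩
    have := hv1.add
    linarith
  choose! v hv1 hv2 hv3 hv4 using hv
  refine ⟨v, ⟨fun k hk => hv1 k hk, ?_, ?_, ?_, ?_⟩, hv3⟩
  · intro k hk he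
    have := hv2 k hk
    rw [he] at this
    simp only [wd_self] at this
    linarith
  · intro k hk he
    have := hv4 k hk
    rw [he] at this
    simp only [wd_self] at this
    linarith
  · intro k hk
    by_contra hc
    have h1 : P.Sep (rd (γ (s + k * δ))) (v (k + 1)) (rd (γ (s + (k + 1 : ℕ) * δ))) := hc
    have h2 := P.backtrack hlam (hle k (k + 1) (by omega)) (hle (k + 1) (k + 2) (by omega))
      (hG2 k (k + 2) (by omega) (by omega) (by omega)) h1 (hv1 (k + 1) hk)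
    have h3 := hv2 (k + 1) hk
    linarith
  · intro k hk
    by_contra hc
    have h1 : P.Sep (rd (γ (s + (k + 1 : ℕ) * δ))) (v k) (rd (γ (s + (k + 2 : ℕ) * δ))) :=
      fun h => hc h.symm
    have h2 := P.backtrack hlam (hle k (k + 1) (by omega)) (hle (k + 1) (k + 2) (by omega))
      (hG2 k (k + 2) (by omega) (by omega) (by omega)) (hv1 k (by omega)) h1
    have h3 := hv4 k (by omega)
    rw [wd_comm] at h3
    linarith

end FP

end Pool.Agent.H86.Stab
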