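import Pool.Agent.H86.Stab.Defs

/-!
Basic facts on the Cayley graph: vertices, rounding and geodesics.
-/

namespace Pool.Agent.H86.Stab

open Set

variable {G : Type} [Group G] {S : GenSet G}

theorem CayleyPt.dist_vtx (g h : G) : dist (CayleyPt.vtx S g) (CayleyPt.vtx S h) = wd S g h := by
  rw [CayleyPt.dist_def]
  have e : ∀ x : G, (CayleyPt.vtx S x).elen = 0 := fun x => wd_self S x
  have hl : ∀ b c, CayleyPt.leg (CayleyPt.vtx S g) (CayleyPt.vtx S h) b c = wd S g h := by
    intro b c
    unfold CayleyPt.leg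
    cases b <;> cases c <;> simp [CayleyPt.legC, CayleyPt.legV, e] <;> rfl
  have ht : CayleyPt.thr (CayleyPt.vtx S g) (CayleyPt.vtx S h) = wd S g h := by
    obtain ⟨b, c, hh⟩ := CayleyPt.thr_eq (CayleyPt.vtx S g) (CayleyPt.vtx S h)
    rw [hh, hl]
  rcases CayleyPt.cdist_cases (CayleyPt.vtx S g) (CayleyPt.vtx S h) with hh | ⟨h1, hh⟩ | ⟨h1, hh⟩
  · rw [hh, ht]
  · rw [hh, e, mul_zero]
    have : g = h := h1.1
    rw [this, wd_self]
  · rw [hh, e, mul_zero]
    have : g = h := h1.1
    rw [this, wd_self]

theorem dist_vertex (g h : G) : dist (vertex S g) (vertex S h) = wd S g h := by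
  have : dist (vertex S g) (vertex S h) = dist (CayleyPt.vtx S g) (CayleyPt.vtx S h) :=
    SeparationQuotient.dist_mk _ _
  rw [this, CayleyPt.dist_vtx]

theorem wordLen_le_one_of_mem {x : G} (h : x ∈ S.gens ∨ x⁻¹ ∈ S.gens) :
    wordLen (S.gens : Set G) x ≤ 1 := by
  refine wordLen_le [x] ?_ (by simp)
  intro y hy
  rw [List.mem_singleton] at hy
  rw [hy]
  exact h

theorem CayleyPt.elen_le_one (p : CayleyPt S) : p.elen ≤ 1 := by
  unfold CayleyPt.elen
  rcases p.adj with h | h | h
  · rw [h, wd_self]; exact zero_le_one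
  · unfold wd
    exact_mod_cast wordLen_le_one_of_mem (Or.inl h)
  · rw [wd_comm]
    unfold wd
    exact_mod_cast wordLen_le_one_of_mem (Or.inl h)

theorem CayleyPt.dist_src_le (p : CayleyPt S) : dist p (CayleyPt.vtx S p.src) ≤ 1 := by
  rw [CayleyPt.dist_def]
  refine (CayleyPt.cdist_le_thr _ _).trans ((CayleyPt.thr_le _ _ true true).trans ?_)
  have e : (CayleyPt.vtx S p.src).elen = 0 := wd_self S _
  have h1 : CayleyPt.leg p (CayleyPt.vtx S p.src) true true = p.t * p.elen := by
    unfold CayleyPt.leg
    simp only [CayleyPt.legC, CayleyPt.legV, e]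
    simp [CayleyPt.vtx, wd_self]
  rw [h1]
  have := p.elen_le_one
  have := p.elen_nonneg
  have := p.t_le_one
  have := p.t_nonneg
  nlinarith

theorem vertex_injective : Function.Injective (vertex S) := by
  intro g h e
  have h1 : wd S g h = 0 := by rw [← dist_vertex, e, dist_self]
  unfold wd at h1
  have h2 : wordLen (S.gens : Set G) (g⁻¹ * h) = 0 := by exact_mod_cast h1
  exact inv_mul_eq_one.mp (wordLen_eq_zero S h2)

open Classical in
/-- a vertex near a point -/
noncomputable def rd (x : CayleyGraph S) : G :=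
  if h : ∃ g, x = vertex S g then h.choose else (Quotient.out x : CayleyPt S).src

theorem rd_vertex (g : G) : rd (vertex S g) = g := by
  have h : ∃ g', vertex S g = vertex S g' := ⟨g, rfl⟩
  unfold rd
  rw [dif_pos h]
  exact (vertex_injective h.choose_spec).symm

theorem dist_rd (x : CayleyGraph S) : dist x (vertex S (rd x)) ≤ 1 := by
  by_cases hx : ∃ g, x = vertex S g
  · obtain ⟨g, rfl⟩ := hx
    rw [rd_vertex, dist_self]
    exact zero_le_one
  · unfold rd
    rw [dif_neg hx]
    have h : x = (SeparationQuotient.mk (Quotient.out x : CayleyPt S) : CayleyGraph S) :=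
      (Quotient.out_eq x).symm
    have h2 : dist (SeparationQuotient.mk (Quotient.out x : CayleyPt S) : CayleyGraph S)
        (vertex S (Quotient.out x : CayleyPt S).src) =
        dist (Quotient.out x : CayleyPt S) (CayleyPt.vtx S (Quotient.out x : CayleyPt S).src) :=
      SeparationQuotient.dist_mk _ _
    rw [← h] at h2
    exact (le_of_eq h2).trans (CayleyPt.dist_src_le _)

theorem abs_wd_rd (x y : CayleyGraph S) : |wd S (rd x) (rd y) - dist x y| ≤ 2 := by
  have h1 := dist_rd x
  have h2 := dist_rd y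
  rw [← dist_vertex (S := S)]
  rw [abs_le]
  constructor
  · have := dist_triangle4 x (vertex S (rd x)) (vertex S (rd y)) y
    rw [dist_comm (vertex S (rd y)) y] at this
    linarith
  · have := dist_triangle4 (vertex S (rd x)) x y (vertex S (rd y))
    rw [dist_comm (vertex S (rd x)) x] at this
    linarith

theorem wd_rd_le (x y : CayleyGraph S) : wd S (rd x) (rd y) ≤ dist x y + 2 := by
  have := (abs_le.mp (abs_wd_rd x y)).2
  linarith

theorem dist_le_wd_rd (x y : CayleyGraph S) : dist x y ≤ wd S (rd x) (rd y) + 2 := by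
  have := (abs_le.mp (abs_wd_rd x y)).1
  linarith

theorem wd_rd_vertex_le (x : CayleyGraph S) (g : G) : wd S (rd x) g ≤ dist x (vertex S g) + 1 := by
  rw [← dist_vertex (S := S)]
  have h1 := dist_rd x
  have := dist_triangle (vertex S (rd x)) x (vertex S g)
  rw [dist_comm (vertex S (rd x)) x] at this
  linarith

theorem dist_vertex_le_rd (x : CayleyGraph S) (g : G) :
    dist x (vertex S g) ≤ wd S (rd x) g + 1 := by
  rw [← dist_vertex (S := S)]
  have h1 := dist_rd x
  have := dist_triangle x (vertex S (rd x)) (vertex S g)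
  linarith

section Path

/-- adjacency (or equality) of vertices -/
def Adj (S : GenSet G) (g h : G) : Prop := g = h ∨ g⁻¹ * h ∈ S.gens ∨ h⁻¹ * g ∈ S.gens

/-- the point at time `x` of the path with vertices `v 0, v 1, ...` -/
noncomputable def pathPt (v : ℕ → G) (hv : ∀ j, Adj S (v j) (v (j + 1))) (x : ℝ) : CayleyPt S :=
  ⟨v ⌊x⌋₊, v (⌊x⌋₊ + 1), hv _, Int.fract x, Int.fract_nonneg x, (Int.fract_lt_one x).le⟩

theorem Adj.wd_le {g h : G} (a : Adj S g h) : wd S g h ≤ 1 := by
  rcases a with h | h | h
  · rw [h, wd_self]; exact zero_le_one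
  · unfold wd
    exact_mod_cast wordLen_le_one_of_mem (Or.inl h)
  · rw [wd_comm]
    unfold wd
    exact_mod_cast wordLen_le_one_of_mem (Or.inl h)

theorem wd_path_le (v : ℕ → G) (hv : ∀ j, Adj S (v j) (v (j + 1))) (i k : ℕ) :
    wd S (v i) (v (i + k)) ≤ k := by
  induction k with
  | zero => simp [wd_self]
  | succ k ih =>
    have h1 := wd_triangle S (v i) (v (i + k)) (v (i + (k + 1)))
    have h2 := (hv (i + k)).wd_le
    push_cast
    rw [← add_assoc] at h1 ⊢
    linarith

theorem pathPt_lip (v : ℕ → G) (hv : ∀ j, Adj S (v j) (v (j + 1))) {x y : ℝ} (hx : 0 ≤ x)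
    (hxy : x ≤ y) : dist (pathPt v hv x) (pathPt v hv y) ≤ y - x := by
  have hy : 0 ≤ y := hx.trans hxy
  have fx : (⌊x⌋₊ : ℝ) + Int.fract x = x := by
    rw [natCast_floor_eq_intCast_floor hx]
    exact Int.floor_add_fract x
  have fy : (⌊y⌋₊ : ℝ) + Int.fract y = y := by
    rw [natCast_floor_eq_intCast_floor hy]
    exact Int.floor_add_fract y
  have hle : ⌊x⌋₊ ≤ ⌊y⌋₊ := Nat.floor_mono hxy
  rw [CayleyPt.dist_def]
  have e1 := (pathPt v hv x).elen_le_one
  have e2 := (pathPt v hv x).elen_nonneg
  have e1' := (pathPt v hv y).elen_le_one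
  have e2' := (pathPt v hv y).elen_nonneg
  rcases hle.lt_or_eq with h | h
  · refine (CayleyPt.cdist_le_thr _ _).trans ((CayleyPt.thr_le _ _ false true).trans ?_)
    unfold CayleyPt.leg
    have h1 : (pathPt v hv x).legC false ≤ 1 - Int.fract x := by
      have : (pathPt v hv x).legC false = (1 - Int.fract x) * (pathPt v hv x).elen := by
        simp [CayleyPt.legC, pathPt]
      rw [this]
      have := Int.fract_lt_one x
      nlinarith
    have h2 : (pathPt v hv y).legC true ≤ Int.fract y := by
      have : (pathPt v hv y).legC true = Int.fract y * (pathPt v hv y).elen := by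
        simp [CayleyPt.legC, pathPt]
      rw [this]
      have := Int.fract_nonneg y
      nlinarith
    have h3 : wd S ((pathPt v hv x).legV false) ((pathPt v hv y).legV true)
        ≤ (⌊y⌋₊ : ℝ) - (⌊x⌋₊ + 1) := by
      obtain ⟨k, hk⟩ := Nat.exists_eq_add_of_lt h
      have e3 : (pathPt v hv x).legV false = v (⌊x⌋₊ + 1) := by simp [CayleyPt.legV, pathPt]
      have e4 : (pathPt v hv y).legV true = v (⌊x⌋₊ + 1 + k) := by
        simp only [CayleyPt.legV, pathPt, if_true]
        rw [hk]
        congr 1
        ring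
      rw [e3, e4]
      refine (wd_path_le v hv _ _).trans (le_of_eq ?_)
      rw [hk]
      push_cast
      ring
    linarith
  · have hs : CayleyPt.Same (pathPt v hv x) (pathPt v hv y) := by
      constructor <;> simp [pathPt, h]
    refine (CayleyPt.cdist_le_same hs).trans ?_
    have h1 : |(pathPt v hv x).t - (pathPt v hv y).t| = y - x := by
      have : (pathPt v hv x).t - (pathPt v hv y).t = -(y - x) := by
        simp only [pathPt]
        rw [h] at fx
        linarith
      rw [this, abs_neg, abs_of_nonneg (by linarith)]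
    rw [h1]
    nlinarith

theorem pathPt_nat (v : ℕ → G) (hv : ∀ j, Adj S (v j) (v (j + 1))) (n : ℕ) :
    dist (pathPt v hv n) (CayleyPt.vtx S (v n)) = 0 := by
  apply le_antisymm _ dist_nonneg
  rw [CayleyPt.dist_def]
  refine (CayleyPt.cdist_le_thr _ _).trans ((CayleyPt.thr_le _ _ true true).trans ?_)
  unfold CayleyPt.leg
  simp [CayleyPt.legC, CayleyPt.legV, pathPt, CayleyPt.vtx, wd_self]

/-- the path in the Cayley graph with vertices `v 0, v 1, ...` -/
noncomputable def pathMap (v : ℕ → G) (hv : ∀ j, Adj S (v j) (v (j + 1))) (x : ℝ) :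
    CayleyGraph S := SeparationQuotient.mk (pathPt v hv x)

theorem pathMap_nat (v : ℕ → G) (hv : ∀ j, Adj S (v j) (v (j + 1))) (n : ℕ) :
    pathMap v hv n = vertex S (v n) := by
  apply eq_of_dist_eq_zero
  have : dist (pathMap v hv n) (vertex S (v n)) = dist (pathPt v hv n) (CayleyPt.vtx S (v n)) :=
    SeparationQuotient.dist_mk _ _
  rw [this, pathPt_nat]

theorem pathMap_lip (v : ℕ → G) (hv : ∀ j, Adj S (v j) (v (j + 1))) {x y : ℝ} (hx : 0 ≤ x)
    (hxy : x ≤ y) : dist (pathMap v hv x) (pathMap v hv y) ≤ y - x := by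
  have : dist (pathMap v hv x) (pathMap v hv y) = dist (pathPt v hv x) (pathPt v hv y) :=
    SeparationQuotient.dist_mk _ _
  rw [this]
  exact pathPt_lip v hv hx hxy

theorem pathMap_geodesic (v : ℕ → G) (hv : ∀ j, Adj S (v j) (v (j + 1))) (n : ℕ)
    (h : wd S (v 0) (v n) = n) : IsGeodesic 0 n (pathMap v hv) := by
  have key : ∀ s ∈ Icc (0 : ℝ) n, ∀ t ∈ Icc (0 : ℝ) n, s ≤ t →
      dist (pathMap v hv s) (pathMap v hv t) = t - s := by
    intro s hs t ht hst
    apply le_antisymm (pathMap_lip v hv hs.1 hst)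
    have h1 := pathMap_lip v hv le_rfl hs.1
    have h2 := pathMap_lip v hv ht.1 ht.2
    have h3 := dist_triangle4 (pathMap v hv 0) (pathMap v hv s) (pathMap v hv t) (pathMap v hv n)
    have h4 : dist (pathMap v hv 0) (pathMap v hv n) = n := by
      have e0 : pathMap v hv 0 = vertex S (v 0) := by
        have := pathMap_nat v hv 0
        simpa using this
      rw [e0, pathMap_nat, dist_vertex, h]
    linarith
  intro s hs t ht
  rcases le_total s t with hst | hst
  · rw [key s hs t ht hst, abs_sub_comm, abs_of_nonneg (by linarith)]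
  · rw [dist_comm, key t ht s hs hst, abs_of_nonneg (by linarith)]

/-- Any two vertices are joined by a geodesic. -/
theorem exists_geodesic (S : GenSet G) (g h : G) : ∃ γ : ℝ → CayleyGraph S,
    IsGeodesic 0 (wd S g h) γ ∧ γ 0 = vertex S g ∧ γ (wd S g h) = vertex S h := by
  obtain ⟨l, hl, hl', hp⟩ := wordLen_spec S (g⁻¹ * h)
  have hv : ∀ j, Adj S (g * (l.take j).prod) (g * (l.take (j + 1)).prod) := by
    intro j
    rcases lt_or_ge j l.length with hj | hj
    · rw [List.take_succ_eq_append_getElem hj, List.prod_append, List.prod_singleton]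
      rcases hl' l[j] (List.getElem_mem hj) with h1 | h1
      · right; left
        have : (g * (l.take j).prod)⁻¹ * (g * ((l.take j).prod * l[j])) = l[j] := by group
        rw [this]
        exact h1
      · right; right
        have : (g * ((l.take j).prod * l[j]))⁻¹ * (g * (l.take j).prod) = l[j]⁻¹ := by group
        rw [this]
        exact h1
    · left
      rw [List.take_of_length_le hj, List.take_of_length_le (by omega)]
  have e0 : g * (l.take 0).prod = g := by simp
  have e1 : g * (l.take (wordLen (S.gens : Set G) (g⁻¹ * h))).prod = h := by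
    rw [← hl, List.take_length, hp]
    group
  have hg := pathMap_geodesic (S := S) (fun j => g * (l.take j).prod) hv
    (wordLen (S.gens : Set G) (g⁻¹ * h)) (by
      show wd S (g * (l.take 0).prod) (g * (l.take (wordLen (S.gens : Set G) (g⁻¹ * h))).prod) = _
      rw [e0, e1]; rfl)
  refine ⟨_, hg, ?_, ?_⟩
  · have := pathMap_nat (S := S) (fun j => g * (l.take j).prod) hv 0
    rw [Nat.cast_zero] at this
    rw [this, e0]
  · have := pathMap_nat (S := S) (fun j => g * (l.take j).prod) hv
      (wordLen (S.gens : Set G) (g⁻¹ * h))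
    rw [e1] at this
    exact this

end Path

end Pool.Agent.H86.Stab
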