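import Pool.Agent.H86.Stab.LTwo

/-!
Upper bound for the growth of subgroups meeting the conjugates of the factors trivially.
-/

namespace Pool.Agent.H86.Stab

open Set

/-- elements of the free group whose length lies in `s` -/
def layers (s : Finset ℕ) : Finset F2 := s.biUnion sph

theorem mem_layers (s : Finset ℕ) (f : F2) : f ∈ layers s ↔ FreeGroup.norm f ∈ s := by
  unfold layers
  rw [Finset.mem_biUnion]
  constructor
  · rintro ⟨j, hj, hf⟩
    rwa [(mem_sph j f).mp hf]
  · intro h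
    exact ⟨_, h, (mem_sph _ f).mpr rfl⟩

theorem sum_layers {M : Type*} [AddCommMonoid M] (s : Finset ℕ) (φ : F2 → M) :
    ∑ f ∈ layers s, φ f = ∑ j ∈ s, ∑ f ∈ sph j, φ f := by
  unfold layers
  rw [Finset.sum_biUnion]
  intro i _ j _ hij
  rw [Function.onFun, Finset.disjoint_left]
  intro f hf hf'
  exact hij (((mem_sph i f).mp hf).symm.trans ((mem_sph j f).mp hf'))

theorem sum_layers_pow (s : Finset ℕ) (t : ℝ) :
    ∑ f ∈ layers s, t ^ FreeGroup.norm f = ∑ j ∈ s, ((sph j).card : ℝ) * t ^ j := by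
  rw [sum_layers]
  apply Finset.sum_congr rfl
  intro j _
  have : ∀ f ∈ sph j, t ^ FreeGroup.norm f = t ^ j := fun f hf => by rw [(mem_sph j f).mp hf]
  rw [Finset.sum_congr rfl this, Finset.sum_const, nsmul_eq_mul]

/-- finite set of syllables of box size `n` -/
def EE (n : ℕ) : Finset KK :=
  (layers (Finset.Icc 1 n) ×ˢ layers (Finset.Icc 0 n)) ∪ ({1} ×ˢ layers (Finset.Icc 1 n))

theorem mem_EE (n : ℕ) (k : KK) :
    k ∈ EE n ↔ k ≠ 1 ∧ FreeGroup.norm k.1 ≤ n ∧ FreeGroup.norm k.2 ≤ n := by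
  unfold EE
  rw [Finset.mem_union, Finset.mem_product, Finset.mem_product, mem_layers, mem_layers,
    mem_layers, Finset.mem_Icc, Finset.mem_Icc, Finset.mem_Icc, Finset.mem_singleton]
  constructor
  · rintro (⟨h1, h2⟩ | ⟨h1, h2⟩)
    · refine ⟨?_, h1.2, h2.2⟩
      rintro rfl
      rw [Prod.fst_one, FreeGroup.norm_one] at h1
      omega
    · refine ⟨?_, by rw [h1, FreeGroup.norm_one]; omega, h2.2⟩
      rintro rfl
      rw [Prod.snd_one, FreeGroup.norm_one] at h2
      omega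
  · rintro ⟨h1, h2, h3⟩
    by_cases hk : k.1 = 1
    · right
      refine ⟨hk, ?_, h3⟩
      rw [Nat.one_le_iff_ne_zero]
      intro h
      exact h1 (Prod.ext hk (FreeGroup.norm_eq_zero.mp h))
    · left
      refine ⟨⟨?_, h2⟩, by omega, h3⟩
      rw [Nat.one_le_iff_ne_zero]
      intro h
      exact hk (FreeGroup.norm_eq_zero.mp h)

theorem sum_EE {M : Type*} [AddCommMonoid M] (n : ℕ) (φ : KK → M) :
    ∑ k ∈ EE n, φ k = ∑ f ∈ layers (Finset.Icc 1 n), ∑ m ∈ layers (Finset.Icc 0 n), φ (f, m) +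
      ∑ m ∈ layers (Finset.Icc 1 n), φ (1, m) := by
  unfold EE
  rw [Finset.sum_union, Finset.sum_product, Finset.sum_product, Finset.sum_singleton]
  rw [Finset.disjoint_left]
  intro k h1 h2
  rw [Finset.mem_product, mem_layers, Finset.mem_Icc] at h1
  rw [Finset.mem_product, Finset.mem_singleton] at h2
  rw [h2.1, FreeGroup.norm_one] at h1
  omega

theorem layers_split {n : ℕ} (hn : 1 ≤ n) {M : Type*} [AddCommMonoid M] (φ : F2 → M) :
    ∑ f ∈ layers (Finset.Icc 1 n), φ f =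
      ∑ p : Bool × Bool, φ (sg p) + ∑ f ∈ layers (Finset.Icc 2 n), φ f := by
  rw [sum_layers, sum_layers, ← sum_sph_one]
  have : Finset.Icc 1 n = insert 1 (Finset.Icc 2 n) := by
    ext j
    simp only [Finset.mem_insert, Finset.mem_Icc]
    omega
  rw [this, Finset.sum_insert (by simp)]

/-- the tail sum -/
noncomputable def Rn (t : ℝ) (n : ℕ) : ℝ := ∑ f ∈ layers (Finset.Icc 2 n), t ^ FreeGroup.norm f

theorem Rn_nonneg {t : ℝ} (ht : 0 ≤ t) (n : ℕ) : 0 ≤ Rn t n :=
  Finset.sum_nonneg fun _ _ => pow_nonneg ht _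

theorem sum_one_n {t : ℝ} {n : ℕ} (hn : 1 ≤ n) :
    ∑ f ∈ layers (Finset.Icc 1 n), t ^ FreeGroup.norm f = 4 * t + Rn t n := by
  rw [layers_split hn]
  congr 1
  have : ∀ p : Bool × Bool, t ^ FreeGroup.norm (sg p) = t := by
    intro p
    have h : sg p ∈ sph 1 := by rw [sph_one]; exact Finset.mem_image_of_mem _ (Finset.mem_univ _)
    rw [(mem_sph _ _).mp h, pow_one]
  rw [Finset.sum_congr rfl fun p _ => this p]
  simp

theorem sum_zero_n {t : ℝ} {n : ℕ} (hn : 1 ≤ n) :
    ∑ f ∈ layers (Finset.Icc 0 n), t ^ FreeGroup.norm f = 1 + 4 * t + Rn t n := by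
  rw [sum_layers]
  have : Finset.Icc 0 n = insert 0 (Finset.Icc 1 n) := by
    ext j
    simp only [Finset.mem_insert, Finset.mem_Icc]
    omega
  rw [this, Finset.sum_insert (by simp), ← sum_layers, sum_one_n hn, sph_zero,
    Finset.sum_singleton, FreeGroup.norm_one, pow_zero]
  ring

theorem Rn_le {t : ℝ} (ht : 0 ≤ t) (ht3 : 3 * t < 1) (n : ℕ) :
    Rn t n ≤ 12 * t ^ 2 / (1 - 3 * t) := by
  unfold Rn
  rw [sum_layers_pow]
  have h1 : ∑ j ∈ Finset.Icc 2 n, ((sph j).card : ℝ) * t ^ j ≤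
      ∑ j ∈ Finset.range n, 12 * t ^ 2 * (3 * t) ^ j := by
    have e : ∀ j ∈ Finset.range n, (12 * t ^ 2 * (3 * t) ^ j) =
        ((sph (j + 2)).card : ℝ) * t ^ (j + 2) := by
      intro j _
      rw [card_sph_succ]
      push_cast
      rw [mul_pow]
      ring
    rw [Finset.sum_congr rfl e]
    have e2 : ∑ j ∈ Finset.range n, ((sph (j + 2)).card : ℝ) * t ^ (j + 2) =
        ∑ j ∈ (Finset.range n).map (addRightEmbedding 2), ((sph j).card : ℝ) * t ^ j := by
      rw [Finset.sum_map]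
      rfl
    rw [e2]
    apply Finset.sum_le_sum_of_subset_of_nonneg
    · intro j hj
      rw [Finset.mem_Icc] at hj
      rw [Finset.mem_map]
      exact ⟨j - 2, Finset.mem_range.mpr (by omega), by
        simp only [addRightEmbedding_apply]; omega⟩
    · intro j _ _
      positivity
  refine h1.trans ?_
  rw [← Finset.mul_sum, div_eq_mul_inv]
  apply mul_le_mul_of_nonneg_left _ (by positivity)
  rw [geom_sum_eq (by linarith)]
  rw [show ((3 * t) ^ n - 1) / (3 * t - 1) = (1 - (3 * t) ^ n) * (1 - 3 * t)⁻¹ by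
    rw [div_eq_mul_inv, show (3 * t - 1) = -(1 - 3 * t) by ring, inv_neg]; ring]
  have h2 : 0 ≤ (3 * t) ^ n := by positivity
  have h3 : 0 < (1 - 3 * t)⁻¹ := inv_pos.mpr (by linarith)
  nlinarith

namespace FP

variable {G : Type} [Group G] {S : GenSet G} (P : FP G S)

section Op

variable (H : Subgroup G)

theorem smul_inj (g : G) : Function.Injective (fun x : G ⧸ H => g • x) := MulAction.injective g

/-- `H` meets the conjugates of the factors trivially -/
def Triv : Prop := ∀ (i : Bool) (g : G) (κ : KK), g * P.ι i κ * g⁻¹ ∈ H → κ = 1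

variable {H}

theorem adj_bound (hH : P.Triv H) (i : Bool) {u : G ⧸ H → ℝ} {C : ℝ} (hu : LB u C) :
    LB (fun x => ∑ p : Bool × Bool, u (P.ι i (sg p, 1) • x)) (7 / 2 * C) := by
  let _ : MulAction F2 (G ⧸ H) :=
    MulAction.compHom (G ⧸ H) ((P.ι i).comp (MonoidHom.inl F2 F2))
  have hfree : ∀ (f : F2) (x : G ⧸ H), f • x = x → f = 1 := by
    intro f x hx
    obtain ⟨g, rfl⟩ := QuotientGroup.mk_surjective x
    have h1 : ((P.ι i (f, 1) * g : G) : G ⧸ H) = (g : G ⧸ H) := hx
    rw [QuotientGroup.eq] at h1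
    have h2 : g⁻¹ * P.ι i (f, 1) * g⁻¹⁻¹ ∈ H := by
      have := H.inv_mem h1
      have e : ((P.ι i (f, 1) * g)⁻¹ * g)⁻¹ = g⁻¹ * P.ι i (f, 1) * g⁻¹⁻¹ := by group
      rwa [e] at this
    have h3 := hH i g⁻¹ (f, 1) h2
    exact congrArg Prod.fst h3
  exact LB.adj hfree hu

/-- weighted sum over the syllables of box size `n` -/
noncomputable def NN (t : ℝ) (n : ℕ) (i : Bool) (u : G ⧸ H → ℝ) (x : G ⧸ H) : ℝ :=
  ∑ k ∈ EE n, t ^ kl k * u ((P.ι i k)⁻¹ • x)

theorem NN_bound (hH : P.Triv H) {t : ℝ} (ht : 0 ≤ t) {n : ℕ} (hn : 1 ≤ n) (i : Bool)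
    {u : G ⧸ H → ℝ} {C : ℝ} (hu : LB u C) :
    LB (P.NN t n i u) (((7 / 2 * t + Rn t n) * (1 + 4 * t + Rn t n) + (4 * t + Rn t n)) * C) := by
  -- second coordinate
  set v2 : G ⧸ H → ℝ := fun x =>
    ∑ m ∈ layers (Finset.Icc 0 n), t ^ FreeGroup.norm m * u ((P.ι i (1, m))⁻¹ • x) with hv2
  have h2 : LB v2 ((1 + 4 * t + Rn t n) * C) := by
    have := LB.sum (layers (Finset.Icc 0 n))
      (u := fun m x => t ^ FreeGroup.norm m * u ((P.ι i (1, m))⁻¹ • x))
      (C := fun m => t ^ FreeGroup.norm m * C)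
      (fun m _ => (hu.comp (smul_inj H ((P.ι i (1, m))⁻¹))).smul (pow_nonneg ht _))
    rw [← Finset.sum_mul, sum_zero_n hn] at this
    exact this
  have h2' : LB (fun x : G ⧸ H =>
      ∑ m ∈ layers (Finset.Icc 1 n), t ^ FreeGroup.norm m * u ((P.ι i (1, m))⁻¹ • x))
      ((4 * t + Rn t n) * C) := by
    have := LB.sum (layers (Finset.Icc 1 n))
      (u := fun m x => t ^ FreeGroup.norm m * u ((P.ι i (1, m))⁻¹ • x))
      (C := fun m => t ^ FreeGroup.norm m * C)
      (fun m _ => (hu.comp (smul_inj H ((P.ι i (1, m))⁻¹))).smul (pow_nonneg ht _))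
    rw [← Finset.sum_mul, sum_one_n hn] at this
    exact this
  -- first coordinate
  have h1 : LB (fun x : G ⧸ H => t * ∑ p : Bool × Bool, v2 (P.ι i (sg p, 1) • x))
      (t * (7 / 2 * ((1 + 4 * t + Rn t n) * C))) := (P.adj_bound hH i h2).smul ht
  have h1' : LB (fun x : G ⧸ H =>
      ∑ f ∈ layers (Finset.Icc 2 n), t ^ FreeGroup.norm f * v2 ((P.ι i (f, 1))⁻¹ • x))
      (Rn t n * ((1 + 4 * t + Rn t n) * C)) := by
    have := LB.sum (layers (Finset.Icc 2 n))
      (u := fun f x => t ^ FreeGroup.norm f * v2 ((P.ι i (f, 1))⁻¹ • x))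
      (C := fun f => t ^ FreeGroup.norm f * ((1 + 4 * t + Rn t n) * C))
      (fun f _ => (h2.comp (smul_inj H ((P.ι i (f, 1))⁻¹))).smul (pow_nonneg ht _))
    rw [← Finset.sum_mul] at this
    exact this
  have hall := (h1.add h1').add h2'
  have e : P.NN t n i u = fun x => (t * ∑ p : Bool × Bool, v2 (P.ι i (sg p, 1) • x) +
      ∑ f ∈ layers (Finset.Icc 2 n), t ^ FreeGroup.norm f * v2 ((P.ι i (f, 1))⁻¹ • x)) +
      ∑ m ∈ layers (Finset.Icc 1 n), t ^ FreeGroup.norm m * u ((P.ι i (1, m))⁻¹ • x) := by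
    funext x
    unfold NN
    rw [sum_EE]
    congr 1
    · have e1 : ∀ f : F2, ∑ m ∈ layers (Finset.Icc 0 n),
          t ^ kl (f, m) * u ((P.ι i (f, m))⁻¹ • x) =
          t ^ FreeGroup.norm f * v2 ((P.ι i (f, 1))⁻¹ • x) := by
        intro f
        rw [hv2, Finset.mul_sum]
        apply Finset.sum_congr rfl
        intro m _
        have e2 : (P.ι i (f, m))⁻¹ = (P.ι i (1, m))⁻¹ * (P.ι i (f, 1))⁻¹ := by
          rw [← mul_inv_rev, ← map_mul]
          simp
        rw [e2, mul_smul, ← mul_assoc, ← pow_add]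
        rfl
      rw [Finset.sum_congr rfl fun f _ => e1 f, layers_split hn]
      congr 1
      have e3 : ∀ p : Bool × Bool, t ^ FreeGroup.norm (sg p) = t := by
        intro p
        have h : sg p ∈ sph 1 := by
          rw [sph_one]; exact Finset.mem_image_of_mem _ (Finset.mem_univ _)
        rw [(mem_sph _ _).mp h, pow_one]
      rw [Finset.sum_congr rfl fun p _ => by rw [e3 p], ← Finset.mul_sum]
      congr 1
      have e4 := sum_sg_inv (fun f : F2 => v2 (P.ι i (f, 1) • x))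
      rw [← e4]
      apply Finset.sum_congr rfl
      intro p _
      rw [← map_inv]
      congr 3
    · apply Finset.sum_congr rfl
      intro m _
      have : kl (1, m) = FreeGroup.norm m := by simp [kl]
      rw [this]
  rw [e]
  refine hall.mono (le_of_eq ?_)
  ring

open Classical in
/-- iterated weighted sums -/
noncomputable def UU (t : ℝ) (n : ℕ) (H : Subgroup G) : ℕ → Bool → G ⧸ H → ℝ
  | 0, _ => fun x => if x = ((1 : G) : G ⧸ H) then 1 else 0
  | (r + 1), i => P.NN t n i (UU t n H r (!i))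

theorem UU_bound (hH : P.Triv H) {t : ℝ} (ht : 0 ≤ t) {n : ℕ} (hn : 1 ≤ n) (r : ℕ) (i : Bool) :
    LB (P.UU t n H r i)
      (((7 / 2 * t + Rn t n) * (1 + 4 * t + Rn t n) + (4 * t + Rn t n)) ^ r) := by
  induction r generalizing i with
  | zero =>
    rw [pow_zero, UU]
    convert LB.delta ((1 : G) : G ⧸ H)
  | succ r ih =>
    have := P.NN_bound hH ht hn i (ih (!i))
    rw [pow_succ']
    exact this

end Op

section Words

open Classical in
/-- elements with `r` syllables from `EE n`, the first one of index `i` -/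
noncomputable def ZZ (n : ℕ) : ℕ → Bool → Finset G
  | 0, _ => {1}
  | (r + 1), i => (EE n ×ˢ ZZ n r (!i)).image fun q => P.ι i q.1 * q.2

theorem mem_ZZ_zero (n : ℕ) (i : Bool) (g : G) : g ∈ P.ZZ n 0 i ↔ g = 1 := by
  classical
  rw [ZZ, Finset.mem_singleton]

theorem mem_ZZ_succ (n r : ℕ) (i : Bool) (g : G) :
    g ∈ P.ZZ n (r + 1) i ↔ ∃ k ∈ EE n, ∃ g' ∈ P.ZZ n r (!i), P.ι i k * g' = g := by
  classical
  rw [ZZ, Finset.mem_image]
  constructor
  · rintro ⟨⟨k, g'⟩, hq, rfl⟩
    rw [Finset.mem_product] at hq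
    exact ⟨k, hq.1, g', hq.2, rfl⟩
  · rintro ⟨k, hk, g', hg', rfl⟩
    exact ⟨(k, g'), Finset.mem_product.mpr ⟨hk, hg'⟩, rfl⟩

theorem idx_ZZ (n r : ℕ) (i : Bool) {g : G} (hg : g ∈ P.ZZ n r i) :
    P.idx g = if r = 0 then none else some i := by
  induction r generalizing i g with
  | zero =>
    rw [mem_ZZ_zero] at hg
    rw [hg, P.idx_one, if_pos rfl]
  | succ r ih =>
    rw [mem_ZZ_succ] at hg
    obtain ⟨k, hk, g', hg', rfl⟩ := hg
    have h1 := ((mem_EE n k).mp hk).1
    have h2 : P.idx g' ≠ some i := by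
      rw [ih (!i) hg']
      split_ifs
      · simp
      · simp
    rw [if_neg (by omega)]
    exact P.idx_mul i k g' h1 h2

theorem idx_ZZ_ne (n r : ℕ) (i : Bool) {g : G} (hg : g ∈ P.ZZ n r (!i)) : P.idx g ≠ some i := by
  rw [P.idx_ZZ n r (!i) hg]
  split_ifs <;> simp

theorem mem_ZZ (n : ℕ) : ∀ m ≤ n, ∀ g : G, wl S g ≤ m →
    ∃ r ≤ m, ∀ i, (P.idx g = none ∨ P.idx g = some i) → g ∈ P.ZZ n r i := by
  intro m
  induction m with
  | zero =>
    intro _ g hg
    have : g = 1 := wordLen_eq_zero S (Nat.le_zero.mp hg)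
    refine ⟨0, le_rfl, fun i _ => ?_⟩
    rw [mem_ZZ_zero, this]
  | succ m ih =>
    intro hm g hg
    rcases hi : P.idx g with _ | j
    · have : g = 1 := (P.idx_none g).mp hi
      refine ⟨0, Nat.zero_le _, fun i _ => ?_⟩
      rw [mem_ZZ_zero, this]
    · obtain ⟨k, g', hk, hg', rfl⟩ := P.decomp j g hi
      have h1 : wl S (P.ι j k * g') = kl k + wl S g' := P.len_mul j k g' hg'
      have h2 := kl_pos hk
      obtain ⟨r, hr, hr2⟩ := ih (by omega) g' (by omega)
      refine ⟨r + 1, by omega, fun i hi2 => ?_⟩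
      rcases hi2 with hi2 | hi2
      · simp at hi2
      · simp only [Option.some.injEq] at hi2
        subst hi2
        rw [mem_ZZ_succ]
        refine ⟨k, (mem_EE n k).mpr ⟨hk, ?_, ?_⟩, g', hr2 _ ?_, rfl⟩
        · have : FreeGroup.norm k.1 ≤ kl k := Nat.le_add_right _ _
          show FreeGroup.norm k.1 ≤ n
          omega
        · have : FreeGroup.norm k.2 ≤ kl k := Nat.le_add_left _ _
          show FreeGroup.norm k.2 ≤ n
          omega
        · rcases h3 : P.idx g' with _ | l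
          · exact Or.inl rfl
          · right
            have : l ≠ j := by rintro rfl; exact hg' h3
            cases l <;> cases j <;> simp_all

open Classical in
theorem sum_ZZ_le (H : Subgroup G) {t : ℝ} (ht : 0 ≤ t) (n r : ℕ) (i : Bool) (x : G ⧸ H) :
    ∑ g ∈ P.ZZ n r i, (if ((g : G) : G ⧸ H) = x then t ^ wl S g else 0) ≤ P.UU t n H r i x := by
  induction r generalizing i x with
  | zero =>
    rw [ZZ, Finset.sum_singleton, UU]
    have : wl S (1 : G) = 0 := wordLen_one _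
    rw [this, pow_zero]
    dsimp only
    by_cases h : ((1 : G) : G ⧸ H) = x
    · rw [if_pos h, if_pos h.symm]
    · rw [if_neg h]
      split_ifs
      · exact zero_le_one
      · exact le_rfl
  | succ r ih =>
    rw [ZZ, UU, NN]
    refine (Finset.sum_image_le_of_nonneg ?_).trans ?_
    · intro g _
      split_ifs
      · exact pow_nonneg ht _
      · exact le_rfl
    · rw [Finset.sum_product]
      apply Finset.sum_le_sum
      intro k hk
      have h1 := mul_le_mul_of_nonneg_left (ih (!i) ((P.ι i k)⁻¹ • x)) (pow_nonneg ht (kl k))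
      refine le_trans (le_of_eq ?_) h1
      rw [Finset.mul_sum]
      apply Finset.sum_congr rfl
      intro g hg
      have h2 : wl S (P.ι i k * g) = kl k + wl S g := P.len_mul i k g (P.idx_ZZ_ne n r i hg)
      have h3 : ((P.ι i k * g : G) : G ⧸ H) = x ↔ ((g : G) : G ⧸ H) = (P.ι i k)⁻¹ • x := by
        rw [eq_inv_smul_iff]
        rfl
      by_cases h : ((P.ι i k * g : G) : G ⧸ H) = x
      · rw [if_pos h, if_pos (h3.mp h), h2, pow_add]
      · rw [if_neg h, if_neg (fun h' => h (h3.mpr h')), mul_zero]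

end Words

end FP

end Pool.Agent.H86.Stab
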